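import Mathlib
import Pool.Agent.Lib.MP_ccf8bc_lc.Defs

/-!
Universal classes, embedding spectra, second-order definable classes of cardinals and weakly
compact cardinals.
-/

namespace Pool.Agent.Lib.MP_ccf8bc_lc.BC

open FirstOrder FirstOrder.Language Cardinal

universe u

/-- A universal class of `L`-structures: closed under isomorphism and substructures, and
containing every structure all of whose finitely generated substructures it contains. -/
structure Univ (L : FirstOrder.Language.{u, u}) where
  /-- membership in the class -/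
  Mem : ∀ (M : Type u) [L.Structure M], Prop
  of_emb : ∀ {M N : Type u} [L.Structure M] [L.Structure N], (M ↪[L] N) → Mem N → Mem M
  of_fg : ∀ (M : Type u) [L.Structure M],
    (∀ s : Finset M, Mem (Substructure.closure L (s : Set M))) → Mem M

/-- The `τ`-structure `M` embeds into the reduct of a member of `C` of the same size. -/
def Solv {τ τ' : FirstOrder.Language.{u, u}} (φ : τ →ᴸ τ') (C : Univ τ') (M : Type u)
    [τ.Structure M] : Prop :=
  ∃ (U : Type u) (_ : τ.Structure U) (_ : τ'.Structure U),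
    φ.IsExpansionOn U ∧ C.Mem U ∧ #U = #M ∧ Nonempty (M ↪[τ] U)

/-- Every member of `C₀` of size `c` embeds into the reduct of a member of `C₁` of size `c`. -/
def EmbSp {τ τ' : FirstOrder.Language.{u, u}} (φ : τ →ᴸ τ') (C₀ : Univ τ) (C₁ : Univ τ')
    (c : Cardinal.{u}) : Prop :=
  ∀ (M : Type u) [τ.Structure M], C₀.Mem M → #M = c → Solv φ C₁ M

/-- Every `τ`-structure of size `c` has an expansion in `C`. -/
def ExpSp {τ τ' : FirstOrder.Language.{u, u}} (φ : τ →ᴸ τ') (C : Univ τ') (c : Cardinal.{u}) :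
    Prop :=
  ∀ (M : Type u) [τ.Structure M], #M = c →
    ∃ _ : τ'.Structure M, φ.IsExpansionOn M ∧ C.Mem M

/-- `F` is the class of infinite cardinals that carry a `τ`-structure with no expansion in a
fixed universal class. -/
def Sigma12 (F : Set Cardinal.{u}) : Prop :=
  ∃ (τ τ' : FirstOrder.Language.{u, u}) (φ : τ →ᴸ τ') (C : Univ τ'),
    ∀ c, c ∈ F ↔ ℵ₀ ≤ c ∧ ¬ ExpSp φ C c

/-- Weakly compact cardinals (filter extension property): `κ` is uncountable, and every family of
at most `κ` subsets of a set of size `κ` is decided by a `κ`-complete non-principal proper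
filter. -/
def WeaklyCompact (κ : Cardinal.{u}) : Prop :=
  ℵ₀ < κ ∧ ∀ (α : Type u), #α = κ → ∀ A : Set (Set α), #A ≤ κ →
    ∃ F : Filter α, F.NeBot ∧ (∀ a, {a}ᶜ ∈ F) ∧
      (∀ S : Set (Set α), #S < κ → (∀ s ∈ S, s ∈ F) → ⋂₀ S ∈ F) ∧ ∀ s ∈ A, s ∈ F ∨ sᶜ ∈ F

end Pool.Agent.Lib.MP_ccf8bc_lc.BC
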