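import Mathlib
import Pool.Agent.Lib.MP_ccf8bc_lc.BC.Defs

/-!
Structures with list-ary functions and relations; good lists, trees of nodes, the order.
-/

set_option maxHeartbeats 400000

namespace Pool.Agent.Lib.MP_ccf8bc_lc.BC

open FirstOrder FirstOrder.Language Cardinal

universe u

/-- Function symbols; each of them can be applied to a list of any length. -/
inductive FS (τ τ' : FirstOrder.Language.{u, u}) : Type u
  | bf (n : ℕ) (f : τ.Functions n) | tf (n : ℕ) (f : τ'.Functions n)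
  | p (b : Bool) | l (k : ℕ) | en (b : Bool)

/-- Relation symbols; each of them can be applied to a list of any length. -/
inductive RS (τ τ' : FirstOrder.Language.{u, u}) : Type u
  | br (n : ℕ) (r : τ.Relations n) | tr (n : ℕ) (r : τ'.Relations n)
  | Sp | Col | T | S | D

/-- A structure. -/
structure Dat (τ τ' : FirstOrder.Language.{u, u}) (M : Type u) where
  F : FS τ τ' → List M → M
  R : RS τ τ' → List M → Prop

variable {τ τ' : FirstOrder.Language.{u, u}} {M N P : Type u}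

/-- Embeddings. -/
structure Emb (X : Dat τ τ' M) (Y : Dat τ τ' N) (g : M → N) : Prop where
  inj : Function.Injective g
  F : ∀ s (l : List M), Y.F s (l.map g) = g (X.F s l)
  R : ∀ s (l : List M), Y.R s (l.map g) ↔ X.R s l

namespace Dat

variable (X : Dat τ τ' M)

/-- Binary reading of a function symbol. -/
def f2 (s : FS τ τ') (x y : M) : M := X.F s [x, y]

/-- Binary reading of a relation symbol (unary ones are read on the diagonal). -/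
def r2 (s : RS τ τ') (x y : M) : Prop := X.R s [x, y]

/-- The base `τ`-structure. -/
def Base (_X : Dat τ τ' M) : Type u := M

instance : τ.Structure X.Base where
  funMap {n} f v := X.F (.bf n f) (List.ofFn v)
  RelMap {n} r v := X.R (.br n r) (List.ofFn v)

/-- The `τ'`-structure carried by the element `t`. -/
def At (_X : Dat τ τ' M) (_t : M) : Type u := M

instance (t : M) : τ'.Structure (X.At t) where
  funMap {n} f v := X.F (.tf n f) (t :: List.ofFn v)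
  RelMap {n} r v := X.R (.tr n r) (t :: List.ofFn v)

/-- The substructure of the base structure generated by `s`. -/
def clB (s : Set M) : τ.Substructure X.Base := Substructure.closure τ (s : Set X.Base)

/-- The substructure of the structure of `t` generated by `s`. -/
def clT (t : M) (s : Set M) : τ'.Substructure (X.At t) :=
  Substructure.closure τ' (s : Set (X.At t))

/-- `e` separates the nodes `σ`, `ρ`. -/
def Sep (e σ ρ : M) : Prop := ¬ (X.r2 .S e σ ↔ X.r2 .S e ρ)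

/-- On tuples from `s` the structure of `t` agrees with the base structure. -/
def Agree (φ : τ →ᴸ τ') (s : Set M) (t : M) : Prop :=
  (∀ n (f : τ.Functions n) (v : Fin n → M), (∀ i, v i ∈ s) →
    X.F (.tf n (φ.onFunction f)) (t :: List.ofFn v) = X.F (.bf n f) (List.ofFn v)) ∧
  ∀ n (r : τ.Relations n) (v : Fin n → M), (∀ i, v i ∈ s) →
    (X.R (.tr n (φ.onRelation r)) (t :: List.ofFn v) ↔ X.R (.br n r) (List.ofFn v))

/-- The ordinary members of a list. -/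
def ord (l : List M) : Set M := {x | x ∈ l ∧ ¬ X.r2 .Sp x x}

/-- The ordinary members of a list that lie in the domain of `t`. -/
def dom (l : List M) (t : M) : Set M := {x | x ∈ l ∧ ¬ X.r2 .Sp x x ∧ X.r2 .D x t}

/-- The conditions of the unflagged class on a list. -/
def K0 (C₀ : Univ τ) (l : List M) : Prop :=
  (∀ x ∈ l, ¬ X.r2 .T x x) ∧ (∀ x ∈ l, ∀ y ∈ l, ¬ X.r2 .D x y) ∧
  (∀ x ∈ l, ∀ y ∈ l, X.r2 .Sp x x → X.r2 .Sp y y → x = y) ∧
  C₀.Mem (X.clB (X.ord l)) ∧ ∀ z : M, (z : X.Base) ∈ X.clB (X.ord l) → ¬ X.r2 .Sp z z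

/-- The flag `t` is valid on the list. -/
def V1 (φ : τ →ᴸ τ') (C₁ : Univ τ') (l : List M) (t : M) : Prop :=
  (X.dom l t).Nonempty → (∀ x ∈ X.dom l t, ∀ b, X.r2 .D (X.f2 (.p b) x x) t) ∧
    X.Agree φ (X.dom l t) t ∧ C₁.Mem (X.clT t (X.dom l t))

/-- Comparability of a pair at the node `σ`. -/
def V2 (x y σ : M) : Prop :=
  X.r2 .T σ σ → (∃ k, X.r2 .D x (X.f2 (.l k) σ y)) ∨ ∃ k, X.r2 .D y (X.f2 (.l k) σ x)

/-- Comparison of the lists of two nodes at `x`. -/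
def V3 (x σ ρ : M) : Prop :=
  X.r2 .T σ σ → X.r2 .T ρ ρ →
    (∃ k, X.Sep (X.f2 (.l k) σ ρ) σ ρ ∧ X.r2 .D x (X.f2 (.l k) σ ρ)) ∨
    ∀ k, (∃ k', X.f2 (.l k') σ x = X.f2 (.l k) ρ x) ∨ X.Sep (X.f2 (.l k) ρ x) σ ρ

/-- The quantifier-free part of `Tree`. -/
def TM (σ ρ e e' : M) : Prop :=
  X.r2 .T σ σ → X.r2 .T ρ ρ →
    (X.Sep e σ ρ → (∃ k, X.f2 (.l k) σ ρ = e) ∧
      ∀ b, X.r2 .T (X.f2 (.en b) e e) (X.f2 (.en b) e e) ∧
        (X.r2 .S e (X.f2 (.en b) e e) ↔ b = true) ∧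
        (¬ X.Sep e' σ ρ → (X.r2 .S e' (X.f2 (.en b) e e) ↔ X.r2 .S e' σ))) ∧
    ∃ n, ∀ k, X.Sep (X.f2 (.l k) σ ρ) σ ρ → ∃ k' < n, X.f2 (.l k') σ ρ = X.f2 (.l k) σ ρ

/-- The nodes and the separating elements form a tree. -/
def Tree : Prop := ∀ σ ρ e e', X.TM σ ρ e e'

end Dat

/-- The data that the class depends on. -/
structure Par (τ τ' : FirstOrder.Language.{u, u}) where
  φ : τ →ᴸ τ'
  C₀ : Univ τ
  C₁ : Univ τ'

namespace Dat

variable (Γ : Par τ τ') (X : Dat τ τ' M)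

/-- The quantifier-free part of `Q`. -/
def Mx (l : List M) (p q : M) : Prop :=
  X.K0 Γ.C₀ l ∧ X.V1 Γ.φ Γ.C₁ l p ∧ (∀ x ∈ l, ∀ y ∈ l, X.V2 x y p) ∧ (∀ x ∈ l, X.V3 x p q) ∧
    ∀ x ∈ l, ¬ X.r2 .S x p

/-- Good lists. -/
def Q (l : List M) : Prop := ∀ p q, Mx Γ X l p q

/-- Members of the class. -/
def Mem : Prop := X.Tree ∧ ((∃ σ, X.r2 .T σ σ) ∨ ∀ l, Q Γ X l)

/-- Strong embeddings. -/
structure Str (X : Dat τ τ' M) (Y : Dat τ τ' N) (g : M → N) : Prop where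
  emb : Emb X Y g
  dom : Mem Γ X
  cod : Mem Γ Y
  good : ∀ l, Q Γ X l → Q Γ Y (l.map g)

/-- Amalgamation in the cardinal `c`. -/
def APD (c : Cardinal.{u}) : Prop :=
  ∀ (M₀ M₁ M₂ : Type u) (X₀ : Dat τ τ' M₀) (X₁ : Dat τ τ' M₁) (X₂ : Dat τ τ' M₂) (g₁ : M₀ → M₁)
    (g₂ : M₀ → M₂), Str Γ X₀ X₁ g₁ → Str Γ X₀ X₂ g₂ → #M₀ = c → #M₁ = c → #M₂ = c →
    ∃ (N : Type u) (Y : Dat τ τ' N) (f₁ : M₁ → N) (f₂ : M₂ → N),
      #N = c ∧ Str Γ X₁ Y f₁ ∧ Str Γ X₂ Y f₂ ∧ ∀ x, f₁ (g₁ x) = f₂ (g₂ x)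

end Dat

open Dat

variable {Γ : Par τ τ'} {X : Dat τ τ' M} {Y : Dat τ τ' N} {Z : Dat τ τ' P} {g : M → N} {h : N → P}

theorem Dat.nonempty (X : Dat τ τ' M) : Nonempty M := ⟨X.F (.p true) []⟩

theorem Emb.f2 (e : Emb X Y g) (s : FS τ τ') (x y : M) :
    Y.f2 s (g x) (g y) = g (X.f2 s x y) := e.F s [x, y]

theorem Emb.r2 (e : Emb X Y g) (s : RS τ τ') (x y : M) :
    Y.r2 s (g x) (g y) ↔ X.r2 s x y := e.R s [x, y]

theorem Emb.comp (h₁ : Emb X Y g) (h₂ : Emb Y Z h) : Emb X Z (h ∘ g) :=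
  ⟨h₂.inj.comp h₁.inj, fun s l => by rw [← List.map_map, h₂.F, h₁.F]; rfl,
    fun s l => by rw [← List.map_map, h₂.R, h₁.R]⟩

/-- The embedding of base structures. -/
def Emb.base (e : Emb X Y g) : X.Base ↪[τ] Y.Base where
  toFun := g
  inj' := e.inj
  map_fun' {n} f v := (e.F (.bf n f) (List.ofFn v)).symm.trans
    (congrArg (Y.F (.bf n f)) (List.map_ofFn (f := v) (g := g)))
  map_rel' {n} r v := Iff.trans
    (by rw [show List.map g (List.ofFn v) = List.ofFn (g ∘ v) from List.map_ofFn]; rfl)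
    (e.R (.br n r) (List.ofFn v))

/-- The embedding of the structures carried by `t` and its image. -/
def Emb.atEmb (e : Emb X Y g) (t : M) : X.At t ↪[τ'] Y.At (g t) where
  toFun := g
  inj' := e.inj
  map_fun' {n} f v := (e.F (.tf n f) (t :: List.ofFn v)).symm.trans
    (congrArg (fun l => Y.F (.tf n f) (g t :: l)) (List.map_ofFn (f := v) (g := g)))
  map_rel' {n} r v := Iff.trans
    (by rw [List.map_cons, show List.map g (List.ofFn v) = List.ofFn (g ∘ v) from List.map_ofFn]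
        rfl)
    (e.R (.tr n r) (t :: List.ofFn v))

theorem Univ.mono {L : FirstOrder.Language.{u, u}} (C : Univ L) {A : Type u} [L.Structure A]
    {S T : L.Substructure A} (h : S ≤ T) (hT : C.Mem T) : C.Mem S :=
  C.of_emb (Substructure.inclusion h) hT

theorem Univ.closure_image {L : FirstOrder.Language.{u, u}} (C : Univ L) {A B : Type u}
    [L.Structure A] [L.Structure B] (f : A ↪[L] B) (s : Set A) :
    C.Mem (Substructure.closure L (f '' s)) ↔ C.Mem (Substructure.closure L s) := by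
  have h : Substructure.closure L (f '' s) = (Substructure.closure L s).map f.toHom :=
    (Substructure.map_closure f.toHom s).symm
  rw [h]
  exact ⟨C.of_emb (f.substructureEquivMap _).toEmbedding,
    C.of_emb (f.substructureEquivMap _).symm.toEmbedding⟩

theorem mem_closure_image {L : FirstOrder.Language.{u, u}} {A B : Type u}
    [L.Structure A] [L.Structure B] (f : A ↪[L] B) (s : Set A) (z : B) :
    z ∈ Substructure.closure L (f '' s) ↔ ∃ x ∈ Substructure.closure L s, f x = z := by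
  have h : Substructure.closure L (f '' s) = (Substructure.closure L s).map f.toHom :=
    (Substructure.map_closure f.toHom s).symm
  rw [h]
  rfl

namespace Dat

theorem sep_map (e : Emb X Y g) (a σ ρ : M) : Y.Sep (g a) (g σ) (g ρ) ↔ X.Sep a σ ρ := by
  simp only [Sep, e.r2]

theorem ord_map (e : Emb X Y g) (l : List M) : Y.ord (l.map g) = g '' X.ord l := by
  ext z
  simp only [ord, Set.mem_ofPred_eq, List.mem_map, Set.mem_image]
  constructor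
  · rintro ⟨⟨x, hx, rfl⟩, h⟩
    exact ⟨x, ⟨hx, mt (e.r2 _ _ _).2 h⟩, rfl⟩
  · rintro ⟨x, ⟨hx, h⟩, rfl⟩
    exact ⟨⟨x, hx, rfl⟩, mt (e.r2 _ _ _).1 h⟩

theorem dom_map (e : Emb X Y g) (l : List M) (t : M) :
    Y.dom (l.map g) (g t) = g '' X.dom l t := by
  ext z
  simp only [dom, Set.mem_ofPred_eq, List.mem_map, Set.mem_image]
  constructor
  · rintro ⟨⟨x, hx, rfl⟩, h, h'⟩
    exact ⟨x, ⟨hx, mt (e.r2 _ _ _).2 h, (e.r2 _ _ _).1 h'⟩, rfl⟩
  · rintro ⟨x, ⟨hx, h, h'⟩, rfl⟩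
    exact ⟨⟨x, hx, rfl⟩, mt (e.r2 _ _ _).1 h, (e.r2 _ _ _).2 h'⟩

theorem agree_map (e : Emb X Y g) (φ : τ →ᴸ τ') (s : Set M) (t : M) :
    Y.Agree φ (g '' s) (g t) ↔ X.Agree φ s t := by
  have e1 : ∀ {n} (v : Fin n → M), List.ofFn (g ∘ v) = (List.ofFn v).map g :=
    fun v => List.map_ofFn.symm
  have e2 : ∀ {n} (v : Fin n → M), g t :: List.ofFn (g ∘ v) = (t :: List.ofFn v).map g :=
    fun v => by rw [e1, List.map_cons]
  have key : ∀ {n} (w : Fin n → N), (∀ i, w i ∈ g '' s) → ∃ v : Fin n → M, (∀ i, v i ∈ s) ∧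
      w = g ∘ v := fun w hw => by
    choose v h1 h2 using hw
    exact ⟨v, h1, funext fun i => (h2 i).symm⟩
  constructor
  · rintro ⟨h1, h2⟩
    refine ⟨fun n f v hv => e.inj ?_, fun n r v hv => ?_⟩
    · rw [← e.F, ← e.F, ← e2, ← e1]
      exact h1 n f _ fun i => ⟨_, hv i, rfl⟩
    · rw [← e.R, ← e.R, ← e2, ← e1]
      exact h2 n r _ fun i => ⟨_, hv i, rfl⟩
  · rintro ⟨h1, h2⟩
    refine ⟨fun n f w hw => ?_, fun n r w hw => ?_⟩
    · obtain ⟨v, hv, rfl⟩ := key w hw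
      rw [e2, e1, e.F, e.F, h1 n f v hv]
    · obtain ⟨v, hv, rfl⟩ := key w hw
      rw [e2, e1, e.R, e.R, h2 n r v hv]

theorem k0_map (e : Emb X Y g) (C₀ : Univ τ) (l : List M) : Y.K0 C₀ (l.map g) ↔ X.K0 C₀ l := by
  have h1 : C₀.Mem (Y.clB (Y.ord (l.map g))) ↔ C₀.Mem (X.clB (X.ord l)) := by
    rw [ord_map e]
    exact C₀.closure_image e.base _
  have h2 : (∀ z : N, (z : Y.Base) ∈ Y.clB (g '' X.ord l) → ¬ Y.r2 .Sp z z) ↔
      ∀ z : M, (z : X.Base) ∈ X.clB (X.ord l) → ¬ X.r2 .Sp z z := by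
    constructor
    · exact fun h z hz => mt (e.r2 _ _ _).2
        (h (g z) ((mem_closure_image e.base _ _).2 ⟨z, hz, rfl⟩))
    · intro h z hz
      obtain ⟨x, hx, rfl⟩ := (mem_closure_image e.base _ _).1 hz
      exact mt (e.r2 _ _ _).1 (h x hx)
  rw [K0, K0, h1]
  simp only [List.forall_mem_map, e.r2, e.inj.eq_iff, ord_map e, h2]

theorem v1_map (e : Emb X Y g) (φ : τ →ᴸ τ') (C₁ : Univ τ') (l : List M) (t : M) :
    Y.V1 φ C₁ (l.map g) (g t) ↔ X.V1 φ C₁ l t := by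
  have h1 : C₁.Mem (Y.clT (g t) (Y.dom (l.map g) (g t))) ↔ C₁.Mem (X.clT t (X.dom l t)) := by
    rw [dom_map e]
    exact C₁.closure_image (e.atEmb t) _
  rw [V1, V1, h1]
  simp only [dom_map e, Set.image_nonempty, Set.forall_mem_image, e.f2, e.r2, agree_map e]

theorem v2_map (e : Emb X Y g) (x y t : M) : Y.V2 (g x) (g y) (g t) ↔ X.V2 x y t := by
  simp only [V2, e.r2, e.f2]

theorem v3_map (e : Emb X Y g) (x σ ρ : M) : Y.V3 (g x) (g σ) (g ρ) ↔ X.V3 x σ ρ := by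
  simp only [V3, e.r2, e.f2, sep_map e, e.inj.eq_iff]

theorem mx_map (e : Emb X Y g) (l : List M) (p q : M) :
    Mx Γ Y (l.map g) (g p) (g q) ↔ Mx Γ X l p q := by
  simp only [Mx, k0_map e, v1_map e, List.forall_mem_map, v2_map e, v3_map e, e.r2]

theorem tm_map (e : Emb X Y g) (x y p q : M) :
    Y.TM (g x) (g y) (g p) (g q) ↔ X.TM x y p q := by
  simp only [TM, e.r2, e.f2, sep_map e, e.inj.eq_iff]

theorem Q.of_emb (e : Emb X Y g) {l : List M} (h : Q Γ Y (l.map g)) : Q Γ X l :=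
  fun p q => (mx_map e l p q).1 (h _ _)

theorem Tree.of_emb (e : Emb X Y g) (h : Y.Tree) : X.Tree :=
  fun a b c d => (tm_map e a b c d).1 (h _ _ _ _)

theorem Q.k0 {l : List M} (h : Q Γ X l) : X.K0 Γ.C₀ l :=
  (h (X.F (.p true) []) (X.F (.p true) [])).1
theorem Q.v1 {l : List M} (h : Q Γ X l) (t : M) : X.V1 Γ.φ Γ.C₁ l t := (h t t).2.1
theorem Q.v2 {l : List M} (h : Q Γ X l) {x y : M} (hx : x ∈ l) (hy : y ∈ l) (t : M) :
    X.V2 x y t := (h t t).2.2.1 x hx y hy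
theorem Q.v3 {l : List M} (h : Q Γ X l) {x : M} (hx : x ∈ l) (σ ρ : M) : X.V3 x σ ρ :=
  (h σ ρ).2.2.2.1 x hx
theorem Q.ns {l : List M} (h : Q Γ X l) {x : M} (hx : x ∈ l) (p : M) : ¬ X.r2 .S x p :=
  (h p p).2.2.2.2 x hx

theorem Q.intro {l : List M} (h0 : X.K0 Γ.C₀ l) (h1 : ∀ t, X.V1 Γ.φ Γ.C₁ l t)
    (h2 : ∀ x ∈ l, ∀ y ∈ l, ∀ t, X.V2 x y t) (h3 : ∀ x ∈ l, ∀ σ ρ, X.V3 x σ ρ)
    (h4 : ∀ x ∈ l, ∀ p, ¬ X.r2 .S x p) : Q Γ X l :=
  fun p q => ⟨h0, h1 p, fun x hx y hy => h2 x hx y hy p, fun x hx => h3 x hx p q,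
    fun x hx => h4 x hx p⟩

theorem Agree.mono {φ : τ →ᴸ τ'} {s s' : Set M} {t : M} (h : X.Agree φ s' t) (hs : s ⊆ s') :
    X.Agree φ s t :=
  ⟨fun n f v hv => h.1 n f v fun i => hs (hv i), fun n r v hv => h.2 n r v fun i => hs (hv i)⟩

theorem K0.mono {C₀ : Univ τ} {l l' : List M} (h : X.K0 C₀ l') (hl : l ⊆ l') : X.K0 C₀ l := by
  have h1 : X.clB (X.ord l) ≤ X.clB (X.ord l') :=
    Substructure.closure_mono fun x hx => ⟨hl hx.1, hx.2⟩
  exact ⟨fun x hx => h.1 x (hl hx), fun x hx y hy => h.2.1 x (hl hx) y (hl hy),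
    fun x hx y hy => h.2.2.1 x (hl hx) y (hl hy), C₀.mono h1 h.2.2.2.1,
    fun z hz => h.2.2.2.2 z (h1 hz)⟩

/-- `V1` depends only on the set `dom l t`, and monotonically. -/
theorem V1.of_dom {φ : τ →ᴸ τ'} {C₁ : Univ τ'} {l l' : List M} {t : M} (h : X.V1 φ C₁ l' t)
    (hl : X.dom l t ⊆ X.dom l' t) : X.V1 φ C₁ l t := fun hne =>
  have h1 := h (hne.mono hl)
  ⟨fun x hx => h1.1 x (hl hx), h1.2.1.mono hl,
    C₁.mono (Substructure.closure_mono (L := τ') (M := X.At t) hl) h1.2.2⟩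

theorem Q.mono {l l' : List M} (h : Q Γ X l') (hl : l ⊆ l') : Q Γ X l :=
  Q.intro (h.k0.mono hl) (fun t => (h.v1 t).of_dom fun _ hx => ⟨hl hx.1, hx.2⟩)
    (fun _ hx _ hy => h.v2 (hl hx) (hl hy)) (fun _ hx => h.v3 (hl hx)) fun _ hx => h.ns (hl hx)

theorem Tree.mem (h : X.Tree) {σ ρ e : M} (h1 : X.r2 .T σ σ) (h2 : X.r2 .T ρ ρ)
    (h3 : X.Sep e σ ρ) : ∃ k, X.f2 (.l k) σ ρ = e := ((h σ ρ e e h1 h2).1 h3).1

theorem Tree.enT (h : X.Tree) {σ ρ e : M} (h1 : X.r2 .T σ σ) (h2 : X.r2 .T ρ ρ)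
    (h3 : X.Sep e σ ρ) (b : Bool) : X.r2 .T (X.f2 (.en b) e e) (X.f2 (.en b) e e) :=
  (((h σ ρ e e h1 h2).1 h3).2 b).1

theorem Tree.enS (h : X.Tree) {σ ρ e : M} (h1 : X.r2 .T σ σ) (h2 : X.r2 .T ρ ρ)
    (h3 : X.Sep e σ ρ) (b : Bool) : X.r2 .S e (X.f2 (.en b) e e) ↔ b = true :=
  (((h σ ρ e e h1 h2).1 h3).2 b).2.1

theorem Tree.inter (h : X.Tree) {σ ρ e e' : M} (h1 : X.r2 .T σ σ) (h2 : X.r2 .T ρ ρ)
    (h3 : X.Sep e σ ρ) (h4 : ¬ X.Sep e' σ ρ) (b : Bool) :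
    X.r2 .S e' (X.f2 (.en b) e e) ↔ X.r2 .S e' σ :=
  (((h σ ρ e e' h1 h2).1 h3).2 b).2.2 h4

theorem Tree.fin (h : X.Tree) {σ ρ : M} (h1 : X.r2 .T σ σ) (h2 : X.r2 .T ρ ρ) :
    {e | X.Sep e σ ρ}.Finite := by
  obtain ⟨n, hn⟩ := (h σ ρ σ σ h1 h2).2
  refine ((Set.finite_Iio n).image fun k => X.f2 (.l k) σ ρ).subset fun e he => ?_
  obtain ⟨k, rfl⟩ := h.mem h1 h2 he
  obtain ⟨k', hk, hk'⟩ := hn k he
  exact ⟨k', hk, hk'⟩

theorem Tree.intro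
    (hm : ∀ σ ρ e, X.r2 .T σ σ → X.r2 .T ρ ρ → X.Sep e σ ρ → ∃ k, X.f2 (.l k) σ ρ = e)
    (hT : ∀ σ ρ e b, X.r2 .T σ σ → X.r2 .T ρ ρ → X.Sep e σ ρ →
      X.r2 .T (X.f2 (.en b) e e) (X.f2 (.en b) e e))
    (hS : ∀ σ ρ e b, X.r2 .T σ σ → X.r2 .T ρ ρ → X.Sep e σ ρ →
      (X.r2 .S e (X.f2 (.en b) e e) ↔ b = true))
    (hI : ∀ σ ρ e e' b, X.r2 .T σ σ → X.r2 .T ρ ρ → X.Sep e σ ρ → ¬ X.Sep e' σ ρ →
      (X.r2 .S e' (X.f2 (.en b) e e) ↔ X.r2 .S e' σ))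
    (hf : ∀ σ ρ, X.r2 .T σ σ → X.r2 .T ρ ρ → {e | X.Sep e σ ρ}.Finite) : X.Tree := by
  intro σ ρ e e' h1 h2
  refine ⟨fun h3 => ⟨hm σ ρ e h1 h2 h3, fun b => ⟨hT σ ρ e b h1 h2 h3, hS σ ρ e b h1 h2 h3,
    fun h4 => hI σ ρ e e' b h1 h2 h3 h4⟩⟩, ?_⟩
  choose! c hc using fun a => hm σ ρ a h1 h2
  obtain ⟨n, hn⟩ := ((hf σ ρ h1 h2).image c).bddAbove
  exact ⟨n + 1, fun k hk => ⟨c _, Nat.lt_succ_of_le (hn ⟨_, hk, rfl⟩), hc _ hk⟩⟩

/-- `V3` in a tree. -/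
theorem Tree.v3_iff (h : X.Tree) (x σ ρ : M) : X.V3 x σ ρ ↔ (X.r2 .T σ σ → X.r2 .T ρ ρ →
    (∃ e, X.Sep e σ ρ ∧ X.r2 .D x e) ∨
    ∀ k, (∃ k', X.f2 (.l k') σ x = X.f2 (.l k) ρ x) ∨ X.Sep (X.f2 (.l k) ρ x) σ ρ) := by
  refine forall_congr' fun h1 => forall_congr' fun h2 => or_congr_left
    ⟨fun ⟨_, hk⟩ => ⟨_, hk⟩, fun ⟨e, he, hd⟩ => ?_⟩
  obtain ⟨k, rfl⟩ := h.mem h1 h2 he
  exact ⟨k, he, hd⟩

theorem Str.comp (h₁ : Str Γ X Y g) (h₂ : Str Γ Y Z h) : Str Γ X Z (h ∘ g) :=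
  ⟨h₁.emb.comp h₂.emb, h₁.dom, h₂.cod, fun l a => by
    rw [← List.map_map]; exact h₂.good _ (h₁.good l a)⟩

theorem Str.refl (h : Mem Γ X) : Str Γ X X id :=
  ⟨⟨Function.injective_id, fun _ _ => by simp, fun _ _ => by simp⟩, h, h, fun _ c => by simpa⟩

end Dat

end Pool.Agent.Lib.MP_ccf8bc_lc.BC
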