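import Mathlib
import Pool.Agent.Lib.MP_ccf8bc_lc.BC.Basic

/-!
Amalgamation over a base that has a node.
-/

set_option maxHeartbeats 400000

namespace Pool.Agent.Lib.MP_ccf8bc_lc.BC

open FirstOrder Cardinal Dat Set

universe u

variable {τ τ' : FirstOrder.Language.{u, u}} {Γ : Par τ τ'} {M₀ M₁ M₂ N : Type u}
  {X₀ : Dat τ τ' M₀} {X₁ : Dat τ τ' M₁} {X₂ : Dat τ τ' M₂} {Y : Dat τ τ' N}
  {g₁ : M₀ → M₁} {g₂ : M₀ → M₂} {j₁ : M₁ → N} {j₂ : M₂ → N} {γ₁ : M₁ → M₀} {γ₂ : M₂ → M₀}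

theorem gate (e : Emb X₀ X₁ g₁) (h : X₁.Tree) (hT : ∃ σ, X₀.r2 .T σ σ) (σ : M₁)
    (hσ : X₁.r2 .T σ σ) : ∃ ρ, X₀.r2 .T ρ ρ ∧ ∀ a, ¬ X₁.Sep (g₁ a) σ (g₁ ρ) := by
  classical
  obtain ⟨ρ, hρ, hmin⟩ := (InvImage.wf (fun ρ => {a | X₁.Sep a σ (g₁ ρ)}.ncard)
    Nat.lt_wfRel.wf).has_min {ρ | X₀.r2 .T ρ ρ} hT
  refine ⟨ρ, hρ, fun a ha => ?_⟩
  have hρ' := (e.r2 _ _ _).2 hρ
  have h1 := h.enT hσ hρ' ha (decide (X₁.r2 .S (g₁ a) σ))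
  have h2 := h.enS hσ hρ' ha (decide (X₁.r2 .S (g₁ a) σ))
  have h3 := fun e' h4 => h.inter (e' := e') hσ hρ' ha h4 (decide (X₁.r2 .S (g₁ a) σ))
  rw [e.f2] at h1 h2 h3
  refine hmin _ ((e.r2 _ _ _).1 h1) (Set.ncard_lt_ncard ⟨fun e' he' => ?_, fun hs => ?_⟩
    (h.fin hσ hρ'))
  · by_contra h4
    exact he' (h3 e' h4).symm
  · exact hs ha (by simpa using h2.symm)

/-- One half of the description of the amalgam. -/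
structure Half (Γ : Par τ τ') (X₀ : Dat τ τ' M₀) (X₁ : Dat τ τ' M₁) (X₂ : Dat τ τ' M₂) (Y : Dat τ τ' N)
    (g₁ : M₀ → M₁) (g₂ : M₀ → M₂) (j₁ : M₁ → N) (j₂ : M₂ → N) (γ₁ : M₁ → M₀) (γ₂ : M₂ → M₀) :
    Prop where
  s : Str Γ X₀ X₁ g₁
  e : Emb X₁ Y j₁
  comm : ∀ q, j₁ (g₁ q) = j₂ (g₂ q)
  cover : ∀ z, (∃ x, j₁ x = z) ∨ ∃ y, y ∉ range g₂ ∧ j₂ y = z
  gT : ∀ x, X₁.r2 .T x x → X₀.r2 .T (γ₁ x) (γ₁ x)
  gS : ∀ x a, X₁.r2 .T x x → ¬ X₁.Sep (g₁ a) x (g₁ (γ₁ x))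
  hD : ∀ x y, x ∉ range g₁ → y ∉ range g₂ → ¬ Y.r2 .D (j₁ x) (j₂ y)
  hS : ∀ x y, x ∉ range g₁ → y ∉ range g₂ →
    (Y.r2 .S (j₁ x) (j₂ y) ↔ X₂.r2 .T y y ∧ X₁.r2 .S x (g₁ (γ₂ y)))
  hL : ∀ x y, x ∉ range g₁ → y ∉ range g₂ → X₁.r2 .T x x → ∀ z,
    (∃ k, Y.f2 (.l k) (j₁ x) (j₂ y) = z) ↔ (∃ k, j₂ (X₂.f2 (.l k) (g₂ (γ₁ x)) y) = z) ∨
      ∃ a, X₁.Sep a x (g₁ (γ₁ x)) ∧ j₁ a = z

section

variable (A : Half Γ X₀ X₁ X₂ Y g₁ g₂ j₁ j₂ γ₁ γ₂) (B : Half Γ X₀ X₂ X₁ Y g₂ g₁ j₂ j₁ γ₂ γ₁)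
include A B

/-- Sides of elements of `M₂` at a new node of `M₁`. -/
theorem side {s : M₁} (hs : s ∉ range g₁) (hT : X₁.r2 .T s s) (b : M₂) :
    Y.r2 .S (j₂ b) (j₁ s) ↔ X₂.r2 .S b (g₂ (γ₁ s)) := by
  by_cases hb : b ∈ range g₂
  · obtain ⟨a, rfl⟩ := hb
    rw [← A.comm, A.e.r2, B.s.emb.r2, ← A.s.emb.r2]
    exact not_not.1 (A.gS s a hT)
  · rw [B.hS b s hb hs, and_iff_right hT]

/-- New elements of `M₁` do not separate nodes of `M₂`. -/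
theorem nosep {a : M₁} (ha : a ∉ range g₁) {y y' : M₂} (hy : X₂.r2 .T y y) (hy' : X₂.r2 .T y' y') :
    Y.r2 .S (j₁ a) (j₂ y) ↔ Y.r2 .S (j₁ a) (j₂ y') := by
  have key : ∀ y, X₂.r2 .T y y → ∃ ρ, X₀.r2 .T ρ ρ ∧ (Y.r2 .S (j₁ a) (j₂ y) ↔ X₁.r2 .S a (g₁ ρ)) := by
    intro y hy
    by_cases h : y ∈ range g₂
    · obtain ⟨q, rfl⟩ := h
      exact ⟨q, (B.s.emb.r2 _ _ _).1 hy, by rw [← A.comm, A.e.r2]⟩
    · exact ⟨γ₂ y, B.gT y hy, by rw [A.hS a y ha h, and_iff_right hy]⟩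
  obtain ⟨ρ, h1, h2⟩ := key y hy
  obtain ⟨ρ', h1', h2'⟩ := key y' hy'
  rw [h2, h2']
  by_contra h
  obtain ⟨k, hk⟩ := A.s.cod.1.mem ((A.s.emb.r2 _ _ _).2 h1) ((A.s.emb.r2 _ _ _).2 h1') h
  exact ha ⟨_, (A.s.emb.f2 _ _ _).symm.trans hk⟩

/-- Projection of a node to `M₂`, with the lists at the new points of `M₂`. -/
theorem proj {z : N} (hz : Y.r2 .T z z) : ∃ y, X₂.r2 .T y y ∧
    (∀ b, Y.r2 .S (j₂ b) z ↔ X₂.r2 .S b y) ∧ ∀ x, x ∉ range g₂ → ∀ w,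
      (∃ k, Y.f2 (.l k) z (j₂ x) = w) ↔ (∃ k, j₂ (X₂.f2 (.l k) y x) = w) ∨ Y.Sep w z (j₂ y) := by
  rcases B.cover z with ⟨y, rfl⟩ | ⟨s, hs, rfl⟩
  · refine ⟨y, (B.e.r2 _ _ _).1 hz, fun b => B.e.r2 _ _ _, fun x _ w => ?_⟩
    simp [B.e.f2, Dat.Sep]
  · have hT := (A.e.r2 _ _ _).1 hz
    have hγ := A.gT s hT
    refine ⟨g₂ (γ₁ s), (B.s.emb.r2 _ _ _).2 hγ, side A B hs hT, fun x hx w => ?_⟩
    rw [A.hL s x hs hx hT, ← A.comm]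
    refine or_congr_right ⟨?_, fun h => ?_⟩
    · rintro ⟨a, ha, rfl⟩
      exact (sep_map A.e _ _ _).2 ha
    · rcases A.cover w with ⟨a, rfl⟩ | ⟨b, hb, rfl⟩
      · exact ⟨a, (sep_map A.e _ _ _).1 h, rfl⟩
      · exact absurd (nosep B A hb hT ((A.s.emb.r2 _ _ _).2 hγ)) h

theorem mem_same {x x' : M₁} {e : N} (h1 : Y.r2 .T (j₁ x) (j₁ x)) (h2 : Y.r2 .T (j₁ x') (j₁ x'))
    (h3 : Y.Sep e (j₁ x) (j₁ x')) : ∃ k, Y.f2 (.l k) (j₁ x) (j₁ x') = e := by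
  rw [A.e.r2] at h1 h2
  rcases A.cover e with ⟨a, rfl⟩ | ⟨b, hb, rfl⟩
  · obtain ⟨k, rfl⟩ := A.s.cod.1.mem h1 h2 ((sep_map A.e _ _ _).1 h3)
    exact ⟨k, A.e.f2 _ _ _⟩
  · exact absurd (nosep B A hb h1 h2) h3

theorem mem_half {x : M₁} {z e : N} (hx : x ∉ range g₁) (h1 : Y.r2 .T (j₁ x) (j₁ x))
    (h2 : Y.r2 .T z z) (h3 : Y.Sep e (j₁ x) z) : ∃ k, Y.f2 (.l k) (j₁ x) z = e := by
  rcases A.cover z with ⟨x', rfl⟩ | ⟨y, hy, rfl⟩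
  · exact mem_same A B h1 h2 h3
  rw [A.e.r2] at h1
  rw [B.e.r2] at h2
  have hγ := (B.s.emb.r2 _ _ _).2 (A.gT x h1)
  rw [A.hL x y hx hy h1]
  rcases B.cover e with ⟨b, rfl⟩ | ⟨a, ha, rfl⟩
  · left
    obtain ⟨k, hk⟩ := B.s.cod.1.mem (e := b) hγ h2 (by
      rw [Dat.Sep, ← side A B hx h1, ← B.e.r2]; exact h3)
    exact ⟨k, by rw [hk]⟩
  · right
    refine ⟨a, ?_, rfl⟩
    rw [← sep_map A.e, A.comm, Dat.Sep, nosep A B ha hγ h2]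
    exact h3

theorem en_half {z z' : N} {a : M₁} (h1 : Y.r2 .T z z) (h2 : Y.r2 .T z' z')
    (h3 : Y.Sep (j₁ a) z z') (b : Bool) :
    Y.r2 .T (Y.f2 (.en b) (j₁ a) (j₁ a)) (Y.f2 (.en b) (j₁ a) (j₁ a)) ∧
    (Y.r2 .S (j₁ a) (Y.f2 (.en b) (j₁ a) (j₁ a)) ↔ b = true) ∧
    ∀ e', ¬ Y.Sep e' z z' → (Y.r2 .S e' (Y.f2 (.en b) (j₁ a) (j₁ a)) ↔ Y.r2 .S e' z) := by
  obtain ⟨x, p1, p2, -⟩ := proj B A h1
  obtain ⟨x', p1', p2', -⟩ := proj B A h2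
  have h4 : X₁.Sep a x x' := by rw [Dat.Sep, ← p2, ← p2']; exact h3
  have hT := A.s.cod.1.enT p1 p1' h4 b
  refine ⟨by rw [A.e.f2, A.e.r2]; exact hT,
    by rw [A.e.f2, A.e.r2]; exact A.s.cod.1.enS p1 p1' h4 b, fun e' h5 => ?_⟩
  rcases A.cover e' with ⟨a', rfl⟩ | ⟨b', hb', rfl⟩
  · rw [A.e.f2, A.e.r2, p2]
    exact A.s.cod.1.inter p1 p1' h4 (by rw [Dat.Sep, ← p2, ← p2']; exact h5) b
  rcases A.cover z with ⟨s, rfl⟩ | ⟨y, -, rfl⟩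
  · rw [A.e.f2]
    exact nosep B A hb' hT ((A.e.r2 _ _ _).1 h1)
  rcases A.cover z' with ⟨s, rfl⟩ | ⟨y', -, rfl⟩
  · rw [A.e.f2, not_not.1 h5]
    exact nosep B A hb' hT ((A.e.r2 _ _ _).1 h2)
  rw [B.e.r2] at h1 h2
  by_cases ha : a ∈ range g₁
  · obtain ⟨q, rfl⟩ := ha
    rw [A.comm] at h3 ⊢
    rw [B.e.f2, B.e.r2, B.e.r2]
    exact B.s.cod.1.inter h1 h2 ((sep_map B.e _ _ _).1 h3) (mt (sep_map B.e _ _ _).2 h5) b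
  · exact absurd (nosep A B ha h1 h2) h3

theorem tree : Y.Tree := by
  have key : ∀ σ ρ e b, Y.r2 .T σ σ → Y.r2 .T ρ ρ → Y.Sep e σ ρ →
      Y.r2 .T (Y.f2 (.en b) e e) (Y.f2 (.en b) e e) ∧ (Y.r2 .S e (Y.f2 (.en b) e e) ↔ b = true) ∧
      ∀ e', ¬ Y.Sep e' σ ρ → (Y.r2 .S e' (Y.f2 (.en b) e e) ↔ Y.r2 .S e' σ) := by
    intro σ ρ e b h1 h2 h3
    rcases A.cover e with ⟨a, rfl⟩ | ⟨a, -, rfl⟩
    · exact en_half A B h1 h2 h3 b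
    · exact en_half B A h1 h2 h3 b
  refine Tree.intro (fun σ ρ e h1 h2 h3 => ?_) (fun σ ρ e b h1 h2 h3 => (key σ ρ e b h1 h2 h3).1)
    (fun σ ρ e b h1 h2 h3 => (key σ ρ e b h1 h2 h3).2.1)
    (fun σ ρ e e' b h1 h2 h3 h4 => (key σ ρ e b h1 h2 h3).2.2 e' h4) fun σ ρ h1 h2 => ?_
  · rcases A.cover σ with ⟨x, rfl⟩ | ⟨y, hy, rfl⟩
    · by_cases hx : x ∈ range g₁
      · obtain ⟨q, rfl⟩ := hx
        rcases A.cover ρ with ⟨x', rfl⟩ | ⟨y, -, rfl⟩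
        · exact mem_same A B h1 h2 h3
        · rw [A.comm] at h1 h3 ⊢
          exact mem_same B A h1 h2 h3
      · exact mem_half A B hx h1 h2 h3
    · exact mem_half B A hy h1 h2 h3
  · obtain ⟨x, p1, p2, -⟩ := proj B A h1
    obtain ⟨x', p1', p2', -⟩ := proj B A h2
    obtain ⟨y, q1, q2, -⟩ := proj A B h1
    obtain ⟨y', q1', q2', -⟩ := proj A B h2
    refine (((A.s.cod.1.fin p1 p1').image j₁).union
      ((B.s.cod.1.fin q1 q1').image j₂)).subset fun e he => ?_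
    rcases A.cover e with ⟨a, rfl⟩ | ⟨a, -, rfl⟩
    · exact Or.inl ⟨a, by rw [mem_ofPred_eq, Dat.Sep, ← p2, ← p2']; exact he, rfl⟩
    · exact Or.inr ⟨a, by rw [mem_ofPred_eq, Dat.Sep, ← q2, ← q2']; exact he, rfl⟩

theorem transfer {l : List M₂} (h : Q Γ X₂ l) {l₀ : List M₀} (hl : ∀ q ∈ l₀, g₂ q ∈ l) :
    Q Γ X₁ (l₀.map g₁) :=
  A.s.good l₀ ((h.mono fun _ hx => by
    obtain ⟨q, hq, rfl⟩ := List.mem_map.1 hx
    exact hl q hq).of_emb B.s.emb)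

theorem transfer1 {q : M₀} (h : Q Γ X₂ [g₂ q]) : Q Γ X₁ [g₁ q] :=
  transfer A B h (l₀ := [q]) (by simp)

theorem v2_half {x y : M₂} {s : M₁} (hs : s ∉ range g₁) (hy : y ∉ range g₂) (hx : Q Γ X₂ [x])
    (hv : X₂.V2 x y (g₂ (γ₁ s))) : Y.V2 (j₂ x) (j₂ y) (j₁ s) := by
  intro hT
  rw [A.e.r2] at hT
  have hγ := A.gT s hT
  rcases hv ((B.s.emb.r2 _ _ _).2 hγ) with ⟨k, hk⟩ | ⟨k, hk⟩
  · obtain ⟨k', hk'⟩ := (A.hL s y hs hy hT _).2 (Or.inl ⟨k, rfl⟩)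
    exact Or.inl ⟨k', by rw [hk', B.e.r2]; exact hk⟩
  by_cases h : x ∈ range g₂
  · obtain ⟨q, rfl⟩ := h
    rcases (transfer1 A B hx).v3 (List.mem_singleton_self _) s (g₁ (γ₁ s)) hT ((A.s.emb.r2 _ _ _).2 hγ) with
      ⟨k', h1, h2⟩ | h1
    · obtain ⟨k'', hk''⟩ := (A.hL s y hs hy hT _).2 (Or.inr ⟨_, h1, rfl⟩)
      exact Or.inl ⟨k'', by rw [hk'', ← A.comm, A.e.r2]; exact h2⟩
    · rcases h1 k with ⟨k', hk'⟩ | h2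
      · refine Or.inr ⟨k', ?_⟩
        rw [← A.comm, A.e.f2, hk', A.s.emb.f2, A.comm, ← B.s.emb.f2, B.e.r2]
        exact hk
      · rw [A.s.emb.f2] at h2
        exact absurd h2 (A.gS s _ hT)
  · obtain ⟨k', hk'⟩ := (A.hL s x hs h hT _).2 (Or.inl ⟨k, rfl⟩)
    exact Or.inr ⟨k', by rw [hk', B.e.r2]; exact hk⟩

theorem v3_new {x : M₂} (hx : x ∉ range g₂) (hQ : Q Γ X₂ [x]) (z z' : N) : Y.V3 (j₂ x) z z' := by
  rw [(tree A B).v3_iff]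
  intro h1 h2
  obtain ⟨y, p1, p2, p3⟩ := proj A B h1
  obtain ⟨y', p1', p2', p3'⟩ := proj A B h2
  have hs : ∀ b, X₂.Sep b y y' → Y.Sep (j₂ b) z z' := fun b hb => by
    rw [Dat.Sep, p2, p2']; exact hb
  rcases hQ.v3 (List.mem_singleton_self _) y y' p1 p1' with ⟨k, h3, h4⟩ | h3
  · exact Or.inl ⟨_, hs _ h3, (B.e.r2 _ _ _).2 h4⟩
  refine Or.inr fun k => ?_
  rcases (p3' x hx _).1 ⟨k, rfl⟩ with ⟨k₀, h4⟩ | h4
  · rw [← h4]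
    rcases h3 k₀ with ⟨k', h5⟩ | h5
    · exact Or.inl ((p3 x hx _).2 (Or.inl ⟨k', by rw [h5]⟩))
    · exact Or.inr (hs _ h5)
  · generalize Y.f2 (.l k) z' (j₂ x) = w at h4 ⊢
    by_cases h5 : Y.Sep w z (j₂ y)
    · exact Or.inl ((p3 x hx _).2 (Or.inr h5))
    refine Or.inr fun h6 => ?_
    rcases B.cover w with ⟨b, rfl⟩ | ⟨a, ha, rfl⟩
    · exact h4 (by rw [p2', B.e.r2])
    · exact h4 (h6.symm.trans ((not_not.1 h5).trans (nosep A B ha p1 p1')))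

theorem v3_mix {q : M₀} (q1 : Q Γ X₁ [g₁ q]) (q2 : Q Γ X₂ [g₂ q]) {s : M₁} {s' : M₂}
    (hs : s ∉ range g₁) : Y.V3 (j₁ (g₁ q)) (j₁ s) (j₂ s') := by
  rw [(tree A B).v3_iff]
  intro h1 h2
  rw [A.e.r2] at h1
  rw [B.e.r2] at h2
  have hγ := A.gT s h1
  have hγ2 := (B.s.emb.r2 _ _ _).2 hγ
  have s1 : ∀ a, X₁.Sep a s (g₁ (γ₁ s)) → Y.Sep (j₁ a) (j₁ s) (j₂ s') := fun a ha => by
    have ha' : a ∉ range g₁ := by
      rintro ⟨b, rfl⟩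
      exact A.gS s b h1 ha
    rw [Dat.Sep, ← nosep A B ha' hγ2 h2, ← A.comm]
    exact (sep_map A.e _ _ _).2 ha
  have s2 : ∀ b, X₂.Sep b (g₂ (γ₁ s)) s' → Y.Sep (j₂ b) (j₁ s) (j₂ s') := fun b hb => by
    rw [Dat.Sep, side A B hs h1, B.e.r2]
    exact hb
  rcases q1.v3 (List.mem_singleton_self _) s (g₁ (γ₁ s)) h1 ((A.s.emb.r2 _ _ _).2 hγ) with ⟨k, h3, h4⟩ | h3
  · exact Or.inl ⟨_, s1 _ h3, (A.e.r2 _ _ _).2 h4⟩
  rcases q2.v3 (List.mem_singleton_self _) (g₂ (γ₁ s)) s' hγ2 h2 with ⟨k, h4, h5⟩ | h4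
  · exact Or.inl ⟨_, s2 _ h4, by rw [A.comm, B.e.r2]; exact h5⟩
  refine Or.inr fun k => ?_
  have e1 : Y.f2 (.l k) (j₂ s') (j₁ (g₁ q)) = j₂ (X₂.f2 (.l k) s' (g₂ q)) := by rw [A.comm, B.e.f2]
  rw [e1]
  rcases h4 k with ⟨k', h5⟩ | h5
  · rw [← h5, B.s.emb.f2, ← A.comm, ← A.s.emb.f2]
    rcases h3 k' with ⟨k'', h6⟩ | h6
    · exact Or.inl ⟨k'', by rw [A.e.f2, h6]⟩
    · exact Or.inr (s1 _ h6)
  · exact Or.inr (s2 _ h5)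

theorem good_half (l : List M₂) (hl : Q Γ X₂ l) : Q Γ Y (l.map j₂) := by
  classical
  have one : ∀ x ∈ l, Q Γ X₂ [x] := fun x hx => hl.mono (by simpa using hx)
  obtain ⟨l₀, h₀, h₀'⟩ : ∃ l₀ : List M₀, (∀ q ∈ l₀, g₂ q ∈ l) ∧ ∀ q, g₂ q ∈ l → q ∈ l₀ := by
    have hf : {q | g₂ q ∈ l}.Finite :=
      (List.finite_toSet l).preimage B.s.emb.inj.injOn
    exact ⟨hf.toFinset.toList, by simp, by simp⟩
  have Q₁ := transfer A B hl h₀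
  have m₁ : ∀ q, g₂ q ∈ l → g₁ q ∈ l₀.map g₁ := fun q hq => List.mem_map_of_mem (h₀' q hq)
  refine Q.intro ((k0_map B.e _ _).2 hl.k0) (fun t => ?_) ?_ ?_ ?_
  · rcases B.cover t with ⟨t, rfl⟩ | ⟨t, ht, rfl⟩
    · exact (v1_map B.e _ _ _ _).2 (hl.v1 t)
    refine ((v1_map A.e _ _ _ _).2 (Q₁.v1 t)).of_dom fun z hz => ⟨?_, hz.2⟩
    obtain ⟨x, hx, rfl⟩ := List.mem_map.1 hz.1
    obtain ⟨q, rfl⟩ : x ∈ range g₂ := by_contra fun h => B.hD x t h ht hz.2.2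
    rw [← A.comm]
    exact List.mem_map_of_mem (m₁ q hx)
  · simp only [List.forall_mem_map]
    intro x hx y hy t
    rcases B.cover t with ⟨t, rfl⟩ | ⟨t, ht, rfl⟩
    · exact (v2_map B.e _ _ _).2 (hl.v2 hx hy t)
    by_cases h : y ∈ range g₂
    · by_cases h' : x ∈ range g₂
      · obtain ⟨q, rfl⟩ := h'
        obtain ⟨q', rfl⟩ := h
        have := (v2_map A.e _ _ _).2 (Q₁.v2 (m₁ q hx) (m₁ q' hy) t)
        rwa [A.comm, A.comm] at this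
      · exact fun hT => (v2_half A B ht h' (one y hy) (hl.v2 hy hx _) hT).symm
    · exact v2_half A B ht h (one x hx) (hl.v2 hx hy _)
  · simp only [List.forall_mem_map]
    intro x hx z z'
    by_cases h : x ∈ range g₂
    · obtain ⟨q, rfl⟩ := h
      have q2 := one _ hx
      have q1 := transfer1 A B q2
      rcases B.cover z with ⟨s, rfl⟩ | ⟨s, hs, rfl⟩
      · rcases B.cover z' with ⟨s', rfl⟩ | ⟨s', -, rfl⟩
        · exact (v3_map B.e _ _ _).2 (hl.v3 hx s s')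
        · by_cases hs : s ∈ range g₂
          · obtain ⟨r, rfl⟩ := hs
            rw [← A.comm, ← A.comm]
            exact (v3_map A.e _ _ _).2 (q1.v3 (List.mem_singleton_self _) _ _)
          · exact v3_mix B A q2 q1 hs
      · rw [← A.comm]
        rcases B.cover z' with ⟨s', rfl⟩ | ⟨s', -, rfl⟩
        · exact v3_mix A B q1 q2 hs
        · exact (v3_map A.e _ _ _).2 (q1.v3 (List.mem_singleton_self _) _ _)
    · exact v3_new A B h (one x hx) z z'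
  · simp only [List.forall_mem_map]
    intro x hx p
    rcases B.cover p with ⟨p, rfl⟩ | ⟨p, hp, rfl⟩
    · rw [B.e.r2]
      exact hl.ns hx p
    by_cases h : x ∈ range g₂
    · obtain ⟨q, rfl⟩ := h
      rw [← A.comm, A.e.r2]
      exact Q₁.ns (m₁ q hx) p
    · rw [B.hS x p h hp]
      exact fun h' => hl.ns hx _ h'.2

end

theorem exists_sq (h₁ : Function.Injective g₁) (h₂ : Function.Injective g₂) :
    ∃ (N : Type u) (j₁ : M₁ → N) (j₂ : M₂ → N), #N ≤ #M₁ + #M₂ ∧ Function.Injective j₁ ∧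
      Function.Injective j₂ ∧ (∀ q, j₁ (g₁ q) = j₂ (g₂ q)) ∧
      (∀ x y, j₁ x = j₂ y → ∃ q, g₁ q = x ∧ g₂ q = y) ∧
      ∀ z, (∃ x, j₁ x = z) ∨ ∃ y, j₂ y = z := by
  classical
  let j₂ : M₂ → M₁ ⊕ {y // y ∉ range g₂} := fun y =>
    if h : y ∈ range g₂ then Sum.inl (g₁ h.choose) else Sum.inr ⟨y, h⟩
  have e1 : ∀ q, j₂ (g₂ q) = Sum.inl (g₁ q) := fun q => by
    have h : g₂ q ∈ range g₂ := ⟨q, rfl⟩
    simp only [j₂, dif_pos h, h₂ h.choose_spec]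
  have e2 : ∀ y (h : y ∉ range g₂), j₂ y = Sum.inr ⟨y, h⟩ := fun y h => dif_neg h
  refine ⟨M₁ ⊕ {y // y ∉ range g₂}, Sum.inl, j₂, ?_, Sum.inl_injective, fun y y' h => ?_,
    fun q => (e1 q).symm, fun x y h => ?_, ?_⟩
  · simp only [Cardinal.mk_sum, lift_id]
    exact add_le_add le_rfl (Cardinal.mk_subtype_le _)
  · by_cases a : y ∈ range g₂ <;> by_cases b : y' ∈ range g₂
    · obtain ⟨q, rfl⟩ := a
      obtain ⟨q', rfl⟩ := b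
      rw [e1, e1] at h
      rw [h₁ (Sum.inl_injective h)]
    · obtain ⟨q, rfl⟩ := a
      rw [e1, e2 _ b] at h
      exact absurd h Sum.inl_ne_inr
    · obtain ⟨q, rfl⟩ := b
      rw [e1, e2 _ a] at h
      exact absurd h Sum.inr_ne_inl
    · rw [e2 _ a, e2 _ b] at h
      exact congrArg Subtype.val (Sum.inr_injective h)
  · by_cases a : y ∈ range g₂
    · obtain ⟨q, rfl⟩ := a
      rw [e1] at h
      exact ⟨q, (Sum.inl_injective h).symm, rfl⟩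
    · rw [e2 _ a] at h
      exact absurd h Sum.inl_ne_inr
  · rintro (x | ⟨y, h⟩)
    · exact Or.inl ⟨x, rfl⟩
    · exact Or.inr ⟨y, e2 y h⟩

theorem exists_glue {α : Type*} [Nonempty M₁] [Nonempty M₂] (i₁ : Function.Injective j₁)
    (i₂ : Function.Injective j₂) (comm : ∀ q, j₁ (g₁ q) = j₂ (g₂ q))
    (meet : ∀ x y, j₁ x = j₂ y → ∃ q, g₁ q = x ∧ g₂ q = y) (f₁ : List M₁ → α) (f₂ : List M₂ → α)
    (hf : ∀ l : List M₀, f₁ (l.map g₁) = f₂ (l.map g₂)) (m₁ : M₁ → M₂ → α) (m₂ : M₂ → M₁ → α) :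
    ∃ f : List N → α, (∀ l, f (l.map j₁) = f₁ l) ∧ (∀ l, f (l.map j₂) = f₂ l) ∧
      ∀ x y, x ∉ range g₁ → y ∉ range g₂ →
        f [j₁ x, j₂ y] = m₁ x y ∧ f [j₂ y, j₁ x] = m₂ y x := by
  classical
  have l₁ := Function.leftInverse_invFun i₁
  have l₂ := Function.leftInverse_invFun i₂
  have e₁ : ∀ l : List M₁, (l.map j₁).map (Function.invFun j₁) = l := fun l => by
    rw [List.map_map, l₁.comp_eq_id, List.map_id]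
  have e₂ : ∀ l : List M₂, (l.map j₂).map (Function.invFun j₂) = l := fun l => by
    rw [List.map_map, l₂.comp_eq_id, List.map_id]
  let m : List N → α := fun l => match l with
    | [z, z'] => if z ∈ range j₁ then m₁ (Function.invFun j₁ z) (Function.invFun j₂ z') else
        m₂ (Function.invFun j₂ z) (Function.invFun j₁ z')
    | _ => f₁ []
  refine ⟨fun l => if ∀ z ∈ l, z ∈ range j₁ then f₁ (l.map (Function.invFun j₁)) else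
      if ∀ z ∈ l, z ∈ range j₂ then f₂ (l.map (Function.invFun j₂)) else m l, fun l => ?_,
      fun l => ?_, fun x y hx hy => ?_⟩
  · dsimp only
    rw [if_pos (by simp), e₁]
  · dsimp only
    split_ifs with h h'
    · obtain ⟨l₀, rfl⟩ : ∃ l₀ : List M₀, l = l₀.map g₂ := by
        clear hf
        induction l with
        | nil => exact ⟨[], rfl⟩
        | cons y l ih =>
          obtain ⟨x, hx⟩ := h (j₂ y) (by simp)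
          obtain ⟨q, -, rfl⟩ := meet _ _ hx
          obtain ⟨l₀, rfl⟩ := ih fun z hz => h z (List.mem_cons_of_mem _ hz)
          exact ⟨q :: l₀, rfl⟩
      have : (l₀.map g₂).map j₂ = (l₀.map g₁).map j₁ := by
        simp only [List.map_map]
        exact List.map_congr_left fun q _ => (comm q).symm
      rw [this, e₁, hf]
    · rw [e₂]
    · exact absurd (by simp) h'
  · have a : j₂ y ∉ range j₁ := by
      rintro ⟨x', h⟩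
      obtain ⟨q, -, rfl⟩ := meet _ _ h
      exact hy ⟨q, rfl⟩
    have b : j₁ x ∉ range j₂ := by
      rintro ⟨y', h⟩
      obtain ⟨q, rfl, -⟩ := meet _ _ h.symm
      exact hx ⟨q, rfl⟩
    constructor
    · dsimp only
      rw [if_neg fun h => a (h _ (by simp)), if_neg fun h => b (h _ (by simp))]
      simp only [m, mem_range_self, if_true, l₁ x, l₂ y]
    · dsimp only
      rw [if_neg fun h => a (h _ (by simp)), if_neg fun h => b (h _ (by simp))]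
      simp only [m, a, if_false, l₁ x, l₂ y]

/-- Mixed values of the functions. -/
def mF (lst : M₁ → M₂ → ℕ → N) (j₁ : M₁ → N) : FS τ τ' → M₁ → M₂ → N
  | .l k, x, y => lst x y k
  | _, x, _ => j₁ x

/-- Mixed values of the relations. -/
def mR (X₁ : Dat τ τ' M₁) (X₂ : Dat τ τ' M₂) (p : M₂ → M₁) : RS τ τ' → M₁ → M₂ → Prop
  | .S, x, y => X₂.r2 .T y y ∧ X₁.r2 .S x (p y)
  | _, _, _ => False

theorem exists_lst (h₁ : Str Γ X₀ X₁ g₁) (X₂ : Dat τ τ' M₂) (g₂ : M₀ → M₂) (j₁ : M₁ → N) (j₂ : M₂ → N)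
    (gT : ∀ x, X₁.r2 .T x x → X₀.r2 .T (γ₁ x) (γ₁ x)) :
    ∃ lst : M₁ → M₂ → ℕ → N, ∀ x y, X₁.r2 .T x x → ∀ z, (∃ k, lst x y k = z) ↔
      (∃ k, j₂ (X₂.f2 (.l k) (g₂ (γ₁ x)) y) = z) ∨ ∃ a, X₁.Sep a x (g₁ (γ₁ x)) ∧ j₁ a = z := by
  have : ∀ x y, ∃ l : ℕ → N, X₁.r2 .T x x → ∀ z, (∃ k, l k = z) ↔
      (∃ k, j₂ (X₂.f2 (.l k) (g₂ (γ₁ x)) y) = z) ∨ ∃ a, X₁.Sep a x (g₁ (γ₁ x)) ∧ j₁ a = z := by
    intro x y
    by_cases hx : X₁.r2 .T x x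
    · obtain ⟨l, hl⟩ := Set.Countable.exists_eq_range ((Set.countable_range fun k =>
        j₂ (X₂.f2 (.l k) (g₂ (γ₁ x)) y)).union ((h₁.cod.1.fin hx
          ((h₁.emb.r2 _ _ _).2 (gT x hx))).image j₁).countable) ⟨_, Or.inl ⟨0, rfl⟩⟩
      exact ⟨l, fun _ z => (Set.ext_iff.1 hl z).symm⟩
    · exact ⟨fun _ => j₁ x, fun h => absurd h hx⟩
  choose lst h using this
  exact ⟨lst, h⟩

theorem amal {M₀ M₁ M₂ : Type u} {X₀ : Dat τ τ' M₀} {X₁ : Dat τ τ' M₁} {X₂ : Dat τ τ' M₂}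
    {g₁ : M₀ → M₁} {g₂ : M₀ → M₂} (h₁ : Dat.Str Γ X₀ X₁ g₁) (h₂ : Dat.Str Γ X₀ X₂ g₂)
    (hT : ∃ σ, X₀.r2 .T σ σ) :
    ∃ (N : Type u) (Y : Dat τ τ' N) (f₁ : M₁ → N) (f₂ : M₂ → N), #N ≤ #M₁ + #M₂ ∧
      Dat.Str Γ X₁ Y f₁ ∧ Dat.Str Γ X₂ Y f₂ ∧ ∀ x, f₁ (g₁ x) = f₂ (g₂ x) := by
  have := X₁.nonempty
  have := X₂.nonempty
  have := X₀.nonempty
  obtain ⟨N, j₁, j₂, hN, i₁, i₂, comm, meet, cover⟩ := exists_sq h₁.emb.inj h₂.emb.inj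
  choose! γ₁ gT₁ gS₁ using gate h₁.emb h₁.cod.1 hT
  choose! γ₂ gT₂ gS₂ using gate h₂.emb h₂.cod.1 hT
  obtain ⟨l₁, hl₁⟩ := exists_lst h₁ X₂ g₂ j₁ j₂ gT₁
  obtain ⟨l₂, hl₂⟩ := exists_lst h₂ X₁ g₁ j₂ j₁ gT₂
  choose F F1 F2 F3 using fun s : FS τ τ' => exists_glue i₁ i₂ comm meet
    (fun l => j₁ (X₁.F s l)) (fun l => j₂ (X₂.F s l))
    (fun l => by rw [h₁.emb.F, h₂.emb.F, comm]) (mF l₁ j₁ s) (mF l₂ j₂ s)
  choose R R1 R2 R3 using fun s : RS τ τ' => exists_glue i₁ i₂ comm meet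
    (X₁.R s) (X₂.R s) (fun l => propext ((h₁.emb.R _ _).trans (h₂.emb.R _ _).symm))
    (mR X₁ X₂ (fun y => g₁ (γ₂ y)) s) (mR X₂ X₁ (fun y => g₂ (γ₁ y)) s)
  have A : Half Γ X₀ X₁ X₂ ⟨F, R⟩ g₁ g₂ j₁ j₂ γ₁ γ₂ := by
    refine ⟨h₁, ⟨i₁, F1, fun s l => (R1 s l).to_iff⟩, comm, fun z => ?_, gT₁,
      fun x a hx => gS₁ x hx a, fun x y hx hy => (R3 .D x y hx hy).1.to_iff.not.2 id,
      fun x y hx hy => (R3 .S x y hx hy).1.to_iff, fun x y hx hy h z => ?_⟩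
    · rcases cover z with h | ⟨y, rfl⟩
      · exact Or.inl h
      · by_cases hy : y ∈ range g₂
        · obtain ⟨q, rfl⟩ := hy
          exact Or.inl ⟨_, comm q⟩
        · exact Or.inr ⟨y, hy, rfl⟩
    · rw [← hl₁ x y h z]
      exact exists_congr fun k => (congrArg (· = z) (F3 (.l k) x y hx hy).1).to_iff
  have B : Half Γ X₀ X₂ X₁ ⟨F, R⟩ g₂ g₁ j₂ j₁ γ₂ γ₁ := by
    refine ⟨h₂, ⟨i₂, F2, fun s l => (R2 s l).to_iff⟩, fun q => (comm q).symm, fun z => ?_, gT₂,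
      fun x a hx => gS₂ x hx a, fun x y hx hy => (R3 .D y x hy hx).2.to_iff.not.2 id,
      fun x y hx hy => (R3 .S y x hy hx).2.to_iff, fun x y hx hy h z => ?_⟩
    · rcases cover z with ⟨y, rfl⟩ | h
      · by_cases hy : y ∈ range g₁
        · obtain ⟨q, rfl⟩ := hy
          exact Or.inl ⟨_, (comm q).symm⟩
        · exact Or.inr ⟨y, hy, rfl⟩
      · exact Or.inl h
    · rw [← hl₂ x y h z]
      exact exists_congr fun k => (congrArg (· = z) (F3 (.l k) y x hy hx).2).to_iff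
  obtain ⟨σ, hσ⟩ := hT
  have hY : Dat.Mem Γ (⟨F, R⟩ : Dat τ τ' N) := ⟨tree A B,
    Or.inl ⟨j₁ (g₁ σ), (A.e.r2 _ _ _).2 ((h₁.emb.r2 _ _ _).2 hσ)⟩⟩
  exact ⟨N, ⟨F, R⟩, j₁, j₂, hN, ⟨A.e, h₁.cod, hY, good_half B A⟩, ⟨B.e, h₂.cod, hY, good_half A B⟩,
    comm⟩

end Pool.Agent.Lib.MP_ccf8bc_lc.BC
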