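import Mathlib
import Pool.Agent.Lib.MP_ccf8bc_lc.Dir
import Pool.Agent.Lib.MP_ccf8bc_lc.BC.Basic

/-!
Auxiliary notions and the statements of intermediate results.
-/

namespace Pool.Agent.Lib.MP_ccf8bc_lc.BC

open FirstOrder FirstOrder.Language FirstOrder.Language.Structure Cardinal Dat

universe u

variable {τ τ' : FirstOrder.Language.{u, u}}

/-- An unflagged structure with pairing, with no special point, whose base is not solvable. -/
structure IsFull (Γ : Par τ τ') {M : Type u} (X : Dat τ τ' M) : Prop where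
  tree : X.Tree
  good : ∀ l, Q Γ X l
  nsp : ∀ x, ¬ X.r2 .Sp x x
  pair : ∀ a a', ∃ z, X.f2 (.p false) z z = a ∧ X.f2 (.p true) z z = a'
  uns : ¬ Solv Γ.φ Γ.C₁ X.Base

/-- Adding a special point of colour `c`. -/
def StPt (Γ : Par τ τ') : Prop :=
  ∀ (M : Type u) (X : Dat τ τ' M), Mem Γ X → (∀ l, Q Γ X l) → (∀ x, ¬ X.r2 .Sp x x) → ∀ c : Prop,
    ∃ X' : Dat τ τ' (Option M), Str Γ X X' some ∧ X'.r2 .Sp none none ∧ (X'.r2 .Col none none ↔ c)

/-- Recolouring the points outside a strong substructure. -/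
def StCol (Γ : Par τ τ') : Prop :=
  ∀ (M N : Type u) (X : Dat τ τ' M) (Y : Dat τ τ' N) (g : M → N), Str Γ X Y g → ∀ c : Prop,
    ∃ Y' : Dat τ τ' N, Str Γ X Y' g ∧ Y'.F = Y.F ∧ (∀ s, s ≠ RS.Col → Y'.R s = Y.R s) ∧
      ∀ y, y ∉ Set.range g → (Y'.r2 .Col y y ↔ c)

/-- On a set of size `c` there are at most `c` functions into `I` that no non-principal
ultrafilter makes all almost everywhere constant. -/
def NonSoft (I : Type u) (c : Cardinal.{u}) : Prop :=
  ∀ α : Type u, #α = c → ∃ (J : Type u) (f : J → α → I), #J ≤ c ∧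
    ∀ U : Ultrafilter α, (∀ a, {a} ∉ U) → ∃ j, ∀ i, {x | f j x = i} ∉ U

/-- Solvability without the size condition. -/
def SolvW (φ : τ →ᴸ τ') (C : Univ τ') (M : Type u) [τ.Structure M] : Prop :=
  ∃ (U : Type u) (_ : τ.Structure U) (_ : τ'.Structure U),
    φ.IsExpansionOn U ∧ C.Mem U ∧ Nonempty (M ↪[τ] U)

/-- Two families satisfy the same atomic formulas. -/
def SameDiag (L : FirstOrder.Language.{u, u}) {W A B : Type u} [L.Structure A] [L.Structure B]
    (a : W → A) (b : W → B) : Prop :=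
  (∀ t t' : L.Term W, t.realize a = t'.realize a ↔ t.realize b = t'.realize b) ∧
  ∀ (n : ℕ) (r : L.Relations n) (ts : Fin n → L.Term W),
    RelMap r (fun i => (ts i).realize a) ↔ RelMap r fun i => (ts i).realize b

/-- Limit structures along a filter. -/
def StLimit : Prop :=
  ∀ (L : FirstOrder.Language.{u, u}) (C : Univ L) (V Ω : Type u) (𝔉 : Filter Ω) [𝔉.NeBot]
    (N : Ω → Type u) [∀ ω, L.Structure (N ω)] (ρ : ∀ ω, V → N ω), (∀ ω, C.Mem (N ω)) →
    (∀ s : Finset V, ∃ A ∈ 𝔉, ∀ ω ∈ A, ∀ ω' ∈ A,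
      SameDiag L (fun v : s => ρ ω v) fun v : s => ρ ω' v) →
    ∃ (P : Type u) (_ : L.Structure P) (π : V → P), C.Mem P ∧ #P ≤ max ℵ₀ (#V + L.card) ∧
      ∀ s : Finset V, ∃ A ∈ 𝔉, ∀ ω ∈ A, SameDiag L (fun v : s => π v) fun v : s => ρ ω v

/-- Weakly compact cardinals are inaccessible. -/
def StInacc : Prop := ∀ κ : Cardinal.{u}, WeaklyCompact κ → κ.IsInaccessible

/-- Coherent homogeneous tuples below a weakly compact cardinal. -/
def StPart : Prop :=
  ∀ (α : Type u), WeaklyCompact #α → ∀ (β : ℕ → Type u), (∀ n, #(β n) < #α) →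
    ∀ c : ∀ n, (Fin n → α) → β n, ∃ h : ∀ n, Fin n → α, (∀ n, Function.Injective (h n)) ∧
      ∀ (m n : ℕ) (e : Fin m ↪o Fin n), c m (h n ∘ e) = c m (h m)

section

variable {L : FirstOrder.Language.{u, u}} (K : AEC L) {J N : Type u} [L.Structure N]

/-- The values of `sk` at `l` and at `l'` enumerate strong substructures `S ≤ T`, and `S`
contains `l`. -/
def PresAt (sk : J → List N → N) (l l' : List N) : Prop :=
  ∃ S T : L.Substructure N, (S : Set N) = Set.range (fun j => sk j l) ∧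
    (T : Set N) = Set.range (fun j => sk j l') ∧ (∀ x ∈ l, x ∈ S) ∧ K.R S T

/-- `sk` presents `N` as a directed union of strong substructures. -/
def Pres (sk : J → List N → N) : Prop := ∀ l l' : List N, l ⊆ l' → PresAt K sk l l'

end

/-- Presentations exist. -/
def StP1 : Prop :=
  ∀ (L : FirstOrder.Language.{u, u}) (K : AEC L) (J A N : Type u) [L.Structure A] [L.Structure N]
    (f : A ↪[L] N), K.LS ≤ #J → K.Str f → ∃ sk : J → List N → N, Pres K sk ∧
      ∀ j l, (∀ x ∈ l, x ∈ Set.range f) → sk j l ∈ Set.range f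

/-- An embedding with closed range into a presented structure is strong. -/
def StP2 : Prop :=
  ∀ (L : FirstOrder.Language.{u, u}) (K : AEC L) (J A N : Type u) [L.Structure A] [L.Structure N]
    (f : A ↪[L] N) (sk : J → List N → N), Pres K sk →
      (∀ j l, (∀ x ∈ l, x ∈ Set.range f) → sk j l ∈ Set.range f) → K.Str f

/-- The local condition is absolute. -/
def StP3 : Prop :=
  ∀ (L : FirstOrder.Language.{u, u}) (K : AEC L) (J A N : Type u) [L.Structure A] [L.Structure N]
    (f : A ↪[L] N) (skA : J → List A → A) (skN : J → List N → N),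
      (∀ j l, skN j (l.map f) = f (skA j l)) →
      ∀ l l', PresAt K skN (l.map f) (l'.map f) ↔ PresAt K skA l l'

end Pool.Agent.Lib.MP_ccf8bc_lc.BC
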