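import Mathlib
import Pool.Agent.Lib.MP_ccf8bc_lc.BC.Stmts

/-!
The class as an abstract elementary class.
-/

namespace Pool.Agent.Lib.MP_ccf8bc_lc.BC

open FirstOrder FirstOrder.Language FirstOrder.Language.Structure Cardinal Dat

universe u

variable {τ τ' : FirstOrder.Language.{u, u}}

/-- Function symbols `S` and relation symbols `T` in every arity. -/
def Class_L (S T : Type u) : FirstOrder.Language.{u, u} where
  Functions _ := S
  Relations _ := T

/-- The structure given by list-ary functions and relations. -/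
@[reducible] def Class_toS {S T M : Type u} (F : S → List M → M) (R : T → List M → Prop) :
    (Class_L S T).Structure M where
  funMap f v := F f (List.ofFn v)
  RelMap r v := R r (List.ofFn v)

theorem Class_get {M : Type u} {α : Sort*} (G : ∀ n, (Fin n → M) → α) {n : ℕ} (v : Fin n → M) :
    G _ (List.ofFn v).get = G n v := by
  have : ∀ (l : List M) (h : l.length = n), (∀ i, l.get (Fin.cast h.symm i) = v i) →
      G _ l.get = G n v := by
    intro l h hv
    subst h
    exact congrArg (G _) (funext hv)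
  exact this _ List.length_ofFn fun i => by simp

theorem Class_map {M N : Type u} (f : M → N) (l : List M) : l.map f = List.ofFn (f ∘ l.get) := by
  rw [← List.map_ofFn, List.ofFn_get]

theorem Class_closure {S N : Type u} (G : S → List N → N) (A : Set N) :
    ∃ C : Set N, A ⊆ C ∧ (∀ s l, (∀ x ∈ l, x ∈ C) → G s l ∈ C) ∧
      #C ≤ max ℵ₀ (#A + #(Σ n, (Class_L S PEmpty).Functions n)) := by
  let _ := Class_toS (T := PEmpty) G fun r => r.elim
  refine ⟨Substructure.closure (Class_L S PEmpty) A, Substructure.subset_closure,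
    fun s l hl => ?_, ?_⟩
  · have := (Substructure.closure (Class_L S PEmpty) A).fun_mem (n := l.length) s l.get
      fun i => hl _ (List.get_mem l i)
    change G s (List.ofFn l.get) ∈ _ at this
    rwa [List.ofFn_get] at this
  · have h := Substructure.lift_card_closure_le (L := Class_L S PEmpty) (s := A)
    simp only [lift_id] at h
    exact h

variable (τ τ') in
/-- The language of the class. -/
abbrev Class_Lang : FirstOrder.Language.{u, u} := Class_L (FS τ τ') (RS τ τ')

variable (τ τ') in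
/-- The data of a structure. -/
def Class_ofS (M : Type u) [(Class_Lang τ τ').Structure M] : Dat τ τ' M where
  F s l := funMap (L := Class_Lang τ τ') (n := l.length) s l.get
  R s l := RelMap (L := Class_Lang τ τ') (n := l.length) s l.get

theorem Class_of_to {M : Type u} (X : Dat τ τ' M) :
    @Class_ofS τ τ' M (Class_toS X.F X.R) = X := by
  obtain ⟨F, R⟩ := X
  have h1 : (fun s (l : List M) => F s (List.ofFn l.get)) = F := by
    funext s l; rw [List.ofFn_get]
  have h2 : (fun s (l : List M) => R s (List.ofFn l.get)) = R := by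
    funext s l; rw [List.ofFn_get]
  exact congrArg₂ Dat.mk h1 h2

section

variable {M N : Type u} [(Class_Lang τ τ').Structure M] [(Class_Lang τ τ').Structure N]

theorem Class_F (s : FS τ τ') {n : ℕ} (v : Fin n → M) :
    (Class_ofS τ τ' M).F s (List.ofFn v) = funMap (L := Class_Lang τ τ') (n := n) s v :=
  Class_get (fun n v => funMap (L := Class_Lang τ τ') (n := n) s v) v

theorem Class_R (s : RS τ τ') {n : ℕ} (v : Fin n → M) :
    (Class_ofS τ τ' M).R s (List.ofFn v) = RelMap (L := Class_Lang τ τ') (n := n) s v :=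
  Class_get (fun n v => RelMap (L := Class_Lang τ τ') (n := n) s v) v

theorem Class_emb (f : M ↪[Class_Lang τ τ'] N) : Emb (Class_ofS τ τ' M) (Class_ofS τ τ' N) f :=
  ⟨f.injective,
    fun s l => by
      rw [Class_map, Class_F]
      exact (f.map_fun (n := l.length) s l.get).symm,
    fun s l => by
      rw [Class_map, Class_R]
      exact f.map_rel (n := l.length) s l.get⟩

/-- An embedding of data is an embedding of structures. -/
def Class_ofEmb {f : M → N} (h : Emb (Class_ofS τ τ' M) (Class_ofS τ τ' N) f) :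
    M ↪[Class_Lang τ τ'] N where
  toFun := f
  inj' := h.inj
  map_fun' {n} s v := by
    have := h.F s (List.ofFn v)
    rw [List.map_ofFn, Class_F, Class_F] at this
    exact this.symm
  map_rel' {n} s v := by
    have := h.R s (List.ofFn v)
    rw [List.map_ofFn, Class_R, Class_R] at this
    exact this

variable {ι : Type u} [LinearOrder ι] [Nonempty ι] (S : ι → (Class_Lang τ τ').Substructure N)
  (hS : Monotone S)

include hS in
theorem Class_pt (a : (⨆ i, S i : (Class_Lang τ τ').Substructure N)) :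
    ∀ᶠ j in Filter.atTop, ∃ a' : S j, Substructure.inclusion (le_iSup S j) a' = a := by
  obtain ⟨k, hk⟩ := (Substructure.mem_iSup_of_directed hS.directed_le).1 a.2
  exact (Filter.eventually_ge_atTop k).mono fun j hj => ⟨⟨a, hS hj hk⟩, rfl⟩

include hS in
theorem Class_lst (l : List (⨆ i, S i : (Class_Lang τ τ').Substructure N)) :
    ∀ᶠ j in Filter.atTop, ∃ l' : List (S j),
      l'.map (Substructure.inclusion (le_iSup S j)) = l := by
  induction l with
  | nil => exact Filter.Eventually.of_forall fun j => ⟨[], rfl⟩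
  | cons a l ih =>
    refine ((Class_pt S hS a).and ih).mono ?_
    rintro j ⟨⟨a', ha⟩, l', hl⟩
    exact ⟨a' :: l', by rw [List.map_cons, ha, hl]⟩

include hS in
theorem Class_mem (Γ : Par τ τ') (h : ∀ i, Mem Γ (Class_ofS τ τ' (S i))) :
    Mem Γ (Class_ofS τ τ' (⨆ i, S i : (Class_Lang τ τ').Substructure N)) := by
  have he := fun j => Class_emb (Substructure.inclusion (le_iSup S j))
  refine ⟨fun a b c d => ?_, ?_⟩
  · obtain ⟨j, ⟨a, rfl⟩, ⟨b, rfl⟩, ⟨c, rfl⟩, d, rfl⟩ := ((Class_pt S hS a).and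
      ((Class_pt S hS b).and ((Class_pt S hS c).and (Class_pt S hS d)))).exists
    exact (tm_map (he j) a b c d).2 ((h j).1 a b c d)
  by_cases hn : ∃ j σ, (Class_ofS τ τ' (S j)).r2 .T σ σ
  · obtain ⟨j, σ, hσ⟩ := hn
    exact Or.inl ⟨_, ((he j).r2 _ σ σ).2 hσ⟩
  refine Or.inr fun l c d => ?_
  obtain ⟨j, ⟨l, rfl⟩, ⟨c, rfl⟩, d, rfl⟩ := ((Class_lst S hS l).and
    ((Class_pt S hS c).and (Class_pt S hS d))).exists
  exact (mx_map (he j) l c d).2 ((h j).2.resolve_left (fun e => hn ⟨j, e⟩) l c d)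

end

variable (τ τ') in
/-- A cardinal that bounds the language and the closure operations. -/
noncomputable def Class_th : Cardinal.{u} :=
  max (max ℵ₀ (Class_Lang τ τ').card)
    #(Σ n, (Class_L (Option (Option (FS τ τ'))) PEmpty).Functions n)

theorem Class_th_inf : ℵ₀ ≤ Class_th τ τ' := (le_max_left _ _).trans (le_max_left _ _)

theorem Class_ls (Γ : Par τ τ') (N : Type u) [(Class_Lang τ τ').Structure N]
    (hN : Mem Γ (Class_ofS τ τ' N)) (A : Set N) :
    ∃ S : (Class_Lang τ τ').Substructure N, A ⊆ S ∧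
      Str Γ (Class_ofS τ τ' S) (Class_ofS τ τ' N) S.subtype ∧ #S ≤ #A + Class_th τ τ' := by
  have a1 : N := Classical.choice (Class_ofS τ τ' N).nonempty
  have h1 : ∀ l : List N, ∃ p q, Mx Γ (Class_ofS τ τ' N) l p q → Q Γ (Class_ofS τ τ' N) l :=
    fun l => by
      by_cases h : Q Γ (Class_ofS τ τ' N) l
      · exact ⟨a1, a1, fun _ => h⟩
      · obtain ⟨p, hp⟩ := not_forall.1 h
        obtain ⟨q, hq⟩ := not_forall.1 hp
        exact ⟨p, q, fun e => (hq e).elim⟩
  choose p q hpq using h1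
  obtain ⟨a, ha⟩ : ∃ a : N, (∃ σ, (Class_ofS τ τ' N).r2 .T σ σ) →
      (Class_ofS τ τ' N).r2 .T a a := by
    by_cases h : ∃ σ, (Class_ofS τ τ' N).r2 .T σ σ
    · exact h.imp fun _ e _ => e
    · exact ⟨a1, fun e => (h e).elim⟩
  obtain ⟨C, c1, c2, c3⟩ := Class_closure
    (fun s : Option (Option (FS τ τ')) => s.elim p fun t => t.elim q (Class_ofS τ τ' N).F)
    (insert a A)
  let S : (Class_Lang τ τ').Substructure N := ⟨C, fun {n} s v hv => by
    have := c2 (some (some s)) (List.ofFn v) fun x hx => by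
      obtain ⟨i, rfl⟩ := (List.mem_ofFn' v x).1 hx
      exact hv i
    exact Class_F s v ▸ this⟩
  have he := Class_emb S.subtype
  have a0 : a ∈ S := c1 (Set.mem_insert _ _)
  have hl : ∀ l : List S, ∀ x ∈ l.map S.subtype, x ∈ C := fun l x hx => by
    obtain ⟨y, -, rfl⟩ := List.mem_map.1 hx
    exact y.2
  refine ⟨S, (Set.subset_insert _ _).trans c1, ⟨he, ⟨hN.1.of_emb he,
    hN.2.imp (fun h => ⟨⟨a, a0⟩, (he.r2 _ _ _).1 (ha h)⟩) fun h l => (h _).of_emb he⟩, hN,
    fun l h => hpq _ ((mx_map he l ⟨p _, c2 none _ (hl l)⟩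
      ⟨q _, c2 (some none) _ (hl l)⟩).2 (h _ _))⟩, c3.trans ?_⟩
  have hth : #(Σ n, (Class_L (Option (Option (FS τ τ'))) PEmpty).Functions n) ≤ Class_th τ τ' :=
    le_max_right _ _
  refine max_le (Class_th_inf.trans le_add_self) ((add_le_add mk_insert_le hth).trans ?_)
  rw [add_assoc, add_comm 1, add_one_eq Class_th_inf]

/-- The class. -/
def Class_K (Γ : Par τ τ') : AEC (Class_Lang τ τ') where
  Mem M _ := Mem Γ (Class_ofS τ τ' M)
  Str {M N} _ _ f := Str Γ (Class_ofS τ τ' M) (Class_ofS τ τ' N) f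
  nonempty M _ _ := (Class_ofS τ τ' M).nonempty
  mem_dom _ h := h.dom
  mem_cod _ h := h.cod
  str_equiv e h := by
    have h1 := Class_emb e.toEmbedding
    have h2 := Class_emb e.symm.toEmbedding
    refine ⟨h1, h, ⟨h.1.of_emb h2, h.2.imp (fun ⟨σ, hσ⟩ => ⟨_, (h1.r2 _ σ σ).2 hσ⟩)
      fun k l => (k _).of_emb h2⟩, fun l k => Q.of_emb h2 ?_⟩
    have : (l.map e.toEmbedding).map e.symm.toEmbedding = l := by
      rw [List.map_map]
      exact (List.map_congr_left fun x _ => e.symm_apply_apply x).trans (List.map_id _)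
    rw [this]
    exact k
  str_comp _ _ h h' := h.comp h'
  coherence f g h h' := ⟨Class_emb f, h'.dom, h.dom, fun l a =>
    Q.of_emb h.emb (by rw [List.map_map]; exact h'.good l a)⟩
  chain_union S hS h i := by
    refine ⟨Class_emb _, (h i i le_rfl).dom, Class_mem S hS Γ fun j => (h j j le_rfl).dom,
      fun l a p q => ?_⟩
    obtain ⟨j, hj, ⟨p, rfl⟩, q, rfl⟩ := ((Filter.eventually_ge_atTop i).and
      ((Class_pt S hS p).and (Class_pt S hS q))).exists
    have := (mx_map (Class_emb (Substructure.inclusion (le_iSup S j))) _ p q).2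
      ((h i j hj).good l a p q)
    rw [List.map_map] at this
    exact this
  chain_smooth S hS W hW h h' := by
    refine ⟨Class_emb _, Class_mem S hS Γ fun j => (h j j le_rfl).dom,
      (h' (Classical.arbitrary _)).cod, fun l a => ?_⟩
    obtain ⟨j, l, rfl⟩ := (Class_lst S hS l).exists
    have he := Class_emb (Substructure.inclusion (le_iSup S j))
    rw [List.map_map]
    exact (h' j).good l (a.of_emb he)
  ls := ⟨Class_th τ τ', Class_th_inf, (le_max_right _ _).trans (le_max_left _ _), Class_ls Γ⟩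

theorem exists_AEC (Γ : Par τ τ') :
    ∃ (L : FirstOrder.Language.{u, u}) (K : AEC L), ∀ c, K.AP c ↔ Dat.APD Γ c := by
  refine ⟨Class_Lang τ τ', Class_K Γ,
    fun c => ⟨fun h M₀ M₁ M₂ X₀ X₁ X₂ g₁ g₂ s₁ s₂ c₀ c₁ c₂ => ?_,
      fun h M₀ M₁ M₂ _ _ _ g₁ g₂ s₁ s₂ c₀ c₁ c₂ => ?_⟩⟩
  · let _ := Class_toS X₀.F X₀.R
    let _ := Class_toS X₁.F X₁.R
    let _ := Class_toS X₂.F X₂.R
    have e₀ : Class_ofS τ τ' M₀ = X₀ := Class_of_to X₀
    have e₁ : Class_ofS τ τ' M₁ = X₁ := Class_of_to X₁
    have e₂ : Class_ofS τ τ' M₂ = X₂ := Class_of_to X₂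
    have t₁ : Str Γ (Class_ofS τ τ' M₀) (Class_ofS τ τ' M₁) g₁ := by rw [e₀, e₁]; exact s₁
    have t₂ : Str Γ (Class_ofS τ τ' M₀) (Class_ofS τ τ' M₂) g₂ := by rw [e₀, e₂]; exact s₂
    obtain ⟨N, _, f₁, f₂, a, b, d, e⟩ := h M₀ M₁ M₂ (Class_ofEmb (f := g₁) t₁.emb)
      (Class_ofEmb (f := g₂) t₂.emb) t₁ t₂ c₀ c₁ c₂
    refine ⟨N, Class_ofS τ τ' N, f₁, f₂, a, ?_, ?_, fun x => DFunLike.congr_fun e x⟩
    · rw [← e₁]; exact b
    · rw [← e₂]; exact d
  · obtain ⟨N, Y, f₁, f₂, a, b, d, e⟩ := h M₀ M₁ M₂ _ _ _ g₁ g₂ s₁ s₂ c₀ c₁ c₂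
    let this := Class_toS Y.F Y.R
    have e₀ : Class_ofS τ τ' N = Y := Class_of_to Y
    have b' : Str Γ (Class_ofS τ τ' M₁) (Class_ofS τ τ' N) f₁ := by rw [e₀]; exact b
    have d' : Str Γ (Class_ofS τ τ' M₂) (Class_ofS τ τ' N) f₂ := by rw [e₀]; exact d
    exact ⟨N, this, Class_ofEmb (f := f₁) b'.emb, Class_ofEmb (f := f₂) d'.emb, a, b', d',
      DFunLike.ext _ _ e⟩

end Pool.Agent.Lib.MP_ccf8bc_lc.BC
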