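import Mathlib
import Pool.Agent.Lib.MP_ccf8bc_lc.BC.Stmts

/-!
Compactness at a weakly compact cardinal.
-/

namespace Pool.Agent.Lib.MP_ccf8bc_lc.BC

open FirstOrder FirstOrder.Language FirstOrder.Language.Structure Cardinal Dat

universe u

variable {τ τ' : FirstOrder.Language.{u, u}}

theorem compact_card_formula (L : FirstOrder.Language.{u, u}) (W : Type u) :
    #(L.Formula W) ≤ max ℵ₀ (#W + L.card) := by
  have h := BoundedFormula.card_le (L := L) (α := W)
  simp only [lift_id] at h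
  exact (mk_le_of_injective (f := fun a : L.Formula W => (⟨0, a⟩ : Σ n, L.BoundedFormula W n))
    (sigma_mk_injective (β := fun n => L.BoundedFormula W n) (i := 0))).trans h

theorem compact_card_closure (L : FirstOrder.Language.{u, u}) {M : Type u} [L.Structure M]
    (s : Set M) : #(Substructure.closure L s) ≤ max ℵ₀ (#s + L.card) := by
  have h := Substructure.lift_card_closure_le (L := L) (s := s)
  simp only [lift_id] at h
  refine h.trans (max_le_max le_rfl (add_le_add le_rfl ?_))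
  exact mk_le_of_injective (f := (Sum.inl : _ → L.Symbols)) Sum.inl_injective

theorem compact_sameDiag {L : FirstOrder.Language.{u, u}} {W A B : Type u} [L.Structure A]
    [L.Structure B] {a : W → A} {b : W → B} (h : ∀ ψ : L.Formula W, ψ.Realize a ↔ ψ.Realize b) :
    SameDiag L a b :=
  ⟨fun t t' => by simpa only [Formula.realize_equal] using h (t.equal t'),
    fun _ r ts => by simpa only [Formula.realize_rel] using h (r.formula ts)⟩

theorem compact (h1 : StLimit.{u}) (h2 : StInacc.{u}) (φ : τ →ᴸ τ') (C : Univ τ') (M : Type u)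
    [τ.Structure M] (hκ : WeaklyCompact #M) (hτ : τ.card < #M) (hτ' : τ'.card < #M)
    (hs : ∀ A : τ.Substructure M, #A < #M → SolvW φ C A) : SolvW φ C M := by
  classical
  have h0 : ℵ₀ < #M := (h2 _ hκ).aleph0_lt
  haveI : Infinite M := aleph0_le_mk_iff.1 h0.le
  obtain ⟨_, _, ho⟩ := exists_ord_eq_type_lt M
  let A : M → τ.Substructure M := fun ω => Substructure.closure τ (Set.Iic ω)
  have hA : ∀ ω, #(A ω) < #M := fun ω => by
    refine (compact_card_closure τ _).trans_lt (max_lt h0 (add_lt_of_lt h0.le ?_ hτ))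
    rw [← Set.Iio_insert]
    exact mk_insert_le.trans_lt (add_lt_of_lt h0.le (mk_Iio_lt ω ho) (one_lt_aleph0.trans h0))
  have mA : ∀ {x ω}, x ≤ ω → x ∈ A ω := fun h => Substructure.subset_closure h
  choose U s1 s2 ex mem em using fun ω => hs (A ω) (hA ω)
  let e : ∀ ω, A ω ↪[τ] U ω := fun ω => (em ω).some
  let ρ : ∀ ω, M → U ω := fun ω x => if h : x ∈ A ω then e ω ⟨x, h⟩ else e ω ⟨ω, mA le_rfl⟩
  have hρ : ∀ ω (x : A ω), ρ ω x = e ω x := fun ω x => dif_pos x.2
  let Z : (Σ s : Finset M, τ'.Formula s) → Set M := fun p =>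
    {ω | p.2.Realize fun v : p.1 => ρ ω v}
  have cF : ∀ s : Finset M, #(τ'.Formula s) < #M := fun s =>
    (compact_card_formula τ' s).trans_lt
      (max_lt h0 (add_lt_of_lt h0.le ((lt_aleph0_of_finite _).trans h0) hτ'))
  have cZ : #(Set.range Z) ≤ #M := by
    refine mk_range_le.trans ?_
    rw [mk_sigma]
    refine (sum_le_sum _ (fun _ => #M) fun s => (cF s).le).trans ?_
    rw [sum_const', mk_finset_of_infinite, mul_eq_self h0.le]
  obtain ⟨F, hne, hpt, hcomp, hdec⟩ := hκ.2 M rfl (Set.range Z) cZ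
  have tail : ∀ x, Set.Ici x ∈ F := fun x => by
    have := hcomp ((fun a => ({a}ᶜ : Set M)) '' Set.Iio x) (mk_image_le.trans_lt (mk_Iio_lt x ho))
      (by rintro _ ⟨a, -, rfl⟩; exact hpt a)
    refine Filter.mem_of_superset this fun ω hω => ?_
    by_contra hn
    exact hω _ ⟨ω, not_le.1 hn, rfl⟩ rfl
  obtain ⟨P, sP, π, mP, -, hP⟩ := h1 τ' C M M F U ρ mem fun s => by
    let Y : τ'.Formula s → Set M := fun ψ => if Z ⟨s, ψ⟩ ∈ F then Z ⟨s, ψ⟩ else (Z ⟨s, ψ⟩)ᶜ
    refine ⟨⋂₀ Set.range Y, hcomp _ (mk_range_le.trans_lt (cF s)) ?_,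
      fun ω hω ω' hω' => compact_sameDiag fun ψ => ?_⟩
    · rintro _ ⟨ψ, rfl⟩
      by_cases h : Z ⟨s, ψ⟩ ∈ F
      · simpa only [Y, if_pos h] using h
      · simpa only [Y, if_neg h] using (hdec _ ⟨⟨s, ψ⟩, rfl⟩).resolve_left h
    · have a := hω _ ⟨ψ, rfl⟩
      have b := hω' _ ⟨ψ, rfl⟩
      by_cases h : Z ⟨s, ψ⟩ ∈ F
      · simp only [Y, if_pos h] at a b
        exact iff_of_true a b
      · simp only [Y, if_neg h] at a b
        exact iff_of_false a b
  have key : ∀ s : Finset M, ∃ ω, (∀ x ∈ s, x ∈ A ω) ∧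
      SameDiag τ' (fun v : s => π v) fun v : s => ρ ω v := fun s => by
    obtain ⟨B, hB, hB'⟩ := hP s
    obtain ⟨ω, h1, h2⟩ := Filter.nonempty_of_mem
      (Filter.inter_mem hB ((Filter.biInter_finset_mem s).2 fun x _ => tail x))
    exact ⟨ω, fun x hx => mA (Set.mem_iInter₂.1 h2 x hx), hB' ω h1⟩
  letI : τ.Structure P := φ.reduct P
  refine ⟨P, inferInstance, sP, φ.isExpansionOn_reduct P, mP, ⟨⟨⟨π, fun x y h => ?_⟩,
    fun {n} f v => ?_, fun {n} r v => ?_⟩⟩⟩
  · obtain ⟨ω, a, b⟩ := key {x, y}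
    have := (b.1 (Term.var ⟨x, by simp⟩) (Term.var ⟨y, by simp⟩)).1 h
    simp only [Term.realize_var] at this
    rw [hρ ω ⟨x, a x (by simp)⟩, hρ ω ⟨y, a y (by simp)⟩] at this
    exact congrArg Subtype.val ((e ω).injective this)
  · obtain ⟨ω, a, b⟩ := key (insert (funMap f v) (Finset.univ.image v))
    haveI := ex ω
    refine (b.1 (Term.var ⟨funMap f v, by simp⟩)
      (Term.func (φ.onFunction f) fun i => Term.var ⟨v i, by simp⟩)).2 ?_
    simp only [Term.realize_var, Term.realize_func, LHom.map_onFunction]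
    let w : Fin n → A ω := fun i => ⟨v i, a _ (by simp)⟩
    have e1 : (fun i => ρ ω (v i)) = e ω ∘ w := funext fun i => hρ ω (w i)
    rw [e1, ← (e ω).map_fun]
    exact hρ ω (funMap f w)
  · obtain ⟨ω, a, b⟩ := key (Finset.univ.image v)
    haveI := ex ω
    refine (b.2 n (φ.onRelation r) fun i => Term.var ⟨v i, by simp⟩).trans ?_
    simp only [Term.realize_var, LHom.map_onRelation]
    let w : Fin n → A ω := fun i => ⟨v i, a _ (by simp)⟩
    have e1 : (fun i => ρ ω (v i)) = e ω ∘ w := funext fun i => hρ ω (w i)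
    rw [e1, (e ω).map_rel]
    rfl

theorem solv_of_solvW (φ : τ →ᴸ τ') (C : Univ τ') (M : Type u) [τ.Structure M] [Infinite M]
    (hτ' : τ'.card ≤ #M) (h : SolvW φ C M) : Solv φ C M := by
  obtain ⟨U, s1, s2, ex, mem, ⟨g⟩⟩ := h
  let S : τ'.Substructure U := Substructure.closure τ' (Set.range g)
  have mS : ∀ x, g x ∈ S := fun x => Substructure.subset_closure ⟨x, rfl⟩
  have inj : Function.Injective fun x => (⟨g x, mS x⟩ : S) :=
    fun x y h => g.injective (congrArg Subtype.val h)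
  letI : τ.Structure S := φ.reduct S
  refine ⟨S, inferInstance, inferInstance, φ.isExpansionOn_reduct S, C.of_emb S.subtype mem,
    le_antisymm ?_ (mk_le_of_injective inj), ⟨⟨⟨_, inj⟩, fun {n} f v => ?_, fun {n} r v => ?_⟩⟩⟩
  · refine (compact_card_closure τ' _).trans (max_le (aleph0_le_mk M) ?_)
    exact (add_le_add mk_range_le hτ').trans (add_eq_self (aleph0_le_mk M)).le
  · refine Subtype.ext ?_
    exact (g.map_fun f v).trans (φ.map_onFunction f (g ∘ v)).symm
  · exact (iff_of_eq (φ.map_onRelation r (g ∘ v))).trans (g.map_rel r v)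

end Pool.Agent.Lib.MP_ccf8bc_lc.BC
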