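import Mathlib

/-!
A local compactness property of cardinals.
-/

namespace Pool.Agent.Lib.MP_ccf8bc_lc.BC

open Cardinal

universe u

/-- Every family of at most `m` functions on a set of size `κ`, each with fewer than `κ` values,
is made almost everywhere constant by one non-principal ultrafilter. -/
def Cpt (κ m : Cardinal.{u}) : Prop :=
  ∀ (α J β : Type u) (f : J → α → β), #α = κ → #J ≤ m → (∀ j, #(Set.range (f j)) < κ) →
    ∃ U : Ultrafilter α, (∀ a, {a} ∉ U) ∧ ∀ j, ∃ b, {x | f j x = b} ∈ U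

/-- `m` is neither a strong limit nor a power of two, and some uncountable `κ` with
`κ ≤ m < 2 ^ κ` has the compactness property for `m` functions. -/
def Exotic (m : Cardinal.{u}) : Prop :=
  ¬ m.IsStrongLimit ∧ (∀ l, m ≠ 2 ^ l) ∧ ∃ κ, ℵ₀ < κ ∧ κ ≤ m ∧ m < 2 ^ κ ∧ Cpt κ m

end Pool.Agent.Lib.MP_ccf8bc_lc.BC
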