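import Mathlib
import Pool.Agent.Lib.MP_ccf8bc_lc.BC.Stmts

/-!
Stretching a coherent family of homogeneous tuples over a small substructure.
-/

namespace Pool.Agent.Lib.MP_ccf8bc_lc.BC

open FirstOrder FirstOrder.Language FirstOrder.Language.Structure Cardinal Dat

universe u

section

variable {L : FirstOrder.Language.{u, u}}

theorem EM_symm {W A B : Type u} [L.Structure A] [L.Structure B] {a : W → A} {b : W → B}
    (h : SameDiag L a b) : SameDiag L b a :=
  ⟨fun t t' => (h.1 t t').symm, fun n r ts => (h.2 n r ts).symm⟩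

theorem EM_trans {W A B D : Type u} [L.Structure A] [L.Structure B] [L.Structure D] {a : W → A}
    {b : W → B} {d : W → D} (h : SameDiag L a b) (h' : SameDiag L b d) : SameDiag L a d :=
  ⟨fun t t' => (h.1 t t').trans (h'.1 t t'), fun n r ts => (h.2 n r ts).trans (h'.2 n r ts)⟩

theorem EM_comp {W W' A B : Type u} [L.Structure A] [L.Structure B] {a : W → A} {b : W → B}
    (h : SameDiag L a b) (g : W' → W) : SameDiag L (a ∘ g) (b ∘ g) := by
  refine ⟨fun t t' => ?_, fun n r ts => ?_⟩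
  · simpa only [Term.realize_relabel] using h.1 (t.relabel g) (t'.relabel g)
  · simpa only [Term.realize_relabel] using h.2 n r fun i => (ts i).relabel g

/-- The type of atomic diagrams with variables in `W`. -/
def EM_Diag (L : FirstOrder.Language.{u, u}) (W : Type u) : Type u :=
  Set (L.Term W × L.Term W) × Set (Σ n, L.Relations n × (Fin n → L.Term W))

/-- The atomic diagram of a family. -/
def EM_diag (L : FirstOrder.Language.{u, u}) {W M : Type u} [L.Structure M] (a : W → M) :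
    EM_Diag L W :=
  ({p | p.1.realize a = p.2.realize a}, {q | RelMap q.2.1 fun i => (q.2.2 i).realize a})

theorem EM_same_of_eq {W M : Type u} [L.Structure M] {a b : W → M}
    (h : EM_diag L a = EM_diag L b) : SameDiag L a b := by
  have h1 := congrArg Prod.fst h
  have h2 := congrArg Prod.snd h
  exact ⟨fun t t' => Set.ext_iff.1 h1 (t, t'), fun n r ts => Set.ext_iff.1 h2 ⟨n, r, ts⟩⟩

theorem EM_card_term {κ : Cardinal.{u}} (hκ : ℵ₀ < κ) (hL : L.card < κ) {W : Type u}
    (hW : #W < κ) : #(L.Term W) < κ := by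
  refine Term.card_le.trans_lt (max_lt hκ ?_)
  have h : #(Σ i, L.Functions i) ≤ L.card :=
    mk_le_of_injective (f := (Sum.inl : _ → L.Symbols)) Sum.inl_injective
  rw [mk_sum, lift_id, lift_id]
  exact add_lt_of_lt hκ.le hW (h.trans_lt hL)

theorem EM_card_diag {κ : Cardinal.{u}} (hκ : κ.IsInaccessible) (hL : L.card < κ) {W : Type u}
    (hW : #W < κ) : #(EM_Diag L W) < κ := by
  have hT := EM_card_term hκ.aleph0_lt hL hW
  have h0 := hκ.aleph0_lt.le
  have h1 : #(L.Term W × L.Term W) < κ := by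
    rw [mk_prod, lift_id]
    exact mul_lt_of_lt h0 hT hT
  have hR : #(Σ i, L.Relations i) ≤ L.card :=
    mk_le_of_injective (f := (Sum.inr : _ → L.Symbols)) Sum.inr_injective
  have h2 : #(Σ n, L.Relations n × (Fin n → L.Term W)) < κ := by
    have hi : Function.Injective (fun q : (Σ n, L.Relations n × (Fin n → L.Term W)) =>
        ((⟨q.1, q.2.1⟩, List.ofFn q.2.2) : (Σ i, L.Relations i) × List (L.Term W))) := by
      rintro ⟨n, r, ts⟩ ⟨n', r', ts'⟩ h
      obtain ⟨ha, hb⟩ := Prod.mk.inj h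
      obtain ⟨rfl, hr⟩ := Sigma.mk.inj ha
      obtain rfl := eq_of_heq hr
      obtain rfl := List.ofFn_injective hb
      rfl
    refine (mk_le_of_injective hi).trans_lt ?_
    rw [mk_prod, lift_id, lift_id]
    exact mul_lt_of_lt h0 (hR.trans_lt hL)
      ((mk_list_le_max _).trans_lt (max_lt hκ.aleph0_lt hT))
  unfold EM_Diag
  rw [mk_prod, lift_id, lift_id, mk_set, mk_set]
  exact mul_lt_of_lt h0 (hκ.isStrongPrelimit h1) (hκ.isStrongPrelimit h2)

variable {M J : Type u} [L.Structure M] [LinearOrder J]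

/-- The interpretation of the variables at the stage `ω`. -/
noncomputable def EM_rho (A : L.Substructure M) (h : ∀ n, Fin n → M) (m0 : M) (ω : Finset J) :
    A ⊕ J → M :=
  Sum.elim Subtype.val fun j =>
    if hj : j ∈ ω then h ω.card ((ω.orderIsoOfFin rfl).symm ⟨j, hj⟩) else m0

/-- The position of the variables of `s`. -/
noncomputable def EM_pos {A : Type u} (s : Finset (A ⊕ J)) : s → A ⊕ Fin s.toRight.card
  | ⟨Sum.inl a, _⟩ => Sum.inl a
  | ⟨Sum.inr j, hj⟩ =>
    Sum.inr ((s.toRight.orderIsoOfFin rfl).symm ⟨j, Finset.mem_toRight.2 hj⟩)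

/-- The increasing map of positions given by an inclusion. -/
noncomputable def EM_emb {σ ω : Finset J} (hs : σ ⊆ ω) : Fin σ.card ↪o Fin ω.card :=
  OrderEmbedding.ofStrictMono
    (fun i => (ω.orderIsoOfFin rfl).symm ⟨σ.orderIsoOfFin rfl i, hs (σ.orderIsoOfFin rfl i).2⟩)
    fun i i' hi => by
      apply (ω.orderIsoOfFin rfl).symm.strictMono
      exact (σ.orderIsoOfFin rfl).strictMono hi

theorem EM_rho_eq (A : L.Substructure M) (h : ∀ n, Fin n → M) (m0 : M) (s : Finset (A ⊕ J))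
    {ω : Finset J} (hs : s.toRight ⊆ ω) :
    (fun v : s => EM_rho A h m0 ω v) =
      Sum.elim Subtype.val (h ω.card ∘ EM_emb hs) ∘ EM_pos s := by
  funext v
  obtain ⟨a | j, hv⟩ := v
  · rfl
  · have hj : j ∈ ω := hs (Finset.mem_toRight.2 hv)
    have e : (s.toRight.orderIsoOfFin rfl
        ((s.toRight.orderIsoOfFin rfl).symm ⟨j, Finset.mem_toRight.2 hv⟩) : J) = j := by
      rw [OrderIso.apply_symm_apply]
    change (if hj : j ∈ ω then h ω.card ((ω.orderIsoOfFin rfl).symm ⟨j, hj⟩) else m0) =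
      h ω.card ((ω.orderIsoOfFin rfl).symm ⟨_, _⟩)
    rw [dif_pos hj]
    exact congrArg (fun z => h ω.card ((ω.orderIsoOfFin rfl).symm z)) (Subtype.ext e.symm)

theorem EM_rho_inj (A : L.Substructure M) {h : ∀ n, Fin n → M} (hh : ∀ n, Function.Injective (h n))
    (m0 : M) {ω : Finset J} {j j' : J} (hj : j ∈ ω) (hj' : j' ∈ ω)
    (e : EM_rho A h m0 ω (Sum.inr j) = EM_rho A h m0 ω (Sum.inr j')) : j = j' := by
  simp only [EM_rho, Sum.elim_inr, hj, hj', dite_true] at e
  exact congrArg Subtype.val ((ω.orderIsoOfFin rfl).symm.injective (hh _ e))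

end

theorem em (h1 : StLimit.{u}) (h2 : StInacc.{u}) (h3 : StPart.{u}) {L : FirstOrder.Language.{u, u}}
    (C : Univ L) (M : Type u) [L.Structure M] (hM : C.Mem M) (hκ : WeaklyCompact #M)
    (hL : L.card < #M) (A : L.Substructure M) (hA : #A < #M) (ν : Cardinal.{u}) (hν : #M ≤ ν) :
    ∃ (P : Type u) (_ : L.Structure P), C.Mem P ∧ #P = ν ∧ Nonempty (A ↪[L] P) := by
  classical
  have hI := h2 _ hκ
  have hW : ∀ n : ℕ, #(A ⊕ Fin n) < #M := fun n => by
    rw [mk_sum, mk_fin, lift_natCast, lift_uzero]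
    exact add_lt_of_lt hI.aleph0_lt.le hA (hI.nat_lt n)
  obtain ⟨h, hinj, hc⟩ := h3 M hκ (fun n => EM_Diag L (A ⊕ Fin n))
    (fun n => EM_card_diag hI hL (hW n)) fun n v => EM_diag L (Sum.elim Subtype.val v)
  obtain ⟨m0⟩ : Nonempty M := mk_ne_zero_iff.1 hI.ne_zero
  have hstage : ∀ (s : Finset (A ⊕ ν.ord.ToType)) (ω : Finset ν.ord.ToType), s.toRight ⊆ ω →
      SameDiag L (fun v : s => EM_rho A h m0 ω v)
        (Sum.elim Subtype.val (h s.toRight.card) ∘ EM_pos s) := fun s ω hs => by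
    rw [EM_rho_eq A h m0 s hs]
    exact EM_comp (EM_same_of_eq (hc _ _ (EM_emb hs))) _
  obtain ⟨P, iP, π, hP, hcard, hπ⟩ := h1 L C (A ⊕ ν.ord.ToType) (Finset ν.ord.ToType) Filter.atTop
    (fun _ => M) (EM_rho A h m0) (fun _ => hM) fun s =>
      ⟨Set.Ici s.toRight, Filter.Ici_mem_atTop _, fun ω hω ω' hω' =>
        EM_trans (hstage s ω hω) (EM_symm (hstage s ω' hω'))⟩
  have key : ∀ s : Finset (A ⊕ ν.ord.ToType), ∃ ω : Finset ν.ord.ToType, s.toRight ⊆ ω ∧
      SameDiag L (fun v : s => π v) fun v : s => EM_rho A h m0 ω v := fun s => by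
    obtain ⟨B, hB, hBs⟩ := hπ s
    obtain ⟨ω, hω, hω'⟩ := Filter.nonempty_of_mem
      (Filter.inter_mem hB (Filter.Ici_mem_atTop s.toRight))
    exact ⟨ω, hω', hBs ω hω⟩
  have h0 : ℵ₀ ≤ ν := hI.aleph0_lt.le.trans hν
  refine ⟨P, iP, hP, le_antisymm (hcard.trans (max_le h0 ?_)) ?_, ⟨?_⟩⟩
  · rw [mk_sum, lift_id, lift_id, mk_ord_toType]
    exact add_le_of_le h0 (add_le_of_le h0 (hA.le.trans hν) le_rfl) (hL.le.trans hν)
  · have hi : Function.Injective fun j : ν.ord.ToType => π (Sum.inr j) := fun j j' e => by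
      obtain ⟨ω, hω, hd⟩ := key {Sum.inr j, Sum.inr j'}
      have := (hd.1 (Term.var ⟨Sum.inr j, by simp⟩) (Term.var ⟨Sum.inr j', by simp⟩)).1 e
      exact EM_rho_inj A hinj m0 (hω (by simp)) (hω (by simp)) this
    exact (mk_ord_toType ν).symm.le.trans (mk_le_of_injective hi)
  · refine
      { toFun := fun a => π (Sum.inl a)
        inj' := fun a a' e => ?_
        map_fun' := fun {n} f x => ?_
        map_rel' := fun {n} r x => ?_ }
    · obtain ⟨ω, -, hd⟩ := key {Sum.inl a, Sum.inl a'}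
      exact Subtype.ext
        ((hd.1 (Term.var ⟨Sum.inl a, by simp⟩) (Term.var ⟨Sum.inl a', by simp⟩)).1 e)
    · obtain ⟨ω, -, hd⟩ :=
        key (insert (Sum.inl (funMap f x)) (Finset.univ.image fun i => Sum.inl (x i)))
      exact (hd.1 (Term.var ⟨Sum.inl (funMap f x), by simp⟩)
        (Term.func f fun i => Term.var ⟨Sum.inl (x i), by simp⟩)).2 (A.subtype.map_fun f x)
    · obtain ⟨ω, -, hd⟩ := key (Finset.univ.image fun i => Sum.inl (x i))
      exact (hd.2 n r fun i => Term.var ⟨Sum.inl (x i), by simp⟩).trans (A.subtype.map_rel r x)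

end Pool.Agent.Lib.MP_ccf8bc_lc.BC
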