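import Mathlib
import Pool.Agent.Lib.MP_ccf8bc_lc.BC.Stmts

/-!
Adding a node and a wall.
-/

set_option maxHeartbeats 400000

namespace Pool.Agent.Lib.MP_ccf8bc_lc.BC

open FirstOrder FirstOrder.Language FirstOrder.Language.Structure Cardinal Dat Sum

universe u

variable {τ τ' : FirstOrder.Language.{u, u}} {Γ : Par τ τ'} {M N M' N' U : Type u}

section Pieces

open Classical in
/-- Functions on lists of old points. -/
noncomputable def Flag_bF (X : Dat τ τ' M) (a : M → M') (d : M') (s : FS τ τ') (l : List M') :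
    M' :=
  if h : ∃ l₀ : List M, l = l₀.map a then a (X.F s h.choose) else d

/-- Relations on lists of old points. -/
def Flag_bR (X : Dat τ τ' M) (a : M → M') (s : RS τ τ') (l : List M') : Prop :=
  ∃ l₀ : List M, l = l₀.map a ∧ X.R s l₀

open Classical in
/-- Functions carried by a flag. -/
noncomputable def Flag_tF [τ'.Structure U] (ι : U → M') (d : M') (n : ℕ) (f : τ'.Functions n)
    (l : List M') : M' :=
  if h : ∃ v : Fin n → U, l = List.ofFn (ι ∘ v) then ι (funMap f h.choose) else d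

/-- Relations carried by a flag. -/
def Flag_tR [τ'.Structure U] (ι : U → M') (n : ℕ) (q : τ'.Relations n) (l : List M') : Prop :=
  ∃ v : Fin n → U, l = List.ofFn (ι ∘ v) ∧ RelMap q v

variable {X : Dat τ τ' M} {Y : Dat τ τ' N} {a : M → M'} {i : N → N'} {g : M → N} {k : M' → N'}

theorem Flag_bF_map (ha : Function.Injective a) (d : M') (s : FS τ τ') (l : List M) :
    Flag_bF X a d s (l.map a) = a (X.F s l) := by
  have h : ∃ l₀ : List M, l.map a = l₀.map a := ⟨l, rfl⟩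
  exact (dif_pos h).trans (by rw [← List.map_injective_iff.2 ha h.choose_spec])

theorem Flag_bR_map (ha : Function.Injective a) (s : RS τ τ') (l : List M) :
    Flag_bR X a s (l.map a) ↔ X.R s l :=
  ⟨fun ⟨_, h1, h2⟩ => by rwa [List.map_injective_iff.2 ha h1], fun h => ⟨l, rfl, h⟩⟩

theorem Flag_lift {l : List M'} (h : ∀ z ∈ l, ∃ x, a x = z) : ∃ l₀ : List M, l = l₀.map a := by
  induction l with
  | nil => exact ⟨[], rfl⟩
  | cons z l ih =>
    obtain ⟨x, rfl⟩ := h z (by simp)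
    obtain ⟨l₀, rfl⟩ := ih fun z hz => h z (List.mem_cons_of_mem _ hz)
    exact ⟨x :: l₀, rfl⟩

theorem Flag_back (hb : ∀ z y, k z = i y → ∃ x, a x = z) {l : List M'} {l₁ : List N}
    (h : l.map k = l₁.map i) : ∃ l₀ : List M, l = l₀.map a := by
  refine Flag_lift fun z hz => ?_
  obtain ⟨y, -, hy⟩ := List.mem_map.1 (h ▸ List.mem_map_of_mem hz : k z ∈ l₁.map i)
  exact hb z y hy.symm

theorem Flag_mm (hc : ∀ x, k (a x) = i (g x)) (l : List M) :
    (l.map a).map k = (l.map g).map i := by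
  simp only [List.map_map]
  exact List.map_congr_left fun q _ => hc q

theorem Flag_bF_nat (e : Emb X Y g) (ha : Function.Injective a) (hi : Function.Injective i)
    (hc : ∀ x, k (a x) = i (g x)) (hb : ∀ z y, k z = i y → ∃ x, a x = z) (d : M') (s : FS τ τ')
    (l : List M') : Flag_bF Y i (k d) s (l.map k) = k (Flag_bF X a d s l) := by
  by_cases h : ∃ l₀ : List M, l = l₀.map a
  · obtain ⟨l₀, rfl⟩ := h
    rw [Flag_mm hc, Flag_bF_map hi, Flag_bF_map ha, e.F, hc]
  · rw [Flag_bF, Flag_bF, dif_neg h, dif_neg fun ⟨_, h1⟩ => h (Flag_back hb h1)]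

theorem Flag_bR_nat (e : Emb X Y g) (ha : Function.Injective a) (hi : Function.Injective i)
    (hc : ∀ x, k (a x) = i (g x)) (hb : ∀ z y, k z = i y → ∃ x, a x = z) (s : RS τ τ')
    (l : List M') : Flag_bR Y i s (l.map k) ↔ Flag_bR X a s l := by
  by_cases h : ∃ l₀ : List M, l = l₀.map a
  · obtain ⟨l₀, rfl⟩ := h
    rw [Flag_mm hc, Flag_bR_map hi, Flag_bR_map ha, e.R]
  · exact iff_of_false (fun ⟨_, h1, _⟩ => h (Flag_back hb h1)) fun ⟨l₀, h1, _⟩ => h ⟨l₀, h1⟩

variable [τ'.Structure U] {ι : U → M'}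

theorem Flag_ofFn (hι : Function.Injective ι) {n : ℕ} {v w : Fin n → U}
    (h : List.ofFn (ι ∘ v) = List.ofFn (ι ∘ w)) : v = w :=
  funext fun j => hι (congrFun (List.ofFn_injective h) j)

theorem Flag_tF_map (hι : Function.Injective ι) (d : M') (n : ℕ) (f : τ'.Functions n)
    (v : Fin n → U) : Flag_tF ι d n f (List.ofFn (ι ∘ v)) = ι (funMap f v) := by
  have h : ∃ w : Fin n → U, List.ofFn (ι ∘ v) = List.ofFn (ι ∘ w) := ⟨v, rfl⟩
  exact (dif_pos h).trans (by rw [← Flag_ofFn hι h.choose_spec])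

theorem Flag_tR_map (hι : Function.Injective ι) (n : ℕ) (q : τ'.Relations n)
    (v : Fin n → U) : Flag_tR ι n q (List.ofFn (ι ∘ v)) ↔ RelMap q v :=
  ⟨fun ⟨_, h1, h2⟩ => by rwa [Flag_ofFn hι h1], fun h => ⟨v, rfl, h⟩⟩

theorem Flag_of (k : M' → N') {n : ℕ} (v : Fin n → U) :
    (List.ofFn (ι ∘ v)).map k = List.ofFn ((k ∘ ι) ∘ v) := List.map_ofFn

theorem Flag_tF_nat (hι : Function.Injective ι) (hk : Function.Injective k) (d : M') (n : ℕ)
    (f : τ'.Functions n) (l : List M') :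
    Flag_tF (k ∘ ι) (k d) n f (l.map k) = k (Flag_tF ι d n f l) := by
  by_cases h : ∃ v : Fin n → U, l = List.ofFn (ι ∘ v)
  · obtain ⟨v, rfl⟩ := h
    rw [Flag_of, Flag_tF_map (hk.comp hι), Flag_tF_map hι]
    rfl
  · rw [Flag_tF, Flag_tF, dif_neg h, dif_neg fun ⟨v, h1⟩ =>
      h ⟨v, List.map_injective_iff.2 hk (h1.trans (Flag_of k v).symm)⟩]

theorem Flag_tR_nat (hk : Function.Injective k) (n : ℕ) (q : τ'.Relations n) (l : List M') :
    Flag_tR (k ∘ ι) n q (l.map k) ↔ Flag_tR ι n q l :=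
  ⟨fun ⟨v, h1, h2⟩ => ⟨v, List.map_injective_iff.2 hk (h1.trans (Flag_of k v).symm), h2⟩,
    fun ⟨v, h1, h2⟩ => ⟨v, h1 ▸ Flag_of k v, h2⟩⟩

/-- A flag that carries a solution is valid. -/
theorem Flag_v1 [τ.Structure U] (hE : Γ.φ.IsExpansionOn U) (hU : Γ.C₁.Mem U)
    {S : τ.Substructure X.Base} (h : S ↪[τ] U) {Z : Dat τ τ' M'} (e : Emb X Z a) {t : M'}
    (hι : Function.Injective ι)
    (hF : ∀ n f (v : Fin n → U), Z.F (.tf n f) (t :: List.ofFn (ι ∘ v)) = ι (funMap f v))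
    (hR : ∀ n q (v : Fin n → U), Z.R (.tr n q) (t :: List.ofFn (ι ∘ v)) ↔ RelMap q v)
    (hh : ∀ x : S, ι (h x) = a x.1) (hD : ∀ x, Z.r2 .D (a x) t) {l : List M'}
    (hl : ∀ z ∈ Z.dom l t, ∃ x : S, a x.1 = z) : Z.V1 Γ.φ Γ.C₁ l t := by
  let j : U ↪[τ'] Z.At t :=
    { toFun := ι
      inj' := hι
      map_fun' := fun {n} f v => (hF n f v).symm
      map_rel' := fun {n} q v => hR n q v }
  have key : ∀ {n} (v : Fin n → M'), (∀ i, v i ∈ Z.dom l t) → ∃ w : Fin n → S,
      v = ι ∘ (h ∘ w) ∧ List.ofFn v = (List.ofFn fun i => (w i).1 : List M).map a := fun v hv => by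
    choose w hw using fun i => hl _ (hv i)
    refine ⟨w, funext fun i => (hw i).symm.trans (hh _).symm, ?_⟩
    exact (congrArg List.ofFn (funext fun i => (hw i).symm)).trans
      (List.map_ofFn (f := fun i => ((w i).1 : M)) (g := a)).symm
  refine fun _ => ⟨fun z hz b => ?_, ⟨fun n f v hv => ?_, fun n q v hv => ?_⟩, ?_⟩
  · obtain ⟨x, rfl⟩ := hl z hz
    exact (congrArg (fun z => Z.r2 .D z t) (e.f2 (.p b) x.1 x.1)).mpr (hD _)
  · obtain ⟨w, h1, h2⟩ := key v hv
    have h3 := hF n (Γ.φ.onFunction f) (h ∘ w)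
    rw [← h1, hE.map_onFunction, ← h.map_fun, hh] at h3
    rw [h3, h2, e.F]
    rfl
  · obtain ⟨w, h1, h2⟩ := key v hv
    have h3 := hR n (Γ.φ.onRelation q) (h ∘ w)
    rw [← h1, hE.map_onRelation, h.map_rel] at h3
    rw [h3, h2, e.R]
    rfl
  · have h1 : Z.dom l t = ι '' (ι ⁻¹' Z.dom l t) := by
      refine (Set.image_preimage_eq_of_subset fun z hz => ?_).symm
      obtain ⟨x, rfl⟩ := hl z hz
      exact ⟨_, hh x⟩
    rw [h1]
    exact (Γ.C₁.closure_image j _).2 (Γ.C₁.of_emb (Substructure.subtype _) hU)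

end Pieces

/-- The ordinary points form a substructure of the base. -/
def Flag_sub (X : Dat τ τ' M) (hK : ∀ l, Q Γ X l) : τ.Substructure X.Base where
  carrier := {x : M | ¬ X.r2 .Sp x x}
  fun_mem {n} f v hv := by
    refine (hK (List.ofFn (v : Fin n → M))).k0.2.2.2.2 _ ((X.clB _).fun_mem f v fun i => ?_)
    exact Substructure.subset_closure ⟨List.mem_ofFn.2 ⟨i, rfl⟩, hv i⟩

theorem Flag_sub_mem (X : Dat τ τ' M) (hK : ∀ l, Q Γ X l) : Γ.C₀.Mem (Flag_sub X hK) := by
  refine Γ.C₀.of_fg _ fun s => (Γ.C₀.closure_image (Substructure.subtype _) _).1 ?_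
  refine Γ.C₀.mono (Substructure.closure_mono ?_)
    (hK (s.toList.map fun x => (x.1 : M))).k0.2.2.2.1
  rintro _ ⟨x, hx, rfl⟩
  exact ⟨List.mem_map.2 ⟨x, Finset.mem_toList.2 hx, rfl⟩, x.2⟩

theorem Flag_sub_card [Infinite M] (X : Dat τ τ' M) (hK : ∀ l, Q Γ X l) :
    #(Flag_sub X hK) = #M := by
  have h1 : {x : M | X.r2 .Sp x x}.Subsingleton := fun x hx y hy =>
    (hK [x, y]).k0.2.2.1 x (by simp) y (by simp) hx hy
  exact Cardinal.mk_compl_of_infinite {x : M | X.r2 .Sp x x}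
    (h1.finite.lt_aleph0.trans_le (Cardinal.aleph0_le_mk M))

section X

/-- Binary values in the first extension. -/
def Flag_XF (X : Dat τ τ' M) (s : FS τ τ') : Option (M ⊕ U) → Option (M ⊕ U) → Option (M ⊕ U)
  | some (inl x), some (inl y) => some (inl (X.f2 s x y))
  | _, _ => none

/-- Nodes of the first extension. -/
def Flag_XT (X : Dat τ τ' M) : Option (M ⊕ U) → Option (M ⊕ U) → Prop
  | some (inl x), some (inl y) => X.r2 .T x y
  | none, none => True
  | _, _ => False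

/-- Domains in the first extension. -/
def Flag_XD (X : Dat τ τ' M) : Option (M ⊕ U) → Option (M ⊕ U) → Prop
  | some (inl x), some (inl y) => X.r2 .D x y
  | some (inl _), none => True
  | _, _ => False

/-- Sides in the first extension. -/
def Flag_XS (X : Dat τ τ' M) : Option (M ⊕ U) → Option (M ⊕ U) → Prop
  | some (inl x), some (inl y) => X.r2 .S x y
  | some (inr _), some (inr _) => True
  | _, _ => False

/-- The old points of the first extension. -/
def Flag_a (U : Type u) (x : M) : Option (M ⊕ U) := some (inl x)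

theorem Flag_a_inj : Function.Injective (Flag_a U : M → _) :=
  fun _ _ h => inl_injective (Option.some_injective _ h)

variable [τ'.Structure U]

/-- One more node, that carries the structure of `U`. -/
noncomputable def Flag_X (X : Dat τ τ' M) (ι : U → Option (M ⊕ U)) : Dat τ τ' (Option (M ⊕ U)) where
  F s l := match s with
    | .tf n f => (match l with
      | none :: l' => Flag_tF ι none n f l'
      | l => Flag_bF X (Flag_a U) none (.tf n f) l)
    | .l k => (match l with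
      | [z, z'] => Flag_XF X (.l k) z z'
      | l => Flag_bF X (Flag_a U) none (.l k) l)
    | .en b => (match l with
      | [z, z'] => Flag_XF X (.en b) z z'
      | l => Flag_bF X (Flag_a U) none (.en b) l)
    | s => Flag_bF X (Flag_a U) none s l
  R s l := match s with
    | .tr n q => (match l with
      | none :: l' => Flag_tR ι n q l'
      | l => Flag_bR X (Flag_a U) (.tr n q) l)
    | .T => (match l with
      | [z, z'] => Flag_XT X z z'
      | l => Flag_bR X (Flag_a U) .T l)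
    | .D => (match l with
      | [z, z'] => Flag_XD X z z'
      | l => Flag_bR X (Flag_a U) .D l)
    | .S => (match l with
      | [z, z'] => Flag_XS X z z'
      | l => Flag_bR X (Flag_a U) .S l)
    | s => Flag_bR X (Flag_a U) s l

variable {X : Dat τ τ' M} {ι : U → Option (M ⊕ U)}

theorem Flag_embX : Emb X (Flag_X X ι) (Flag_a U) := by
  refine ⟨Flag_a_inj, fun s l => ?_, fun s l => ?_⟩
  · have h := Flag_bF_map (X := X) (Flag_a_inj (U := U)) none s l
    cases s <;> rcases l with _ | ⟨x, _ | ⟨y, _ | ⟨w, l⟩⟩⟩ <;> first | exact h | rfl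
  · have h := Flag_bR_map (X := X) (Flag_a_inj (U := U)) s l
    cases s <;> rcases l with _ | ⟨x, _ | ⟨y, _ | ⟨w, l⟩⟩⟩ <;> first | exact h | exact Iff.rfl

theorem Flag_nodeX (hK : ∀ l, Q Γ X l) {z : Option (M ⊕ U)} (h : (Flag_X X ι).r2 .T z z) :
    z = none := by
  rcases z with _ | x | x
  · rfl
  · exact absurd h ((hK [x]).k0.1 x (by simp))
  · exact h.elim

theorem Flag_memX (hK : ∀ l, Q Γ X l) : Mem Γ (Flag_X X ι) := by
  have ns : ∀ σ ρ e, (Flag_X X ι).r2 .T σ σ → (Flag_X X ι).r2 .T ρ ρ →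
      ¬ (Flag_X X ι).Sep e σ ρ := fun σ ρ e a b c => by
    rw [Flag_nodeX hK a, Flag_nodeX hK b] at c
    exact c Iff.rfl
  refine ⟨Tree.intro (fun σ ρ e a b c => absurd c (ns σ ρ e a b))
    (fun σ ρ e _ a b c => absurd c (ns σ ρ e a b)) (fun σ ρ e _ a b c => absurd c (ns σ ρ e a b))
    (fun σ ρ e _ _ a b c => absurd c (ns σ ρ e a b)) fun σ ρ a b => ?_, Or.inl ⟨none, trivial⟩⟩
  exact Set.finite_empty.subset fun e c => ns σ ρ e a b c

theorem Flag_strX (hX : Mem Γ X) (hK : ∀ l, Q Γ X l)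
    (h1 : ∀ l : List M, (Flag_X X ι).V1 Γ.φ Γ.C₁ (l.map (Flag_a U)) none) :
    Str Γ X (Flag_X X ι) (Flag_a U) := by
  refine ⟨Flag_embX, hX, Flag_memX hK, fun l h => Q.intro ((k0_map Flag_embX _ l).2 h.k0)
    (fun t => ?_) ?_ ?_ ?_⟩
  · rcases t with _ | t | t
    · exact h1 l
    · exact (v1_map Flag_embX _ _ l t).2 (h.v1 t)
    · rintro ⟨z, h2, -, h3⟩
      obtain ⟨x, -, rfl⟩ := List.mem_map.1 h2
      exact h3.elim
  · simp only [List.forall_mem_map]
    intro x _ y _ t a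
    rw [Flag_nodeX hK a]
    exact Or.inl ⟨0, trivial⟩
  · simp only [List.forall_mem_map]
    intro x _ σ ρ a b
    rw [Flag_nodeX hK a, Flag_nodeX hK b]
    exact Or.inr fun k => Or.inl ⟨k, rfl⟩
  · simp only [List.forall_mem_map]
    intro x hx p
    rcases p with _ | p | p
    exacts [id, h.ns hx p, id]

theorem Flag_goodX {l : List (Option (M ⊕ U))} (h : Q Γ (Flag_X X ι) l) :
    ∃ l₀ : List M, l = l₀.map (Flag_a U) := by
  refine Flag_lift fun z hz => ?_
  rcases z with _ | x | x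
  · exact (h.k0.1 _ hz trivial).elim
  · exact ⟨x, rfl⟩
  · exact (h.ns hz (some (inr x)) trivial).elim

end X

section Y

/-- The list that starts with the wall. -/
def Flag_c (U : Type u) (f : ℕ → N) : ℕ → (N ⊕ U) ⊕ Bool
  | 0 => inr false
  | k + 1 => inl (inl (f k))

open Classical in
/-- The lists of the nodes in the second extension. -/
noncomputable def Flag_YL (Y : Dat τ τ' N) (P : N → Prop) (r : N) (k : ℕ) :
    (N ⊕ U) ⊕ Bool → (N ⊕ U) ⊕ Bool → (N ⊕ U) ⊕ Bool
  | inl (inl x), inl (inl y) => inl (inl (Y.f2 (.l k) x y))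
  | inr true, inl (inl y) => if P y then inr true else Flag_c U (fun j => Y.f2 (.l j) r y) k
  | inl (inl x), inr true =>
    if Y.r2 .T x x then Flag_c U (fun j => Y.f2 (.l j) x r) k else inr true
  | _, _ => inr true

/-- The end points in the second extension. -/
def Flag_YE (Y : Dat τ τ' N) (r : N) (b : Bool) :
    (N ⊕ U) ⊕ Bool → (N ⊕ U) ⊕ Bool → (N ⊕ U) ⊕ Bool
  | inl (inl x), inl (inl y) => inl (inl (Y.f2 (.en b) x y))
  | inr false, inr false => if b = true then inr true else inl (inl r)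
  | _, _ => inr true

/-- Nodes of the second extension. -/
def Flag_YT (Y : Dat τ τ' N) : (N ⊕ U) ⊕ Bool → (N ⊕ U) ⊕ Bool → Prop
  | inl (inl x), inl (inl y) => Y.r2 .T x y
  | inr true, inr true => True
  | _, _ => False

/-- Domains in the second extension. -/
def Flag_YD (Y : Dat τ τ' N) (P : N → Prop) : (N ⊕ U) ⊕ Bool → (N ⊕ U) ⊕ Bool → Prop
  | inl (inl x), inl (inl y) => Y.r2 .D x y
  | inl (inl x), inr _ => P x
  | _, _ => False

/-- Sides in the second extension. -/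
def Flag_YS (Y : Dat τ τ' N) (r : N) : (N ⊕ U) ⊕ Bool → (N ⊕ U) ⊕ Bool → Prop
  | inl (inl x), inl (inl y) => Y.r2 .S x y
  | inl (inl x), inr true => Y.r2 .S x r
  | inr false, inr true => True
  | inl (inr _), inl (inr _) => True
  | _, _ => False

/-- The old points of the second extension. -/
def Flag_i (U : Type u) (y : N) : (N ⊕ U) ⊕ Bool := inl (inl y)

theorem Flag_i_inj : Function.Injective (Flag_i U : N → _) :=
  fun _ _ h => inl_injective (inl_injective h)

/-- The projection of the nodes. -/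
def Flag_pr (r : N) : (N ⊕ U) ⊕ Bool → N
  | inl (inl s) => s
  | _ => r

variable [τ'.Structure U]

/-- A node and a wall, both carry the structure of `U`. -/
noncomputable def Flag_Y (Y : Dat τ τ' N) (P : N → Prop) (r : N) (ι : U → (N ⊕ U) ⊕ Bool) :
    Dat τ τ' ((N ⊕ U) ⊕ Bool) where
  F s l := match s with
    | .tf n f => (match l with
      | inr _ :: l' => Flag_tF ι (inr true) n f l'
      | l => Flag_bF Y (Flag_i U) (inr true) (.tf n f) l)
    | .l k => (match l with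
      | [z, z'] => Flag_YL Y P r k z z'
      | l => Flag_bF Y (Flag_i U) (inr true) (.l k) l)
    | .en b => (match l with
      | [z, z'] => Flag_YE Y r b z z'
      | l => Flag_bF Y (Flag_i U) (inr true) (.en b) l)
    | s => Flag_bF Y (Flag_i U) (inr true) s l
  R s l := match s with
    | .tr n q => (match l with
      | inr _ :: l' => Flag_tR ι n q l'
      | l => Flag_bR Y (Flag_i U) (.tr n q) l)
    | .T => (match l with
      | [z, z'] => Flag_YT Y z z'
      | l => Flag_bR Y (Flag_i U) .T l)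
    | .D => (match l with
      | [z, z'] => Flag_YD Y P z z'
      | l => Flag_bR Y (Flag_i U) .D l)
    | .S => (match l with
      | [z, z'] => Flag_YS Y r z z'
      | l => Flag_bR Y (Flag_i U) .S l)
    | s => Flag_bR Y (Flag_i U) s l

variable {Y : Dat τ τ' N} {P : N → Prop} {r : N} {ι : U → (N ⊕ U) ⊕ Bool}

theorem Flag_embY : Emb Y (Flag_Y Y P r ι) (Flag_i U) := by
  refine ⟨Flag_i_inj, fun s l => ?_, fun s l => ?_⟩
  · have h := Flag_bF_map (X := Y) (Flag_i_inj (U := U)) (inr true) s l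
    cases s <;> rcases l with _ | ⟨x, _ | ⟨y, _ | ⟨w, l⟩⟩⟩ <;> first | exact h | rfl
  · have h := Flag_bR_map (X := Y) (Flag_i_inj (U := U)) s l
    cases s <;> rcases l with _ | ⟨x, _ | ⟨y, _ | ⟨w, l⟩⟩⟩ <;> first | exact h | exact Iff.rfl

theorem Flag_nodeY {z : (N ⊕ U) ⊕ Bool} (h : (Flag_Y Y P r ι).r2 .T z z) :
    z = inr true ∨ ∃ s, Y.r2 .T s s ∧ z = inl (inl s) := by
  rcases z with (s | s) | _ | _
  · exact Or.inr ⟨s, h, rfl⟩
  · exact h.elim
  · exact h.elim
  · exact Or.inl rfl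

theorem Flag_l1 {y : N} (h : ¬ P y) (k : ℕ) :
    (Flag_Y Y P r ι).f2 (.l k) (inr true) (inl (inl y)) =
      Flag_c U (fun j => Y.f2 (.l j) r y) k := if_neg h

theorem Flag_l2 {y : N} (h : P y) (k : ℕ) :
    (Flag_Y Y P r ι).f2 (.l k) (inr true) (inl (inl y)) = inr true := if_pos h

theorem Flag_l3 {x : N} (h : Y.r2 .T x x) (k : ℕ) :
    (Flag_Y Y P r ι).f2 (.l k) (inl (inl x)) (inr true) =
      Flag_c U (fun j => Y.f2 (.l j) x r) k := if_pos h

theorem Flag_l4 {x : N} (h : ¬ Y.r2 .T x x) (k : ℕ) :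
    (Flag_Y Y P r ι).f2 (.l k) (inl (inl x)) (inr true) = inr true := if_neg h

theorem Flag_prT (hr : Y.r2 .T r r) {z : (N ⊕ U) ⊕ Bool} (h : (Flag_Y Y P r ι).r2 .T z z) :
    Y.r2 .T (Flag_pr r z) (Flag_pr r z) := by
  rcases Flag_nodeY h with rfl | ⟨s, hs, rfl⟩
  exacts [hr, hs]

theorem Flag_S {z : (N ⊕ U) ⊕ Bool} (h : (Flag_Y Y P r ι).r2 .T z z) (a : N) :
    (Flag_Y Y P r ι).r2 .S (inl (inl a)) z ↔ Y.r2 .S a (Flag_pr r z) := by
  rcases Flag_nodeY h with rfl | ⟨s, -, rfl⟩ <;> exact Iff.rfl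

theorem Flag_Su {z : (N ⊕ U) ⊕ Bool} (h : (Flag_Y Y P r ι).r2 .T z z) (a : U) :
    ¬ (Flag_Y Y P r ι).r2 .S (inl (inr a)) z := by
  rcases Flag_nodeY h with rfl | ⟨s, -, rfl⟩ <;> exact id

theorem Flag_Se (z : (N ⊕ U) ⊕ Bool) : (Flag_Y Y P r ι).r2 .S (inr false) z ↔ z = inr true := by
  rcases z with (s | s) | _ | _
  · exact iff_of_false id (by simp)
  · exact iff_of_false id (by simp)
  · exact iff_of_false id (by simp)
  · exact iff_of_true trivial rfl

theorem Flag_Sr (z : (N ⊕ U) ⊕ Bool) : ¬ (Flag_Y Y P r ι).r2 .S (inr true) z := by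
  rcases z with (s | s) | _ | _ <;> exact id

theorem Flag_sep {z z' : (N ⊕ U) ⊕ Bool} (h : (Flag_Y Y P r ι).r2 .T z z)
    (h' : (Flag_Y Y P r ι).r2 .T z' z') (a : N) :
    (Flag_Y Y P r ι).Sep (inl (inl a)) z z' ↔ Y.Sep a (Flag_pr r z) (Flag_pr r z') := by
  rw [Dat.Sep, Dat.Sep, Flag_S h, Flag_S h']

theorem Flag_sepu {z z' : (N ⊕ U) ⊕ Bool} (h : (Flag_Y Y P r ι).r2 .T z z)
    (h' : (Flag_Y Y P r ι).r2 .T z' z') (a : U) : ¬ (Flag_Y Y P r ι).Sep (inl (inr a)) z z' :=
  fun c => c (iff_of_false (Flag_Su h a) (Flag_Su h' a))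

theorem Flag_sepr (z z' : (N ⊕ U) ⊕ Bool) : ¬ (Flag_Y Y P r ι).Sep (inr true) z z' :=
  fun h => h (iff_of_false (Flag_Sr z) (Flag_Sr z'))

theorem Flag_sepe (z z' : (N ⊕ U) ⊕ Bool) :
    (Flag_Y Y P r ι).Sep (inr false) z z' ↔ ¬ (z = inr true ↔ z' = inr true) := by
  rw [Dat.Sep, Flag_Se, Flag_Se]

theorem Flag_en (b : Bool) : (Flag_Y Y P r ι).f2 (.en b) (inr false) (inr false) =
    if b = true then inr true else inl (inl r) := rfl

theorem Flag_tree (hY : Y.Tree) (hr : Y.r2 .T r r) (hP : ∀ s, Y.r2 .T s s → ¬ P s) :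
    (Flag_Y Y P r ι).Tree := by
  have enT : ∀ σ ρ e t, (Flag_Y Y P r ι).r2 .T σ σ → (Flag_Y Y P r ι).r2 .T ρ ρ →
      (Flag_Y Y P r ι).Sep e σ ρ → (Flag_Y Y P r ι).r2 .T ((Flag_Y Y P r ι).f2 (.en t) e e)
        ((Flag_Y Y P r ι).f2 (.en t) e e) := fun σ ρ e t a b c => by
    rcases e with (e | e) | _ | _
    · exact hY.enT (Flag_prT hr a) (Flag_prT hr b) ((Flag_sep a b e).1 c) t
    · exact absurd c (Flag_sepu a b e)
    · cases t
      exacts [hr, trivial]
    · exact absurd c (Flag_sepr _ _)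
  refine Tree.intro (fun σ ρ e a b c => ?_) enT (fun σ ρ e t a b c => ?_)
    (fun σ ρ e e' t a b c d => ?_) fun σ ρ a b => ?_
  · rcases e with (e | e) | _ | _
    · obtain ⟨k, hk⟩ := hY.mem (Flag_prT hr a) (Flag_prT hr b) ((Flag_sep a b e).1 c)
      rcases Flag_nodeY a with rfl | ⟨s, hs, rfl⟩ <;> rcases Flag_nodeY b with rfl | ⟨s', hs', rfl⟩
      · exact absurd Iff.rfl c
      · exact ⟨k + 1, (Flag_l1 (hP s' hs') _).trans (congrArg (Flag_i U) hk)⟩
      · exact ⟨k + 1, (Flag_l3 hs _).trans (congrArg (Flag_i U) hk)⟩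
      · exact ⟨k, congrArg (Flag_i U) hk⟩
    · exact absurd c (Flag_sepu a b e)
    · rw [Flag_sepe] at c
      rcases Flag_nodeY a with rfl | ⟨s, hs, rfl⟩ <;> rcases Flag_nodeY b with rfl | ⟨s', hs', rfl⟩
      · exact absurd Iff.rfl c
      · exact ⟨0, Flag_l1 (hP s' hs') _⟩
      · exact ⟨0, Flag_l3 hs _⟩
      · exact absurd (by simp) c
    · exact absurd c (Flag_sepr _ _)
  · rcases e with (e | e) | _ | _
    · exact hY.enS (Flag_prT hr a) (Flag_prT hr b) ((Flag_sep a b e).1 c) t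
    · exact absurd c (Flag_sepu a b e)
    · rw [Flag_Se, Flag_en]
      cases t <;> simp
    · exact absurd c (Flag_sepr _ _)
  · rcases e' with (e' | e') | _ | _
    · rw [Flag_sep a b] at d
      rw [Flag_S a]
      rcases e with (e | e) | _ | _
      · exact hY.inter (Flag_prT hr a) (Flag_prT hr b) ((Flag_sep a b e).1 c) d t
      · exact absurd c (Flag_sepu a b e)
      · have h1 : (Flag_Y Y P r ι).r2 .S (inl (inl e'))
            ((Flag_Y Y P r ι).f2 (.en t) (inr false) (inr false)) ↔ Y.r2 .S e' r := by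
          cases t <;> exact Iff.rfl
        rw [h1]
        rw [Flag_sepe] at c
        by_cases h2 : σ = inr true
        · rw [h2]; exact Iff.rfl
        · obtain rfl : ρ = inr true := by_contra fun h3 => c (iff_of_false h2 h3)
          exact (not_not.1 d).symm
      · exact absurd c (Flag_sepr _ _)
    · exact iff_of_false (Flag_Su (enT σ ρ e t a b c) e') (Flag_Su a e')
    · rcases e with (e | e) | _ | _
      · rw [Flag_sepe, not_not] at d
        rw [Flag_Se, Flag_Se]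
        refine iff_of_false (inl_ne_inr) fun h2 => ?_
        rw [h2, d.1 h2] at c
        exact c Iff.rfl
      · exact absurd c (Flag_sepu a b e)
      · exact absurd c d
      · exact absurd c (Flag_sepr _ _)
    · exact iff_of_false (Flag_Sr _) (Flag_Sr _)
  · refine (((hY.fin (Flag_prT hr a) (Flag_prT hr b)).image (Flag_i U)).insert
      (inr false)).subset ?_
    rintro ((e | e) | _ | _) c
    · exact Or.inr ⟨e, (Flag_sep a b e).1 c, rfl⟩
    · exact absurd c (Flag_sepu a b e)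
    · exact Or.inl rfl
    · exact absurd c (Flag_sepr _ _)

theorem Flag_v2 (hr : Y.r2 .T r r) {x y : N} (h : ∀ t, Y.V2 x y t) (t : (N ⊕ U) ⊕ Bool) :
    (Flag_Y Y P r ι).V2 (inl (inl x)) (inl (inl y)) t := by
  intro a
  have l0 : ∀ x y, P x → (Flag_Y Y P r ι).r2 .D (inl (inl x))
      ((Flag_Y Y P r ι).f2 (.l 0) (inr true) (inl (inl y))) := fun x y hx => by
    by_cases hy : P y
    · rw [Flag_l2 hy]; exact hx
    · rw [Flag_l1 hy]; exact hx
  rcases Flag_nodeY a with rfl | ⟨s, hs, rfl⟩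
  · by_cases hx : P x
    · exact Or.inl ⟨0, l0 x y hx⟩
    by_cases hy : P y
    · exact Or.inr ⟨0, l0 y x hy⟩
    rcases h r hr with ⟨k, hk⟩ | ⟨k, hk⟩
    · exact Or.inl ⟨k + 1, by rw [Flag_l1 hy]; exact hk⟩
    · exact Or.inr ⟨k + 1, by rw [Flag_l1 hx]; exact hk⟩
  · exact (v2_map Flag_embY x y s).2 (h s) a

theorem Flag_v3 (hY : Y.Tree) (hr : Y.r2 .T r r) (hP : ∀ s, Y.r2 .T s s → ¬ P s) {x : N}
    (h : ∀ σ ρ, Y.V3 x σ ρ) (σ ρ : (N ⊕ U) ⊕ Bool) : (Flag_Y Y P r ι).V3 (inl (inl x)) σ ρ := by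
  have hT : (Flag_Y Y P r ι).Tree := Flag_tree hY hr hP
  refine (hT.v3_iff _ _ _).2 fun a b => ?_
  rcases Flag_nodeY a with rfl | ⟨s, hs, rfl⟩ <;> rcases Flag_nodeY b with rfl | ⟨s', hs', rfl⟩
  · exact Or.inr fun k => Or.inl ⟨k, rfl⟩
  · by_cases hx : P x
    · exact Or.inl ⟨inr false, (Flag_sepe _ _).2 (by simp), hx⟩
    rcases (hY.v3_iff _ _ _).1 (h r s') hr hs' with ⟨e, e1, e2⟩ | e
    · exact Or.inl ⟨inl (inl e), (Flag_sep a b e).2 e1, e2⟩
    · refine Or.inr fun k => (e k).imp (fun ⟨k', hk⟩ => ⟨k' + 1, ?_⟩) fun c => (Flag_sep a b _).2 c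
      exact (Flag_l1 hx _).trans (congrArg (Flag_i U) hk)
  · by_cases hx : P x
    · exact Or.inl ⟨inr false, (Flag_sepe _ _).2 (by simp), hx⟩
    rcases (hY.v3_iff _ _ _).1 (h s r) hs hr with ⟨e, e1, e2⟩ | e
    · exact Or.inl ⟨inl (inl e), (Flag_sep a b e).2 e1, e2⟩
    · refine Or.inr fun k => ?_
      rw [Flag_l1 hx]
      cases k with
      | zero => exact Or.inr ((Flag_sepe _ _).2 (by simp))
      | succ k =>
        exact (e k).imp (fun ⟨k', hk⟩ => ⟨k', congrArg (Flag_i U) hk⟩)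
          fun c => (Flag_sep a b _).2 c
  · exact (hT.v3_iff _ _ _).1 ((v3_map Flag_embY x s s').2 (h s s')) a b

theorem Flag_strY (hY : Mem Γ Y) (hr : Y.r2 .T r r) (hP : ∀ s, Y.r2 .T s s → ¬ P s)
    (h1 : ∀ (c : Bool) (l : List N), (Flag_Y Y P r ι).V1 Γ.φ Γ.C₁ (l.map (Flag_i U)) (inr c)) :
    Str Γ Y (Flag_Y Y P r ι) (Flag_i U) := by
  have hT : (Flag_Y Y P r ι).Tree := Flag_tree hY.1 hr hP
  have rT : (Flag_Y Y P r ι).r2 .T (inr true) (inr true) := trivial
  refine ⟨Flag_embY, hY, ⟨hT, Or.inl ⟨_, rT⟩⟩, fun l h =>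
    Q.intro ((k0_map Flag_embY _ l).2 h.k0) (fun t => ?_) ?_ ?_ ?_⟩
  · rcases t with (t | t) | c
    · exact (v1_map Flag_embY _ _ l t).2 (h.v1 t)
    · rintro ⟨z, h2, -, h3⟩
      obtain ⟨x, -, rfl⟩ := List.mem_map.1 h2
      exact h3.elim
    · exact h1 c l
  · simp only [List.forall_mem_map]
    exact fun x hx y hy t => Flag_v2 hr (h.v2 hx hy) t
  · simp only [List.forall_mem_map]
    exact fun x hx σ ρ => Flag_v3 hY.1 hr hP (h.v3 hx) σ ρ
  · simp only [List.forall_mem_map]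
    intro x hx p
    rcases p with (p | p) | _ | _
    exacts [h.ns hx p, id, id, h.ns hx r]

end Y

/-- The map between the two extensions. -/
def Flag_k (g : M → N) : Option (M ⊕ U) → (N ⊕ U) ⊕ Bool
  | none => inr true
  | some (inl x) => inl (inl (g x))
  | some (inr u) => inl (inr u)

theorem Flag_k_inj {g : M → N} (hg : Function.Injective g) :
    Function.Injective (Flag_k (U := U) g) := by
  rintro (_ | x | x) (_ | y | y) e <;> simp only [Flag_k, reduceCtorEq, inl.injEq, inr.injEq] at e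
  · rfl
  · rw [hg e]
  · rw [e]

theorem Flag_embK [τ'.Structure U] {X : Dat τ τ' M} {Y : Dat τ τ' N} {g : M → N} {r : N}
    {ι : U → Option (M ⊕ U)} (hι : Function.Injective ι) (e : Emb X Y g)
    (hQ : ∀ x, Q Γ Y [g x]) :
    Emb (Flag_X X ι) (Flag_Y Y (· ∈ Set.range g) r (Flag_k g ∘ ι)) (Flag_k g) := by
  have hk := Flag_k_inj (U := U) e.inj
  have hb : ∀ (z : Option (M ⊕ U)) (y : N), Flag_k g z = Flag_i U y → ∃ x, Flag_a U x = z := by
    rintro (_ | x | x) y h
    · exact absurd h inr_ne_inl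
    · exact ⟨x, rfl⟩
    · exact absurd (inl_injective h) inr_ne_inl
  refine ⟨hk, fun s l => ?_, fun s l => ?_⟩
  · have h := Flag_bF_nat (k := Flag_k g) e (Flag_a_inj (U := U)) Flag_i_inj (fun _ => rfl) hb
      none s l
    cases s with
    | bf n f => exact h
    | p b => exact h
    | tf n f =>
      rcases l with _ | ⟨_ | x | x, l⟩
      · exact h
      · exact Flag_tF_nat hι hk none n f l
      · exact h
      · exact h
    | l j =>
      rcases l with _ | ⟨z, _ | ⟨z', _ | ⟨w, l⟩⟩⟩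
      · exact h
      · exact h
      · rcases z with _ | x | x <;> rcases z' with _ | y | y
        any_goals rfl
        · exact Flag_l2 (ι := Flag_k g ∘ ι) (P := (· ∈ Set.range g)) ⟨y, rfl⟩ j
        · exact Flag_l4 (ι := Flag_k g ∘ ι) ((hQ x).k0.1 _ (by simp)) j
        · exact congrArg (Flag_i U) (e.f2 (.l j) x y)
      · exact h
    | en b =>
      rcases l with _ | ⟨z, _ | ⟨z', _ | ⟨w, l⟩⟩⟩
      · exact h
      · exact h
      · rcases z with _ | x | x <;> rcases z' with _ | y | y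
        any_goals rfl
        exact congrArg (Flag_i U) (e.f2 (.en b) x y)
      · exact h
  · have h := Flag_bR_nat (k := Flag_k g) e (Flag_a_inj (U := U)) Flag_i_inj (fun _ => rfl) hb
      s l
    cases s with
    | br n q => exact h
    | Sp => exact h
    | Col => exact h
    | tr n q =>
      rcases l with _ | ⟨_ | x | x, l⟩
      · exact h
      · exact Flag_tR_nat hk n q l
      · exact h
      · exact h
    | T =>
      rcases l with _ | ⟨z, _ | ⟨z', _ | ⟨w, l⟩⟩⟩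
      · exact h
      · exact h
      · rcases z with _ | x | x <;> rcases z' with _ | y | y
        any_goals exact Iff.rfl
        exact e.r2 .T x y
      · exact h
    | S =>
      rcases l with _ | ⟨z, _ | ⟨z', _ | ⟨w, l⟩⟩⟩
      · exact h
      · exact h
      · rcases z with _ | x | x <;> rcases z' with _ | y | y
        any_goals exact Iff.rfl
        · exact iff_of_false ((hQ x).ns (by simp) r) id
        · exact e.r2 .S x y
      · exact h
    | D =>
      rcases l with _ | ⟨z, _ | ⟨z', _ | ⟨w, l⟩⟩⟩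
      · exact h
      · exact h
      · rcases z with _ | x | x <;> rcases z' with _ | y | y
        any_goals exact Iff.rfl
        · exact iff_of_true ⟨x, rfl⟩ trivial
        · exact e.r2 .D x y
      · exact h

theorem Flag_iota {A : Type u} {p : A → M} {h : A → U} (hp : Function.Injective p)
    (hh : Function.Injective h) :
    ∃ ι : U → Option (M ⊕ U), Function.Injective ι ∧ ∀ x, ι (h x) = Flag_a U (p x) := by
  have e1 : ∀ x, Function.extend h (inl ∘ p) inr (h x) = (inl (p x) : M ⊕ U) :=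
    fun x => hh.extend_apply _ _ x
  have e2 : ∀ u, (¬ ∃ x, h x = u) → Function.extend h (inl ∘ p) inr u = (inr u : M ⊕ U) :=
    fun u hu => Function.extend_apply' _ _ u hu
  refine ⟨fun u => some (Function.extend h (inl ∘ p) inr u), fun u u' e => ?_,
    fun x => congrArg some (e1 x)⟩
  have e := Option.some_injective _ e
  by_cases a : ∃ x, h x = u <;> by_cases b : ∃ x, h x = u'
  · obtain ⟨x, rfl⟩ := a
    obtain ⟨x', rfl⟩ := b
    rw [e1, e1] at e
    rw [hp (inl_injective e)]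
  · obtain ⟨x, rfl⟩ := a
    rw [e1, e2 _ b] at e
    exact absurd e inl_ne_inr
  · obtain ⟨x, rfl⟩ := b
    rw [e1, e2 _ a] at e
    exact absurd e inr_ne_inl
  · rw [e2 _ a, e2 _ b] at e
    exact inr_injective e

theorem flag_ext (Γ : Par τ τ') {M : Type u} [Infinite M] (X : Dat τ τ' M) (hX : Mem Γ X)
    (hK : ∀ l, Q Γ X l) (hS : EmbSp Γ.φ Γ.C₀ Γ.C₁ #M) :
    ∃ (M' : Type u) (X' : Dat τ τ' M') (a : M → M') (r : M'),
      #M' = #M ∧ Str Γ X X' a ∧ X'.r2 .T r r ∧
      ∀ (N : Type u) (Y : Dat τ τ' N) (g : M → N), Str Γ X Y g → (∃ σ, Y.r2 .T σ σ) →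
        ∃ (N' : Type u) (Y' : Dat τ τ' N') (i : N → N') (k : M' → N'), #N' ≤ #N + #M ∧
          Str Γ Y Y' i ∧ Str Γ X' Y' k ∧ ∀ x, k (a x) = i (g x) := by
  obtain ⟨U, _, _, hE, hU, hc, ⟨h⟩⟩ := hS (Flag_sub X hK) (Flag_sub_mem X hK) (Flag_sub_card X hK)
  rw [Flag_sub_card] at hc
  have hM := Cardinal.aleph0_le_mk M
  obtain ⟨ι, hι, hh⟩ := Flag_iota (M := M) (p := fun x : Flag_sub X hK => x.1)
    Subtype.val_injective h.injective
  have sX : Str Γ X (Flag_X X ι) (Flag_a U) := by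
    refine Flag_strX hX hK fun l => Flag_v1 (Z := Flag_X X ι) (t := none) hE hU h Flag_embX hι
      (fun n f v => Flag_tF_map hι none n f v) (fun n q v => Flag_tR_map hι n q v) hh
      (fun _ => trivial) ?_
    rintro z ⟨h1, h2, -⟩
    obtain ⟨x, -, rfl⟩ := List.mem_map.1 h1
    exact ⟨⟨x, mt (Flag_embX.r2 _ _ _).2 h2⟩, rfl⟩
  refine ⟨Option (M ⊕ U), Flag_X X ι, Flag_a U, none, ?_, sX, trivial, fun N Y g hg ⟨r, hr⟩ => ?_⟩
  · rw [Cardinal.mk_option, Cardinal.mk_sum, lift_id, lift_id, hc, Cardinal.add_eq_self hM,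
      Cardinal.add_one_eq hM]
  have hQ : ∀ x, Q Γ Y [g x] := fun x => hg.good [x] (hK _)
  have hk := Flag_k_inj (U := U) hg.emb.inj
  have hι' := hk.comp hι
  have sY : Str Γ Y (Flag_Y Y (· ∈ Set.range g) r (Flag_k g ∘ ι)) (Flag_i U) := by
    refine Flag_strY hg.cod hr ?_ fun c l => Flag_v1 (t := inr c)
      (Z := Flag_Y Y (· ∈ Set.range g) r (Flag_k g ∘ ι)) hE hU h (hg.emb.comp Flag_embY) hι'
      (fun n f v => Flag_tF_map hι' (inr true) n f v) (fun n q v => Flag_tR_map hι' n q v)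
      (fun x => congrArg (Flag_k g) (hh x)) (fun x => ⟨x, rfl⟩) ?_
    · rintro _ h1 ⟨x, rfl⟩
      exact (hQ x).k0.1 _ (by simp) h1
    · rintro z ⟨h1, h2, h3⟩
      obtain ⟨y, -, rfl⟩ := List.mem_map.1 h1
      obtain ⟨x, rfl⟩ := h3
      exact ⟨⟨x, mt ((hg.emb.comp Flag_embY).r2 _ _ _).2 h2⟩, rfl⟩
  refine ⟨(N ⊕ U) ⊕ Bool, _, Flag_i U, Flag_k g, ?_, sY, ⟨Flag_embK hι hg.emb hQ, sX.cod, sY.cod,
    fun l hl => ?_⟩, fun _ => rfl⟩
  · have e : #M + 2 = #M := Cardinal.add_nat_eq 2 hM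
    rw [Cardinal.mk_sum, Cardinal.mk_sum, lift_id, lift_id, lift_uzero, hc, Cardinal.mk_bool,
      Cardinal.lift_two, add_assoc, e]
  · obtain ⟨l₀, rfl⟩ := Flag_goodX hl
    rw [Flag_mm (k := Flag_k g) (a := Flag_a U) (i := Flag_i U) (g := g) fun _ => rfl]
    exact sY.good _ (hg.good _ (hK l₀))

end Pool.Agent.Lib.MP_ccf8bc_lc.BC
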