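import Mathlib
import Pool.Agent.Lib.MP_ccf8bc_lc.BC.Stmts

/-!
Three explicit structures: the full structure, the one-point extension and the recolouring.
-/

set_option maxHeartbeats 400000

namespace Pool.Agent.Lib.MP_ccf8bc_lc.BC

open FirstOrder FirstOrder.Language FirstOrder.Language.Structure Cardinal Dat

universe u

variable {τ τ' : FirstOrder.Language.{u, u}}

theorem Full_good {Γ : Par τ τ'} {M : Type u} {X : Dat τ τ' M} (hT : ∀ x, ¬ X.r2 .T x x)
    (hD : ∀ x y, ¬ X.r2 .D x y) (hS : ∀ x y, ¬ X.r2 .S x y) {l : List M} (h0 : X.K0 Γ.C₀ l) :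
    Q Γ X l :=
  Q.intro h0 (fun t ⟨x, hx⟩ => (hD x t hx.2.2).elim) (fun _ _ _ _ t h => (hT t h).elim)
    (fun _ _ σ _ h => (hT σ h).elim) fun x _ p => hS x p

theorem Full_tree {M : Type u} {X : Dat τ τ' M} (hT : ∀ x, ¬ X.r2 .T x x) : X.Tree :=
  fun σ _ _ _ h => (hT σ h).elim

open Classical in
/-- The full structure. -/
noncomputable def Full_dat (τ' : FirstOrder.Language.{u, u}) (M : Type u) [τ.Structure M]
    [Nonempty M] (e : M → M × M) : Dat τ τ' M where
  F s l := match s with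
    | .bf n f => if h : ∃ v : Fin n → M, l = List.ofFn v then funMap f h.choose
        else Classical.arbitrary M
    | .p b => match l with
      | z :: _ => if b then (e z).2 else (e z).1
      | [] => Classical.arbitrary M
    | _ => Classical.arbitrary M
  R s l := match s with
    | .br n r => ∃ v : Fin n → M, l = List.ofFn v ∧ RelMap r v
    | _ => False

/-- The base of the full structure is the given structure. -/
noncomputable def Full_equiv (M : Type u) [τ.Structure M] [Nonempty M] (e : M → M × M) :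
    (Full_dat (τ := τ) τ' M e).Base ≃[τ] M where
  toEquiv := Equiv.refl M
  map_fun' {n} f v := by
    have h : ∃ w : Fin n → M, List.ofFn v = List.ofFn w := ⟨v, rfl⟩
    exact (dif_pos h).trans (congrArg (funMap f) (List.ofFn_injective h.choose_spec).symm)
  map_rel' {n} r v := ⟨fun h => ⟨v, rfl, h⟩, fun ⟨w, h1, h2⟩ => by
    obtain rfl : (v : Fin n → M) = w := List.ofFn_injective h1
    exact h2⟩

theorem exists_full (Γ : Par τ τ') (M : Type u) [τ.Structure M] [Infinite M] (h0 : Γ.C₀.Mem M)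
    (h1 : ¬ Solv Γ.φ Γ.C₁ M) : ∃ X : Dat τ τ' M, IsFull Γ X := by
  obtain ⟨e⟩ : Nonempty (M ≃ M × M) := Cardinal.eq.1 (by
    rw [Cardinal.mk_prod, Cardinal.lift_id, Cardinal.mul_eq_self (Cardinal.aleph0_le_mk M)])
  refine ⟨Full_dat τ' M e, Full_tree fun _ => id, fun l => Full_good (fun _ => id) (fun _ _ => id)
    (fun _ _ => id) ⟨fun _ _ => id, fun _ _ _ _ => id, fun _ _ _ _ h => h.elim,
      Γ.C₀.of_emb ((Full_equiv M e).toEmbedding.comp (Substructure.subtype _)) h0, fun _ _ => id⟩,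
    fun _ => id, fun a a' => ⟨e.symm (a, a'), ?_, ?_⟩, ?_⟩
  · exact congrArg Prod.fst (e.apply_symm_apply (a, a'))
  · exact congrArg Prod.snd (e.apply_symm_apply (a, a'))
  · rintro ⟨U, _, _, p1, p2, p3, ⟨f⟩⟩
    exact h1 ⟨U, _, _, p1, p2, p3, ⟨f.comp (Full_equiv M e).symm.toEmbedding⟩⟩

open Classical in
/-- The extension by one point. -/
noncomputable def Full_pt {M : Type u} (X : Dat τ τ' M) (c : Prop) : Dat τ τ' (Option M) where
  F s l := if h : ∃ l₀ : List M, l = l₀.map some then some (X.F s h.choose) else none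
  R s l := (∃ l₀ : List M, l = l₀.map some ∧ X.R s l₀) ∨
    l = [none, none] ∧ (s = .Sp ∨ s = .Col ∧ c)

theorem pt_thm (Γ : Par τ τ') : StPt Γ := by
  intro M X hX hK hS c
  have inj : Function.Injective (List.map (some : M → Option M)) :=
    List.map_injective_iff.2 (Option.some_injective M)
  have e : Emb X (Full_pt X c) some := by
    refine ⟨Option.some_injective M, fun s l => ?_, fun s l => ⟨?_, fun h => Or.inl ⟨l, rfl, h⟩⟩⟩
    · have h : ∃ l₀ : List M, l.map some = l₀.map some := ⟨l, rfl⟩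
      exact (dif_pos h).trans (by rw [← inj h.choose_spec])
    · rintro (⟨l₀, h1, h2⟩ | ⟨h1, -⟩)
      · rwa [inj h1]
      · have : none ∈ l.map some := by rw [h1]; simp
        simp at this
  have key : ∀ s x y, s ≠ RS.Sp → s ≠ RS.Col → (Full_pt X c).r2 s x y →
      ∃ a b, x = some a ∧ y = some b ∧ X.r2 s a b := by
    rintro s x y h1 h2 (⟨l₀, h3, h4⟩ | ⟨-, h3 | h3⟩)
    · obtain ⟨a, l₁, rfl, rfl, h5⟩ := List.map_eq_cons_iff.1 h3.symm
      obtain ⟨b, l₂, rfl, rfl, h6⟩ := List.map_eq_cons_iff.1 h5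
      obtain rfl := List.map_eq_nil_iff.1 h6
      exact ⟨a, b, rfl, rfl, h4⟩
    · exact absurd h3 h1
    · exact absurd h3.1 h2
  have sp : (Full_pt X c).r2 .Sp none none := Or.inr ⟨rfl, Or.inl rfl⟩
  have hT : ∀ x, ¬ (Full_pt X c).r2 .T x x := fun x h => by
    obtain ⟨a, b, rfl, h1, h2⟩ := key _ _ _ (by simp) (by simp) h
    obtain rfl := Option.some_injective M h1
    exact (hK [a]).k0.1 a (by simp) h2
  have hD : ∀ x y, ¬ (Full_pt X c).r2 .D x y := fun x y h => by
    obtain ⟨a, b, rfl, rfl, h2⟩ := key _ _ _ (by simp) (by simp) h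
    exact (hK [a, b]).k0.2.1 a (by simp) b (by simp) h2
  have hS' : ∀ x y, ¬ (Full_pt X c).r2 .S x y := fun x y h => by
    obtain ⟨a, b, rfl, rfl, h2⟩ := key _ _ _ (by simp) (by simp) h
    exact (hK [a]).ns (by simp) b h2
  have hsp : ∀ x, (Full_pt X c).r2 .Sp x x → x = none := by
    rintro (_ | x) h
    · rfl
    · exact absurd ((e.r2 _ _ _).1 h) (hS x)
  have hQ : ∀ l, Q Γ (Full_pt X c) l := fun l => by
    refine Full_good hT hD hS' ⟨fun x _ => hT x, fun x _ y _ => hD x y,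
      fun x _ y _ h1 h2 => (hsp x h1).trans (hsp y h2).symm, ?_⟩
    have h1 : (Full_pt X c).ord l = (Full_pt X c).ord ((l.filterMap id).map some) := by
      ext x
      rcases x with _ | x
      · exact iff_of_false (fun h => h.2 sp) fun h => h.2 sp
      · simp [Dat.ord]
    rw [h1]
    exact ((k0_map e _ _).2 (hK (l.filterMap id)).k0).2.2.2
  refine ⟨Full_pt X c, ⟨e, hX, ⟨Full_tree hT, Or.inr hQ⟩, fun _ _ => hQ _⟩, sp, ?_, fun h =>
    Or.inr ⟨rfl, Or.inr ⟨rfl, h⟩⟩⟩
  rintro (⟨l₀, h1, -⟩ | ⟨-, h | h⟩)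
  · have : none ∈ l₀.map some := by rw [← h1]; simp
    simp at this
  · simp at h
  · exact h.2

/-- The recolouring. -/
def Full_col {N : Type u} (Y : Dat τ τ' N) (A : Set N) (c : Prop) : Dat τ τ' N where
  F := Y.F
  R s l := match s with
    | .Col => ((∀ x ∈ l, x ∈ A) → Y.R .Col l) ∧ (¬ (∀ x ∈ l, x ∈ A) → c)
    | .br n r => Y.R (.br n r) l
    | .tr n r => Y.R (.tr n r) l
    | .Sp => Y.R .Sp l
    | .T => Y.R .T l
    | .S => Y.R .S l
    | .D => Y.R .D l

theorem col_thm (Γ : Par τ τ') : StCol Γ := by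
  intro M N X Y g h c
  have hR : ∀ s, s ≠ RS.Col → (Full_col Y (Set.range g) c).R s = Y.R s := by
    rintro (_ | _ | _ | _ | _ | _ | _) hs <;> first | rfl | exact absurd rfl hs
  refine ⟨Full_col Y (Set.range g) c, ⟨⟨h.emb.inj, h.emb.F, fun s l => ?_⟩, h.dom, h.cod, h.good⟩,
    rfl, hR, fun y hy => ?_⟩
  · by_cases hs : s = RS.Col
    · subst hs
      have h1 : ∀ x ∈ l.map g, x ∈ Set.range g := by simp
      exact ⟨fun h2 => (h.emb.R _ _).1 (h2.1 h1),
        fun h2 => ⟨fun _ => (h.emb.R _ _).2 h2, fun h3 => absurd h1 h3⟩⟩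
    · rw [hR s hs]
      exact h.emb.R s l
  · have h1 : ¬ ∀ x ∈ [y, y], x ∈ Set.range g := fun h => hy (h y (by simp))
    exact ⟨fun h2 => h2.2 h1, fun h2 => ⟨fun h3 => absurd h3 h1, fun _ => h2⟩⟩

end Pool.Agent.Lib.MP_ccf8bc_lc.BC
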