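import Mathlib
import Pool.Agent.Lib.MP_ccf8bc_lc.BC.Stmts

/-!
The term model along a filter.
-/

set_option maxHeartbeats 400000

namespace Pool.Agent.Lib.MP_ccf8bc_lc.BC

open FirstOrder FirstOrder.Language FirstOrder.Language.Structure Cardinal Dat

universe u

variable {L : FirstOrder.Language.{u, u}}

theorem Limit_emb {W A B : Type u} [L.Structure A] [L.Structure B] {a : W → A} {b : W → B}
    (h : SameDiag L a b) : Nonempty (Substructure.closure L (Set.range a) ↪[L] B) := by
  have key : ∀ x : Substructure.closure L (Set.range a), ∃ t : L.Term W, t.realize a = x :=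
    fun x => Substructure.closure_induction (p := fun y => ∃ t : L.Term W, t.realize a = y) x.2
      (by rintro _ ⟨w, rfl⟩; exact ⟨Term.var w, rfl⟩) fun f v hv => by
        choose ts hts using hv
        exact ⟨Term.func f ts, by simp [hts]⟩
  choose T hT using key
  refine ⟨{ toFun := fun x => (T x).realize b
            inj' := fun x y hxy => Subtype.ext ?_
            map_fun' := fun {n} f v => ?_
            map_rel' := fun {n} r v => ?_ }⟩
  · rw [← hT, ← hT]
    exact (h.1 _ _).2 hxy
  · exact (h.1 (T (funMap f v)) (Term.func f fun i => T (v i))).1 (by simp [hT]; rfl)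
  · refine (h.2 n r fun i => T (v i)).symm.trans ?_
    simp only [hT]
    rfl

section

variable {V Ω : Type u} (𝔉 : Filter Ω) {N : Ω → Type u} [∀ ω, L.Structure (N ω)]
  (ρ : ∀ ω, V → N ω)

/-- Terms with almost everywhere equal values. -/
def Limit_setoid : Setoid (L.Term V) where
  r t t' := ∀ᶠ ω in 𝔉, t.realize (ρ ω) = t'.realize (ρ ω)
  iseqv := ⟨fun _ => Filter.Eventually.of_forall fun _ => rfl, fun h => h.mono fun _ => Eq.symm,
    fun h h' => (h.and h').mono fun _ a => a.1.trans a.2⟩

/-- The term structure. -/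
instance Limit_pre : L.Prestructure (Limit_setoid (L := L) 𝔉 ρ) where
  toStructure :=
    { funMap := fun f ts => Term.func f ts
      RelMap := fun r ts => ∀ᶠ ω in 𝔉, RelMap r fun i => (ts i).realize (ρ ω) }
  fun_equiv := fun {n} {f} x y h => (Filter.eventually_all.2 h).mono fun ω hω =>
    congrArg (funMap f) (funext hω)
  rel_equiv := fun {n} {r} x y h => propext (Filter.eventually_congr
    ((Filter.eventually_all.2 h).mono fun ω hω => by rw [funext hω]))

theorem Limit_realize {W : Type u} (t : L.Term W) (x : W → V) :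
    t.realize (fun w => (⟦Term.var (x w)⟧ : Quotient (Limit_setoid (L := L) 𝔉 ρ))) =
      ⟦t.relabel x⟧ := by
  induction t with
  | var w => rfl
  | func f ts ih =>
    simp only [Term.realize, ih]
    exact funMap_quotient_mk' _ f _

end

theorem limit_thm : StLimit.{u} := by
  intro L C V Ω 𝔉 _ N _ ρ hC hs
  classical
  have hd : ∀ s : Finset V, ∃ A ∈ 𝔉, ∀ ω ∈ A, SameDiag L
      (fun v : s => (⟦Term.var v.1⟧ : Quotient (Limit_setoid (L := L) 𝔉 ρ))) fun v : s => ρ ω v := by
    intro s
    obtain ⟨A, hA, h⟩ := hs s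
    have key : ∀ p : Ω → Prop, (∀ ω ∈ A, ∀ ω' ∈ A, p ω ↔ p ω') → ∀ ω ∈ A,
        ((∀ᶠ ω' in 𝔉, p ω') ↔ p ω) := fun p hp ω hω =>
      ⟨fun h1 => by
        obtain ⟨ω', h2, h3⟩ := (h1.and hA).exists
        exact (hp ω' h3 ω hω).1 h2,
      fun h1 => Filter.mem_of_superset hA fun ω' h2 => (hp ω hω ω' h2).1 h1⟩
    refine ⟨A, hA, fun ω hω => ⟨fun t t' => ?_, fun n r ts => ?_⟩⟩
    · rw [Limit_realize, Limit_realize, Quotient.eq]
      refine Iff.trans ?_ (key _ (fun ω h1 ω' h2 => (h ω h1 ω' h2).1 t t') ω hω)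
      refine Filter.eventually_congr (Filter.Eventually.of_forall fun ω' => ?_)
      rw [Term.realize_relabel, Term.realize_relabel]
      rfl
    · simp only [Limit_realize]
      refine (relMap_quotient_mk' _ r _).trans ?_
      refine Iff.trans ?_ (key _ (fun ω h1 ω' h2 => (h ω h1 ω' h2).2 n r ts) ω hω)
      refine Filter.eventually_congr (Filter.Eventually.of_forall fun ω' => ?_)
      simp only [Term.realize_relabel]
      rfl
  refine ⟨Quotient (Limit_setoid (L := L) 𝔉 ρ), inferInstance, fun v => ⟦Term.var v⟧,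
    C.of_fg _ fun s' => ?_, ?_, hd⟩
  · have h1 : ∀ t : L.Term V, ∃ s : Finset V, (⟦t⟧ : Quotient (Limit_setoid (L := L) 𝔉 ρ)) ∈
        Substructure.closure L ((fun v => ⟦Term.var v⟧) '' (s : Set V)) := fun t => by
      induction t with
      | var v => exact ⟨{v}, Substructure.subset_closure ⟨v, by simp, rfl⟩⟩
      | func f ts ih =>
        choose s hs using ih
        refine ⟨Finset.univ.biUnion s, ?_⟩
        have := Substructure.fun_mem (Substructure.closure L ((fun v => ⟦Term.var v⟧) ''
          ((Finset.univ.biUnion s : Finset V) : Set V))) f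
          (fun i => (⟦ts i⟧ : Quotient (Limit_setoid (L := L) 𝔉 ρ))) fun i =>
          Substructure.closure_mono (Set.image_mono (Finset.coe_subset.2
            (Finset.subset_biUnion_of_mem s (Finset.mem_univ i)))) (hs i)
        rwa [funMap_quotient_mk'] at this
    choose S hS using h1
    obtain ⟨A, hA, h2⟩ := hd (s'.biUnion fun x => S x.out)
    obtain ⟨ω, hω⟩ := 𝔉.nonempty_of_mem hA
    obtain ⟨e⟩ := Limit_emb (h2 ω hω)
    refine C.mono ?_ (C.of_emb e (hC ω))
    refine (Substructure.closure_le).2 fun x hx => ?_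
    have := hS x.out
    rw [Quotient.out_eq] at this
    refine Substructure.closure_mono ?_ this
    rintro _ ⟨v, hv, rfl⟩
    exact ⟨⟨v, Finset.mem_biUnion.2 ⟨x, hx, hv⟩⟩, rfl⟩
  · refine Cardinal.mk_quotient_le.trans (Term.card_le.trans (max_le_max le_rfl ?_))
    rw [Cardinal.mk_sum, Cardinal.lift_id, Cardinal.lift_id]
    exact add_le_add le_rfl (Cardinal.mk_le_of_injective (f := (Sum.inl : _ → L.Symbols))
      Sum.inl_injective)

end Pool.Agent.Lib.MP_ccf8bc_lc.BC
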