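import Mathlib
import Pool.Agent.Lib.MP_ccf8bc_lc.BC.Stmts

/-!
Maximal models from non-softness.
-/

namespace Pool.Agent.Lib.MP_ccf8bc_lc.BC

open FirstOrder FirstOrder.Language FirstOrder.Language.Structure Cardinal Dat

universe u

variable {τ τ' : FirstOrder.Language.{u, u}}

/-- Additional function symbols. -/
inductive MaxF (I : Type u) : ℕ → Type u
  | pair : MaxF I 2
  | dl : MaxF I 1
  | j : I → MaxF I 1

/-- Additional relation symbols. -/
inductive MaxR (I : Type u) : ℕ → Type u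
  | V : I → MaxR I 2

/-- The additional language. -/
def MaxL (I : Type u) : FirstOrder.Language.{u, u} := ⟨MaxF I, MaxR I⟩

section Gen

variable {L : FirstOrder.Language.{u, u}} {M N : Type u} [L.Structure M] [L.Structure N]

theorem max_fun1 (e : M ↪[L] N) (f : L.Functions 1) (a : M) :
    funMap f ![e a] = e (funMap f ![a]) := by
  rw [Embedding.map_fun]
  congr 1
  ext k
  fin_cases k
  rfl

theorem max_fun2 (e : M ↪[L] N) (f : L.Functions 2) (a b : M) :
    funMap f ![e a, e b] = e (funMap f ![a, b]) := by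
  rw [Embedding.map_fun]
  congr 1
  ext k
  fin_cases k <;> rfl

theorem max_rel2 (e : M ↪[L] N) (r : L.Relations 2) (a b : M) :
    RelMap r ![e a, e b] ↔ RelMap r ![a, b] := by
  have : (e ∘ ![a, b]) = ![e a, e b] := by
    ext k
    fin_cases k <;> rfl
  rw [← this, Embedding.map_rel]

end Gen

section Ax

variable {I : Type u} (L : FirstOrder.Language.{u, u}) {M N : Type u}
  [(L.sum (MaxL I)).Structure M] [(L.sum (MaxL I)).Structure N]

variable (I) in
/-- The pairing function. -/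
def maxPair (a a' : M) : M :=
  funMap (L := L.sum (MaxL I)) (Sum.inr MaxF.pair) ![a, a']

variable (I) in
/-- The code of the indicator function of a point. -/
def maxDl (a : M) : M := funMap (L := L.sum (MaxL I)) (Sum.inr MaxF.dl) ![a]

/-- A witness for a value. -/
def maxJ (i : I) (a : M) : M := funMap (L := L.sum (MaxL I)) (Sum.inr (MaxF.j i)) ![a]

/-- The evaluation relation. -/
def maxV (i : I) (a x : M) : Prop := RelMap (L := L.sum (MaxL I)) (Sum.inr (MaxR.V i)) ![a, x]

/-- The conditions at three points. -/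
def MaxLoc (pr : I → I → I) (i0 : I) (a a' x : M) : Prop :=
  (∃ i : I, maxV L i a x) ∧
  (∀ i i' : I, maxV L i a x → maxV L i' a' x → maxV L (pr i i') (maxPair I L a a') x) ∧
  (∀ i : I, maxV L i a x → maxV L i a (maxJ L i a)) ∧
  ∀ i : I, maxV L i (maxDl I L a) x → (i = i0 ↔ x = a)

variable {L}

theorem maxPair_map (e : M ↪[L.sum (MaxL I)] N) (a a' : M) :
    maxPair I L (e a) (e a') = e (maxPair I L a a') := max_fun2 e _ a a'

theorem maxDl_map (e : M ↪[L.sum (MaxL I)] N) (a : M) : maxDl I L (e a) = e (maxDl I L a) :=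
  max_fun1 e _ a

theorem maxJ_map (e : M ↪[L.sum (MaxL I)] N) (i : I) (a : M) :
    maxJ L i (e a) = e (maxJ L i a) := max_fun1 e _ a

theorem maxV_map (e : M ↪[L.sum (MaxL I)] N) (i : I) (a x : M) :
    maxV L i (e a) (e x) ↔ maxV L i a x := max_rel2 e _ a x

theorem maxLoc_map (e : M ↪[L.sum (MaxL I)] N) (pr : I → I → I) (i0 : I) (a a' x : M) :
    MaxLoc L pr i0 (e a) (e a') (e x) ↔ MaxLoc L pr i0 a a' x := by
  simp only [MaxLoc, maxPair_map, maxDl_map, maxJ_map, maxV_map, e.injective.eq_iff]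

end Ax

/-- The class defined by the conditions. -/
def maxAx {I : Type u} (L : FirstOrder.Language.{u, u}) (pr : I → I → I) (i0 : I) :
    Univ (L.sum (MaxL I)) where
  Mem M _ := ∀ a a' x : M, MaxLoc L pr i0 a a' x
  of_emb e h a a' x := (maxLoc_map e pr i0 a a' x).1 (h _ _ _)
  of_fg M _ h a a' x := by
    classical
    have h1 : ∀ y ∈ ({a, a', x} : Finset M),
        y ∈ Substructure.closure (L.sum (MaxL I)) (({a, a', x} : Finset M) : Set M) :=
      fun y hy => Substructure.subset_closure hy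
    exact (maxLoc_map (Substructure.subtype _) pr i0 ⟨a, h1 a (by simp)⟩ ⟨a', h1 a' (by simp)⟩
      ⟨x, h1 x (by simp)⟩).2 (h {a, a', x} _ _ _)

/-- The reduct as a type synonym. -/
def MaxRed {L L' : FirstOrder.Language.{u, u}} (_θ : L →ᴸ L') (M : Type u) : Type u := M

instance {L L' : FirstOrder.Language.{u, u}} (θ : L →ᴸ L') (M : Type u) [L'.Structure M] :
    L.Structure (MaxRed θ M) := θ.reduct M

/-- An embedding of reducts. -/
def maxRedEmb {L L' : FirstOrder.Language.{u, u}} (θ : L →ᴸ L') {M N : Type u} [L'.Structure M]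
    [L'.Structure N] (e : M ↪[L'] N) : MaxRed θ M ↪[L] MaxRed θ N where
  toFun := e
  inj' := e.injective
  map_fun' f v := e.map_fun (θ.onFunction f) v
  map_rel' r v := e.map_rel (θ.onRelation r) v

/-- The class of structures in `D` whose reduct lies in `C`. -/
def maxBoth {L L' : FirstOrder.Language.{u, u}} (θ : L →ᴸ L') (C : Univ L) (D : Univ L') :
    Univ L' where
  Mem M _ := D.Mem M ∧ C.Mem (MaxRed θ M)
  of_emb e h := ⟨D.of_emb e h.1, C.of_emb (maxRedEmb θ e) h.2⟩
  of_fg M _ h := by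
    refine ⟨D.of_fg M fun s => (h s).1, C.of_fg _ fun s => ?_⟩
    let S : L'.Substructure M := Substructure.closure L' ((show Finset M from s) : Set M)
    let T : L.Substructure (MaxRed θ M) :=
      ⟨(S : Set M), fun f v hv => S.fun_mem (θ.onFunction f) v hv⟩
    have hle : Substructure.closure L (s : Set (MaxRed θ M)) ≤ T :=
      Substructure.closure_le.2 (Substructure.subset_closure (L := L') (M := M))
    exact C.of_emb (N := MaxRed θ S)
      ⟨⟨fun x => ⟨x.1, hle x.2⟩, fun x y hxy =>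
        Subtype.ext (congrArg (Subtype.val : S → M) hxy)⟩,
        fun _ _ => rfl, fun _ _ => Iff.rfl⟩ (h s).2

/-- Binary trees with labelled leaves. -/
inductive MaxT (α : Type u) : Type u
  | of : α → MaxT α
  | mul : MaxT α → MaxT α → MaxT α

/-- A code of a tree by a list. -/
def maxEnc {α : Type u} : MaxT α → List (Option α)
  | .of a => [some a]
  | .mul x y => none :: (maxEnc x ++ maxEnc y)

theorem maxEnc_append {α : Type u} (x : MaxT α) : ∀ (y : MaxT α) (l l' : List (Option α)),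
    maxEnc x ++ l = maxEnc y ++ l' → x = y ∧ l = l' := by
  induction x with
  | of a =>
    rintro (b | ⟨y1, y2⟩) l l' h
    · simpa [maxEnc] using h
    · simp [maxEnc] at h
  | mul x1 x2 h1 h2 =>
    rintro (b | ⟨y1, y2⟩) l l' h
    · simp [maxEnc] at h
    · simp only [maxEnc, List.cons_append, List.append_assoc, List.cons.injEq, true_and] at h
      obtain ⟨rfl, h'⟩ := h1 _ _ _ h
      obtain ⟨rfl, h''⟩ := h2 _ _ _ h'
      exact ⟨rfl, h''⟩

/-- Evaluation of a tree. -/
def maxVal {α M I : Type u} (pr : I → I → I) (g : α → M → I) : MaxT α → M → I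
  | .of a, x => g a x
  | .mul s t, x => pr (maxVal pr g s x) (maxVal pr g t x)

theorem max_family {α M I : Type u} [Infinite M] [Nonempty α] (hα : #α ≤ #M) (pr : I → I → I)
    (g : α → M → I) : ∃ val : M → M → I, (∀ k, ∃ b, val b = g k) ∧
      ∀ a a', ∃ b, ∀ x, val b x = pr (val a x) (val a' x) := by
  have h1 : #(MaxT α) ≤ #M := by
    have hinj : Function.Injective (maxEnc (α := α)) := fun x y h =>
      (maxEnc_append x y [] [] (by rw [h])).1
    refine (mk_le_of_injective hinj).trans ((mk_list_le_max _).trans (max_le (aleph0_le_mk M) ?_))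
    rw [mk_option]
    exact (add_le_add hα (one_le_aleph0.trans (aleph0_le_mk M))).trans
      (add_eq_self (aleph0_le_mk M)).le
  obtain ⟨s⟩ := (Cardinal.le_def _ _).1 h1
  have hE : Nonempty (MaxT α) := ⟨.of (Classical.arbitrary α)⟩
  have hs : ∀ t, Function.invFun s (s t) = t := Function.leftInverse_invFun s.injective
  refine ⟨fun a => maxVal pr g (Function.invFun s a), fun k => ⟨s (.of k), ?_⟩, fun a a' =>
    ⟨s (.mul (Function.invFun s a) (Function.invFun s a')), fun x => ?_⟩⟩
  · simp only [hs]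
    rfl
  · simp only [hs]
    rfl

/-- A structure for the additional language. -/
@[reducible] def maxStr {I M : Type u} (p : M → M → M) (d : M → M) (j : I → M → M)
    (val : M → M → I) : (MaxL I).Structure M where
  funMap := fun {_} f v => match f, v with
    | .pair, v => p (v 0) (v 1)
    | .dl, v => d (v 0)
    | .j i, v => j i (v 0)
  RelMap := fun {_} r v => match r, v with
    | .V i, v => val (v 0) (v 1) = i

/-- A point outside the image of an embedding gives an ultrafilter. -/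
theorem max_ultra {I M U : Type u} [Nonempty M] {L : FirstOrder.Language.{u, u}}
    [(L.sum (MaxL I)).Structure M] [(L.sum (MaxL I)).Structure U] {pr : I → I → I} {i0 : I}
    (hpr : ∀ i i' k k', pr i i' = pr k k' → i = k ∧ i' = k')
    (hM : ∀ a a' x : M, MaxLoc L pr i0 a a' x) (hU : ∀ a a' x : U, MaxLoc L pr i0 a a' x)
    (val : M → M → I) (hv : ∀ i a x, maxV L i a x ↔ val a x = i)
    (hd : ∀ y, val (maxDl I L y) y = i0) (h : M ↪[L.sum (MaxL I)] U) (u : U)
    (hu : u ∉ Set.range h) :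
    ∃ F : Ultrafilter M, (∀ a, {a} ∉ F) ∧ ∀ b, ∃ i, {x | val b x = i} ∈ F := by
  let G : Filter M :=
    { sets := {Z | ∃ a i, maxV L i (h a) u ∧ {x | val a x = i} ⊆ Z}
      univ_sets := by
        obtain ⟨a⟩ := ‹Nonempty M›
        obtain ⟨i, hi⟩ := (hU (h a) (h a) u).1
        exact ⟨a, i, hi, Set.subset_univ _⟩
      sets_of_superset := fun ⟨a, i, h1, h2⟩ hZ => ⟨a, i, h1, h2.trans hZ⟩
      inter_sets := by
        rintro Z Z' ⟨a, i, h1, h2⟩ ⟨a', i', h1', h2'⟩
        have h3 := (hU (h a) (h a') u).2.1 i i' h1 h1'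
        rw [maxPair_map] at h3
        refine ⟨_, _, h3, fun x hx => ?_⟩
        have h4 := (hv _ _ _).1 ((hM a a' x).2.1 _ _ ((hv _ _ _).2 rfl) ((hv _ _ _).2 rfl))
        obtain ⟨e1, e2⟩ := hpr _ _ _ _ (h4.symm.trans hx)
        exact ⟨h2 e1, h2' e2⟩ }
  have hG : G.NeBot := by
    refine ⟨fun hb => ?_⟩
    obtain ⟨a, i, h1, h2⟩ : (∅ : Set M) ∈ G := Filter.empty_mem_iff_bot.2 hb
    have h3 := (hU (h a) (h a) u).2.2.1 i h1
    rw [maxJ_map, maxV_map, hv] at h3
    exact h2 h3
  have hmem : ∀ a i, maxV L i (h a) u → {x | val a x = i} ∈ Ultrafilter.of G := fun a i hi =>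
    Ultrafilter.of_le G (show _ ∈ G from ⟨a, i, hi, subset_rfl⟩)
  refine ⟨Ultrafilter.of G, fun y hy => ?_, fun b => ?_⟩
  · obtain ⟨i, hi⟩ := (hU (h (maxDl I L y)) u u).1
    have h1 := hmem _ _ hi
    rw [← maxDl_map] at hi
    have h2 := (hU (h y) u u).2.2.2 i hi
    obtain ⟨z, hz1, hz2⟩ := Ultrafilter.nonempty_of_mem (Filter.inter_mem hy h1)
    obtain rfl : z = y := hz1
    exact hu ⟨z, (h2.1 (hz2.symm.trans (hd z))).symm⟩
  · obtain ⟨i, hi⟩ := (hU (h b) u u).1
    exact ⟨i, hmem _ _ hi⟩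

theorem max_sep (φ : τ →ᴸ τ') (C : Univ τ') (I : Type u) [Infinite I] :
    ∃ (σ σ' : FirstOrder.Language.{u, u}) (ψ : σ →ᴸ σ') (C₀ : Univ σ) (C₁ : Univ σ'),
      (∀ c, ExpSp φ C c → EmbSp ψ C₀ C₁ c) ∧
      ∀ c, ℵ₀ ≤ c → NonSoft I c → ¬ ExpSp φ C c → ¬ EmbSp ψ C₀ C₁ c := by
  classical
  obtain ⟨e⟩ : Nonempty (I × I ≃ I) := by
    rw [← Cardinal.eq, mk_prod, lift_id, mul_eq_self (aleph0_le_mk I)]
  obtain ⟨i0, i1, hi⟩ := exists_pair_ne I
  let pr : I → I → I := fun i i' => e (i, i')
  have hpr : ∀ i i' k k', pr i i' = pr k k' → i = k ∧ i' = k' := fun i i' k k' h =>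
    Prod.ext_iff.1 (e.injective h)
  refine ⟨τ.sum (MaxL I), τ'.sum (MaxL I), φ.sumMap (LHom.id _), maxAx τ pr i0,
    maxBoth LHom.sumInl C (maxAx τ' pr i0), ?_, ?_⟩
  · intro c hE M S hM hc
    obtain ⟨S', hS', hC⟩ := hE (MaxRed (LHom.sumInl : τ →ᴸ τ.sum (MaxL I)) M) hc
    let S1 : τ'.Structure M := S'
    let S2 : (MaxL I).Structure M := (LHom.sumInr : MaxL I →ᴸ τ.sum (MaxL I)).reduct M
    refine ⟨M, S, sumStructure τ' (MaxL I) M, ⟨?_, ?_⟩, ⟨hM, hC⟩, rfl, ⟨Embedding.refl _ _⟩⟩
    · rintro n (f | f) v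
      · exact hS'.map_onFunction f v
      · rfl
    · rintro n (r | r) v
      · exact hS'.map_onRelation r v
      · rfl
  · intro c hc hN hE hEmb
    apply hE
    intro M S hM
    have : Infinite M := infinite_iff.2 (hM ▸ hc)
    obtain ⟨J, f, hJ, hf⟩ := hN M hM
    obtain ⟨val, hv1, hv2⟩ := max_family (α := J ⊕ M) (M := M) (by
      rw [mk_sum, lift_id, lift_id, hM]
      exact (add_le_add hJ le_rfl).trans (add_eq_self hc).le) pr
      (Sum.elim f fun y x => if x = y then i0 else i1)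
    choose p hp using hv2
    choose d hd using fun y => hv1 (Sum.inr y)
    have hj : ∀ (i : I) (a : M), ∃ b, ∀ x, val a x = i → val a b = i := fun i a => by
      by_cases h : ∃ x, val a x = i
      · obtain ⟨x, hx⟩ := h
        exact ⟨x, fun _ _ => hx⟩
      · exact ⟨a, fun x hx => absurd ⟨x, hx⟩ h⟩
    choose j hj using hj
    let S2 : (MaxL I).Structure M := maxStr p d j val
    have hv : ∀ (i : I) (a x : M), maxV τ i a x ↔ val a x = i := fun _ _ _ => Iff.rfl
    have hAx : ∀ a a' x : M, MaxLoc τ pr i0 a a' x := by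
      refine fun a a' x => ⟨⟨val a x, rfl⟩, fun i i' h1 h2 => ?_, fun i h1 => hj i a x h1,
        fun i h1 => ?_⟩
      · change val (p a a') x = _
        rw [hp, (hv _ _ _).1 h1, (hv _ _ _).1 h2]
      · change val (d a) x = i at h1
        rw [hd] at h1
        change (if x = a then i0 else i1) = i at h1
        split_ifs at h1 with hx
        · exact ⟨fun _ => hx, fun _ => h1.symm⟩
        · exact ⟨fun h2 => absurd (h1.trans h2).symm hi, fun h2 => absurd h2 hx⟩
    obtain ⟨U, T, T', hT, ⟨hU, hC⟩, -, ⟨h⟩⟩ := hEmb M hAx hM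
    have hF : ∀ {n} (g : (MaxL I).Functions n) (v : Fin n → U),
        funMap (L := τ'.sum (MaxL I)) (Sum.inr g) v = funMap (L := τ.sum (MaxL I)) (Sum.inr g) v :=
      fun g v => hT.map_onFunction (Sum.inr g) v
    have hR : ∀ {n} (g : (MaxL I).Relations n) (v : Fin n → U),
        RelMap (L := τ'.sum (MaxL I)) (Sum.inr g) v = RelMap (L := τ.sum (MaxL I)) (Sum.inr g) v :=
      fun g v => hT.map_onRelation (Sum.inr g) v
    have hU' : ∀ a a' x : U, MaxLoc τ pr i0 a a' x := by
      intro a a' x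
      have e1 : ∀ a a' : U, maxPair I τ' a a' = maxPair I τ a a' := fun _ _ => hF _ _
      have e2 : ∀ a : U, maxDl I τ' a = maxDl I τ a := fun _ => hF _ _
      have e3 : ∀ (i : I) (a : U), maxJ τ' i a = maxJ τ i a := fun _ _ => hF _ _
      have e4 : ∀ (i : I) (a x : U), maxV τ' i a x = maxV τ i a x := fun _ _ _ => hR _ _
      have := hU a a' x
      simpa only [MaxLoc, e1, e2, e3, e4] using this
    have hsurj : Function.Surjective h := by
      intro u
      by_contra hu
      obtain ⟨F, hF1, hF2⟩ := max_ultra hpr hAx hU' val hv (fun y => by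
        change val (d y) y = i0
        rw [hd]
        exact if_pos rfl) h u hu
      obtain ⟨k, hk⟩ := hf F hF1
      obtain ⟨b, hb⟩ := hv1 (Sum.inl k)
      obtain ⟨i, hi'⟩ := hF2 b
      rw [hb] at hi'
      exact hk i hi'
    let E : M ≃ U := Equiv.ofBijective h ⟨h.injective, hsurj⟩
    let S' : τ'.Structure M :=
      { funMap := fun g v => E.symm (funMap (L := τ'.sum (MaxL I)) (Sum.inl g) (h ∘ v))
        RelMap := fun r v => RelMap (L := τ'.sum (MaxL I)) (Sum.inl r) (h ∘ v) }
    refine ⟨S', ⟨fun g v => ?_, fun r v => ?_⟩,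
      C.of_emb (N := MaxRed (LHom.sumInl : τ' →ᴸ τ'.sum (MaxL I)) U)
        ⟨⟨h, h.injective⟩, fun g v => E.apply_symm_apply _, fun _ _ => Iff.rfl⟩ hC⟩
    · refine E.symm_apply_eq.2 ?_
      exact (hT.map_onFunction (Sum.inl g) (h ∘ v)).trans (h.map_fun (Sum.inl g) v).symm
    · exact (hT.map_onRelation (Sum.inl r) (h ∘ v)).trans (propext (h.map_rel (Sum.inl r) v))

end Pool.Agent.Lib.MP_ccf8bc_lc.BC
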