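import Mathlib
import Pool.Agent.Lib.MP_ccf8bc_lc.BC.Stmts
import Pool.Agent.Lib.MP_ccf8bc_lc.NM.Size

/-!
Cardinals of the form `2 ^ l` are not soft when there is no measurable cardinal above `#I`.
-/

set_option maxHeartbeats 400000

namespace Pool.Agent.Lib.MP_ccf8bc_lc.BC

open FirstOrder FirstOrder.Language Cardinal Dat

universe u

theorem nonSoft_le (I : Type u) (c : Cardinal.{u}) (h0 : ℵ₀ ≤ c) (h : c ≤ #I) : NonSoft I c := by
  intro α hα
  obtain ⟨e⟩ : Nonempty (α ↪ I) := (Cardinal.le_def _ _).1 (hα ▸ h)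
  refine ⟨PUnit, fun _ => e, by simpa using one_le_aleph0.trans h0, fun U hU => ⟨⟨⟩, fun i hi => ?_⟩⟩
  obtain ⟨x, hx⟩ := U.nonempty_of_mem hi
  exact hU x (Filter.mem_of_superset hi fun y hy => e.injective (hy.trans hx.symm))

/-- An ultrafilter that makes all maps into `I` almost everywhere constant is principal. -/
theorem NSpow_principal {I β : Type u} [Infinite I] (hU : ∀ κ, #I < κ → ¬ Measurable' κ)
    (V : Ultrafilter β) (h : ∀ g : β → I, ∃ i, {x | g x = i} ∈ V) : ∃ b, {b} ∈ V := by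
  classical
  by_contra hnp
  obtain ⟨κ, h1, h2⟩ := NM.measurable_of_ultrafilter (I := I) V (fun b hb => hnp ⟨b, hb⟩) (by
    intro Z hZ
    by_contra hn
    obtain ⟨i, hi⟩ := h fun x => if hx : ∃ i, x ∉ Z i then hx.choose else Classical.arbitrary I
    obtain ⟨x, ⟨h1, h2⟩, h3⟩ := V.nonempty_of_mem (Filter.inter_mem (Filter.inter_mem hi (hZ i))
      (Ultrafilter.compl_mem_iff_notMem.2 hn))
    have hx : ∃ i, x ∉ Z i := by simpa using h3
    have h4 : hx.choose = i := by simpa [dif_pos hx] using h1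
    exact hx.choose_spec (h4 ▸ h2))
  exact hU κ h1 h2

theorem nonSoft_pow (I : Type u) [Infinite I] (hU : ∀ κ, #I < κ → ¬ Measurable' κ)
    (l : Cardinal.{u}) (h : #I < 2 ^ l) : NonSoft I (2 ^ l) := by
  classical
  intro α hα
  obtain ⟨Λ, rfl⟩ : ∃ Λ : Type u, #Λ = l := ⟨l.out, Cardinal.mk_out l⟩
  have hI := Cardinal.aleph0_le_mk I
  have hl : ℵ₀ ≤ #Λ := by
    by_contra hl
    exact (hI.trans_lt h).not_ge (Cardinal.power_lt_aleph0 (Cardinal.natCast_lt_aleph0 (n := 2))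
      (not_le.1 hl)).le
  have : Infinite Λ := Cardinal.infinite_iff.2 hl
  obtain ⟨e⟩ : Nonempty (α ≃ Set Λ) := Cardinal.eq.1 (by rw [hα, Cardinal.mk_set])
  obtain ⟨i₀, i₁, hi⟩ := exists_pair_ne I
  have hd : ∀ x y : α, ∃ b : Λ, x ≠ y → ¬ (b ∈ e x ↔ b ∈ e y) := fun x y => by
    by_cases hxy : x = y
    · exact ⟨Classical.arbitrary Λ, fun h => absurd hxy h⟩
    · obtain ⟨b, hb⟩ := not_forall.1 (mt (fun h => e.injective (Set.ext h)) hxy)
      exact ⟨b, fun _ => hb⟩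
  choose d hd using hd
  have h2 : ℵ₀ ≤ (2 ^ #Λ : Cardinal.{u}) := hl.trans (Cardinal.cantor _).le
  refine ⟨(α × (Λ → I)) ⊕ Λ, Sum.elim (fun p x => p.2 (d x p.1))
    fun b x => if b ∈ e x then i₀ else i₁, ?_, fun U hnp => ?_⟩
  · simp only [Cardinal.mk_sum, Cardinal.mk_prod, Cardinal.lift_id, hα, ← Cardinal.power_def]
    refine Cardinal.add_le_of_le h2 (Cardinal.mul_le_of_le h2 le_rfl ?_) (Cardinal.cantor _).le
    refine (Cardinal.power_le_power_right h.le).trans ?_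
    rw [← Cardinal.power_mul, Cardinal.mul_eq_self hl]
  by_contra hcon
  push Not at hcon
  obtain ⟨y₀, hy₀⟩ := e.surjective {b | {x | b ∈ e x} ∈ U}
  obtain ⟨b, hb⟩ := NSpow_principal hU (U.map fun x => d x y₀) fun g => hcon (Sum.inl (y₀, g))
  have h3 : {x | b ∈ e x ↔ b ∈ e y₀} ∈ U := by
    by_cases h4 : {x | b ∈ e x} ∈ U
    · exact Filter.mem_of_superset h4 fun x hx => iff_of_true hx (hy₀ ▸ h4)
    · exact Filter.mem_of_superset (Ultrafilter.compl_mem_iff_notMem.2 h4)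
        fun x hx => iff_of_false hx (hy₀ ▸ h4)
  obtain ⟨x, ⟨h5, h6⟩, h7⟩ := U.nonempty_of_mem (Filter.inter_mem (Filter.inter_mem hb h3)
    (Ultrafilter.compl_mem_iff_notMem.2 (hnp y₀)))
  have h8 : d x y₀ = b := h5
  exact hd x y₀ h7 (h8 ▸ h6)

end Pool.Agent.Lib.MP_ccf8bc_lc.BC
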