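import Mathlib
import Pool.Agent.Lib.MP_ccf8bc_lc.BC.NSpow

/-!
Strong limit cardinals that are not weakly compact are not soft when there is no measurable
cardinal above `#I`.
-/

set_option maxHeartbeats 400000

namespace Pool.Agent.Lib.MP_ccf8bc_lc.BC

open FirstOrder FirstOrder.Language Cardinal Dat

universe u

theorem NSlim_step0 {I : Type u} [Infinite I] (hU : ∀ κ, #I < κ → ¬ Measurable' κ)
    {c : Cardinal.{u}} (h : #I < c) (hc : c.IsStrongLimit) (hn : ¬ NonSoft I c)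
    {α J β : Type u} (hα : #α = c) (hJ : #J ≤ c) (g : J → α → β)
    (hg : ∀ j, #(Set.range (g j)) < c) :
    ∃ U : Ultrafilter α, (∀ a, {a} ∉ U) ∧ ∀ j, ∃ b, {x | g j x = b} ∈ U := by
  have h0 := hc.aleph0_le
  unfold NonSoft at hn
  push Not at hn
  obtain ⟨α₀, h1, h2⟩ := hn
  obtain ⟨e⟩ : Nonempty (α₀ ≃ α) := Cardinal.eq.1 (h1.trans hα.symm)
  obtain ⟨U, hnp, h3⟩ := h2 (Σ j, (Set.range (g j) → I)) (fun p x => p.2 ⟨g p.1 (e x), _, rfl⟩) (by
    rw [Cardinal.mk_sigma]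
    refine (Cardinal.sum_le_mk_mul_iSup _).trans (Cardinal.mul_le_of_le h0 hJ
      (ciSup_le' fun j => ?_))
    rw [← Cardinal.power_def]
    refine (Cardinal.power_le_power_right (Cardinal.cantor _).le).trans ?_
    rw [← Cardinal.power_mul]
    exact (hc.isStrongPrelimit (Cardinal.mul_lt_of_lt h0 h (hg j))).le)
  refine ⟨U.map e, fun a ha => hnp (e.symm a) (Filter.mem_of_superset ha fun x hx => ?_),
    fun j => ?_⟩
  · exact (Equiv.eq_symm_apply e).2 hx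
  · obtain ⟨b, hb⟩ := NSpow_principal hU
      (U.map fun x => (⟨g j (e x), _, rfl⟩ : Set.range (g j))) fun k => h3 ⟨j, k⟩
    exact ⟨b, Filter.mem_of_superset (f := (U : Filter α₀)) hb fun x hx => congrArg Subtype.val hx⟩

theorem nonSoft_lim (I : Type u) [Infinite I] (hU : ∀ κ, #I < κ → ¬ Measurable' κ)
    (c : Cardinal.{u}) (h : #I < c) (hc : c.IsStrongLimit) (hw : ¬ WeaklyCompact c) :
    NonSoft I c := by
  classical
  by_contra hn
  have h0 := hc.aleph0_le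
  have hW : #c.ord.ToType = c := by simp
  have hI : ∀ w : c.ord.ToType, #(Set.Iic w) < c := fun w => by
    rw [← Set.Iio_insert]
    exact Cardinal.mk_insert_le.trans_lt (Cardinal.add_lt_of_lt h0
      (by simpa using Cardinal.mk_Iio_lt w (by simp)) (one_lt_aleph0.trans_le h0))
  have hP : ∀ {α : Type u} (w : c.ord.ToType) (X : c.ord.ToType → Set α),
      #(Set.range fun x => {δ | δ ≤ w ∧ x ∈ X δ}) < c := fun w X => by
    refine lt_of_le_of_lt (Cardinal.mk_le_mk_of_subset (t := 𝒫 (Set.Iic w)) ?_) ?_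
    · rintro _ ⟨x, rfl⟩
      exact fun δ hδ => hδ.1
    · rw [Cardinal.mk_powerset]
      exact hc.isStrongPrelimit (hI w)
  have hB : ∀ S : Set c.ord.ToType, #S < c → BddAbove S := fun S hS => by
    by_contra hb
    choose i hi hi' using fun x => (not_bddAbove_iff.1 hb) x
    obtain ⟨U, hnp, h1⟩ := NSlim_step0 hU h hc hn (J := Option c.ord.ToType) hW
      (by simpa using Cardinal.add_le_of_le h0 le_rfl (one_le_aleph0.trans h0))
      (fun j x => j.elim {i x} fun w => {δ | δ ≤ w ∧ x ∈ ({δ} : Set _)}) (by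
        rintro (_ | w)
        · refine lt_of_le_of_lt (Cardinal.mk_le_mk_of_subset
            (t := (fun x => ({x} : Set c.ord.ToType)) '' S) ?_) (Cardinal.mk_image_le.trans_lt hS)
          rintro _ ⟨x, rfl⟩
          exact ⟨i x, hi x, rfl⟩
        · exact hP w _)
    obtain ⟨b, hb⟩ := h1 none
    obtain ⟨x, hx⟩ := U.nonempty_of_mem hb
    obtain ⟨b', hb'⟩ := h1 (some (i x))
    obtain ⟨y, hy, hy'⟩ := U.nonempty_of_mem (Filter.inter_mem hb hb')
    refine hnp y (Filter.mem_of_superset hb' fun z hz => ?_)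
    have e1 : i y = i x := Set.singleton_injective (hy.trans hx.symm)
    have e2 : y ∈ {δ | δ ≤ i x ∧ y ∈ ({δ} : Set _)} := ⟨e1 ▸ (hi' y).le, rfl⟩
    have e3 : {δ | δ ≤ i x ∧ y ∈ ({δ} : Set _)} = {δ | δ ≤ i x ∧ z ∈ ({δ} : Set _)} :=
      hy'.trans hz.symm
    rw [e3] at e2
    exact e2.2
  refine hw ⟨(Cardinal.aleph0_le_mk I).trans_lt h, fun α hα A hA => ?_⟩
  obtain ⟨g⟩ : Nonempty (↥(A ∪ Set.range fun a : α => ({a} : Set α)) ↪ c.ord.ToType) :=
    (Cardinal.le_def _ _).1 ((Cardinal.mk_union_le _ _).trans (by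
      rw [hW]
      exact Cardinal.add_le_of_le h0 hA (Cardinal.mk_range_le.trans hα.le)))
  let X : c.ord.ToType → Set α := Function.extend g Subtype.val fun _ => ∅
  have hX : ∀ s, X (g s) = s := fun s => g.injective.extend_apply _ _ _
  obtain ⟨U, hnp, h1⟩ := NSlim_step0 hU h hc hn hα hW.le (fun w x => {δ | δ ≤ w ∧ x ∈ X δ})
    fun w => hP w X
  choose b hb using h1
  let Y : c.ord.ToType → Set α := fun w => {x | {δ | δ ≤ w ∧ x ∈ X δ} = b w}
  have hY : ∀ v w, v ≤ w → Y w ⊆ Y v := fun v w hvw x hx => by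
    obtain ⟨y, h2, h3⟩ := U.nonempty_of_mem (Filter.inter_mem (hb v) (hb w))
    refine Eq.trans (Set.ext fun δ => and_congr_right fun hδ => ?_) h2
    have := Set.ext_iff.1 (hx.trans h3.symm) δ
    exact ⟨fun h4 => (this.1 ⟨hδ.trans hvw, h4⟩).2, fun h4 => (this.2 ⟨hδ.trans hvw, h4⟩).2⟩
  have hD : ∀ δ, Y δ ⊆ X δ ∨ Y δ ⊆ (X δ)ᶜ := fun δ => by
    by_cases h2 : δ ∈ b δ
    · exact Or.inl fun x hx => ((Set.ext_iff.1 hx δ).2 h2).2
    · exact Or.inr fun x hx h3 => h2 ((Set.ext_iff.1 hx δ).1 ⟨le_rfl, h3⟩)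
  have : Nonempty c.ord.ToType := Cardinal.mk_ne_zero_iff.1 (hW.symm ▸ hc.ne_zero)
  let F : Filter α :=
    { sets := {Z | ∃ w, Y w ⊆ Z}
      univ_sets := ⟨Classical.arbitrary _, Set.subset_univ _⟩
      sets_of_superset := fun ⟨w, hw⟩ h2 => ⟨w, hw.trans h2⟩
      inter_sets := fun ⟨v, hv⟩ ⟨w, hw⟩ => ⟨max v w, Set.subset_inter
        ((hY _ _ (le_max_left _ _)).trans hv) ((hY _ _ (le_max_right _ _)).trans hw)⟩ }
  refine ⟨F, Filter.forall_mem_nonempty_iff_neBot.1 fun s ⟨w, hw⟩ =>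
    (U.nonempty_of_mem (hb w)).mono hw, fun a => ?_, fun S hS hS' => ?_, fun s hs => ?_⟩
  · have := hD (g ⟨{a}, Or.inr ⟨a, rfl⟩⟩)
    rw [hX] at this
    exact ⟨_, this.resolve_left fun h2 => hnp a (Filter.mem_of_superset (hb _) h2)⟩
  · choose w hw using fun s : S => hS' s s.2
    obtain ⟨v, hv⟩ := hB (Set.range w) (Cardinal.mk_range_le.trans_lt hS)
    exact ⟨v, fun x hx s hs => hw ⟨s, hs⟩ (hY _ _ (hv ⟨_, rfl⟩) hx)⟩
  · have := hD (g ⟨s, Or.inl hs⟩)
    rw [hX] at this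
    exact this.imp (fun h2 => ⟨_, h2⟩) fun h2 => ⟨_, h2⟩

end Pool.Agent.Lib.MP_ccf8bc_lc.BC
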