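import Mathlib
import Pool.Agent.Lib.MP_ccf8bc_lc.BC.Stmts

/-!
Weakly compact cardinals are inaccessible and have the partition property.
-/

namespace Pool.Agent.Lib.MP_ccf8bc_lc.BC

open FirstOrder FirstOrder.Language Cardinal Dat

universe u

namespace Part

/-- A filter deciding a given family of functions with a small range. -/
theorem dec {α : Type u} (h : WeaklyCompact #α) {J β : Type u} (hJ : #J ≤ #α) (hβ : #β < #α)
    (f : J → α → β) :
    ∃ F : Filter α, F.NeBot ∧ (∀ s : Set α, #s < #α → sᶜ ∈ F) ∧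
      (∀ (ι : Type u) (s : ι → Set α), #ι < #α → (∀ i, s i ∈ F) → (⋂ i, s i) ∈ F) ∧
      ∀ j, ∃ b, {x | f j x = b} ∈ F := by
  have hinf : ℵ₀ ≤ #α := h.1.le
  obtain ⟨F, hF, h1, h2, h3⟩ := h.2 α rfl (Set.range fun p : J × β => {x | f p.1 x = p.2}) (by
    refine mk_range_le.trans ?_
    simp only [mk_prod, lift_id]
    exact (mul_le_mul' hJ hβ.le).trans (mul_eq_self hinf).le)
  have h4 : ∀ (ι : Type u) (s : ι → Set α), #ι < #α → (∀ i, s i ∈ F) → (⋂ i, s i) ∈ F := by
    intro ι s hι hs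
    rw [← Set.sInter_range]
    refine h2 _ (mk_range_le.trans_lt hι) ?_
    rintro _ ⟨i, rfl⟩
    exact hs i
  refine ⟨F, hF, ?_, h4, ?_⟩
  · intro s hs
    refine Filter.mem_of_superset (h4 s (fun x => {x.1}ᶜ) hs fun x => h1 _) ?_
    intro y hy hys
    exact Set.mem_iInter.1 hy ⟨y, hys⟩ rfl
  · intro j
    by_contra hc
    have h5 : ∀ b, {x | f j x = b}ᶜ ∈ F := fun b =>
      (h3 _ ⟨(j, b), rfl⟩).resolve_left fun hb => hc ⟨b, hb⟩
    obtain ⟨x, hx⟩ := hF.nonempty_of_mem (h4 β _ hβ h5)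
    exact Set.mem_iInter.1 hx (f j x) rfl

theorem reg {α : Type u} (h : WeaklyCompact #α) : #α ≤ (#α).ord.cof := by
  obtain ⟨_, _, ho⟩ := exists_ord_eq_type_lt α
  rw [ho, Ordinal.cof_type]
  obtain ⟨S, hS, hc⟩ := Order.exists_cof_eq α
  rw [← hc]
  by_contra hlt
  rw [not_le] at hlt
  choose g hg hg' using hS
  obtain ⟨F, hF, h1, -, h3⟩ := dec h (J := PUnit) (β := S) (by simpa using one_le_aleph0.trans h.1.le)
    hlt (fun _ x => ⟨g x, hg x⟩)
  obtain ⟨b, hb⟩ := h3 PUnit.unit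
  obtain ⟨x, hx, hx'⟩ := hF.nonempty_of_mem
    (Filter.inter_mem hb (h1 (Set.Iic b.1) (mk_Iic_lt _ ho h.1.le)))
  apply hx'
  have : g x = b.1 := congrArg Subtype.val hx
  exact this ▸ hg' x

theorem strong {α : Type u} (h : WeaklyCompact #α) : IsStrongPrelimit #α := by
  intro x hx
  induction x using Cardinal.inductionOn with
  | mk Λ =>
  by_contra hlt
  rw [not_lt, ← mk_set] at hlt
  obtain ⟨e⟩ := hlt
  obtain ⟨F, hF, h1, h2, h3⟩ := dec h (J := Λ) (β := ULift.{u} Prop) hx.le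
    (by simpa using (natCast_lt_aleph0 (n := 2)).trans h.1) (fun j x => ⟨j ∈ e x⟩)
  choose b hb using h3
  have h4 := h2 Λ _ hx hb
  obtain ⟨x, hx⟩ := hF.nonempty_of_mem h4
  obtain ⟨y, hy, hy'⟩ := hF.nonempty_of_mem (Filter.inter_mem h4 (h1 {x}
    (by simpa using one_lt_aleph0.trans h.1)))
  apply hy'
  apply e.injective
  ext j
  have h5 := Set.mem_iInter.1 hx j
  have h6 := Set.mem_iInter.1 hy j
  have h7 : (ULift.up (j ∈ e y) : ULift.{u} Prop) = ⟨j ∈ e x⟩ := h6.trans h5.symm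
  rw [ULift.up.injEq] at h7
  rw [h7]

/-- Choice along a well-order. -/
theorem rec_ex {α : Type u} [LinearOrder α] [WellFoundedLT α]
    (P : ∀ ξ : α, (Set.Iio ξ → α) → α → Prop) (hP : ∀ ξ g, ∃ x, P ξ g x) :
    ∃ a : α → α, ∀ ξ, P ξ (fun η => a η) (a ξ) := by
  choose G hG using hP
  let a : α → α := (wellFounded_lt (α := α)).fix fun ξ r => G ξ fun η => r η.1 η.2
  refine ⟨a, fun ξ => ?_⟩
  have : a ξ = G ξ fun η => a η := WellFounded.fix_eq _ _ _
  rw [this]
  exact hG _ _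

/-- The partition property. -/
theorem ramsey {α : Type u} [LinearOrder α] [WellFoundedLT α] (h : WeaklyCompact #α)
    (ho : (#α).ord = Ordinal.type (α := α) (· < ·)) {β : Type u} (hβ : #β < #α) (n : ℕ) :
    ∀ c : (Fin n → α) → β, ∃ a : α → α, StrictMono a ∧
      ∃ b, ∀ v : Fin n → α, StrictMono v → c (a ∘ v) = b := by
  induction n with
  | zero =>
    intro c
    exact ⟨id, strictMono_id, c Fin.elim0, fun v _ => congrArg c (Subsingleton.elim _ _)⟩
  | succ n ih =>
    intro c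
    obtain ⟨F, hF, h1, h2, h3⟩ := dec h (J := Fin n → α)
      (by simpa using power_nat_le h.1.le) hβ (fun v x => c (Fin.snoc (α := fun _ => α) v x))
    choose c' hc' using h3
    obtain ⟨a, ha⟩ := rec_ex (α := α) (fun ξ g x => (∀ η, g η < x) ∧
        ∀ v : Fin n → Set.Iio ξ, c (Fin.snoc (α := fun _ => α) (g ∘ v) x) = c' (g ∘ v)) (by
      intro ξ g
      have k1 := h2 (Set.Iio ξ) (fun η => (Set.Iic (g η))ᶜ) (mk_Iio_lt _ ho)
        fun η => h1 _ (mk_Iic_lt _ ho h.1.le)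
      have k2 := h2 (Fin n → Set.Iio ξ) _ (by
        have : #(Fin n → Set.Iio ξ) ≤ max #(Set.Iio ξ) ℵ₀ := by simpa using power_nat_le_max
        exact this.trans_lt (max_lt (mk_Iio_lt _ ho) h.1)) fun v => hc' (g ∘ v)
      obtain ⟨x, hx, hx'⟩ := hF.nonempty_of_mem (Filter.inter_mem k1 k2)
      exact ⟨x, fun η => not_le.1 (Set.mem_iInter.1 hx η), fun v => Set.mem_iInter.1 hx' v⟩)
    have hm : StrictMono a := fun η ξ hh => (ha ξ).1 ⟨η, hh⟩
    obtain ⟨a', hm', b, hb⟩ := ih fun v => c' (a ∘ v)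
    refine ⟨a ∘ a', hm.comp hm', b, fun w hw => ?_⟩
    have hw' : StrictMono fun i : Fin n => w i.castSucc :=
      hw.comp Fin.strictMono_castSucc
    rw [← hb _ hw']
    refine Eq.trans (congrArg c ?_) ((ha (a' (w (Fin.last n)))).2
      fun i => ⟨a' (w i.castSucc), hm' (hw (Fin.castSucc_lt_last i))⟩)
    funext i
    refine Fin.lastCases ?_ (fun i => ?_) i
    · simp
    · simp

end Part

theorem inacc_thm : StInacc.{u} := by
  intro κ h
  induction κ using Cardinal.inductionOn with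
  | mk α => exact ⟨h.1, Part.reg h, Part.strong h⟩

theorem part_thm : StPart.{u} := by
  intro α h β hβ c
  obtain ⟨_, _, ho⟩ := exists_ord_eq_type_lt α
  have hinf : Infinite α := infinite_iff.2 h.1.le
  have hnm : NoMaxOrder α := by
    refine ⟨fun x => ?_⟩
    by_contra hc
    have h1 : Set.Iic x = Set.univ := Set.eq_univ_of_forall fun y => not_lt.1 fun hy => hc ⟨y, hy⟩
    have h2 := mk_Iic_lt x ho h.1.le
    rw [h1, mk_univ] at h2
    exact h2.false
  obtain ⟨t, ht⟩ := Nat.exists_strictMono α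
  choose a ha b hb using fun (n : ℕ) (A : α → α) =>
    Part.ramsey h ho (hβ n) n fun v => c n (A ∘ v)
  let A : ℕ → α → α := fun n => Nat.rec id (fun n B => B ∘ a n B) n
  have hA : ∀ n, A (n + 1) = A n ∘ a n (A n) := fun _ => rfl
  have hAm : ∀ n, StrictMono (A n) := by
    intro n
    induction n with
    | zero => exact strictMono_id
    | succ n ih => exact ih.comp (ha _ _)
  have hle : ∀ m n, m ≤ n → ∃ g : α → α, StrictMono g ∧ A n = A m ∘ g := by
    intro m n hmn
    induction n, hmn using Nat.le_induction with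
    | base => exact ⟨id, strictMono_id, rfl⟩
    | succ n _ ih =>
      obtain ⟨g, hg, hg'⟩ := ih
      exact ⟨g ∘ a n (A n), hg.comp (ha _ _), by rw [hA, ← Function.comp_assoc, ← hg']⟩
  have htn : ∀ n, StrictMono fun i : Fin n => t i := fun n => ht.comp Fin.val_strictMono
  refine ⟨fun n => A (n + 1) ∘ fun i : Fin n => t i,
    fun n => ((hAm (n + 1)).comp (htn n)).injective, fun m n e => ?_⟩
  have hmn : m ≤ n := by simpa using Fintype.card_le_of_injective e e.injective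
  obtain ⟨g, hg, hg'⟩ := hle (m + 1) (n + 1) (Nat.succ_le_succ hmn)
  have k1 := hb m (A m) _ (htn m)
  have k2 := hb m (A m) _ (hg.comp ((htn n).comp e.strictMono))
  refine Eq.trans ?_ (k2.trans k1.symm)
  beta_reduce
  rw [hg']
  rfl

end Pool.Agent.Lib.MP_ccf8bc_lc.BC
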