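import Mathlib
import Pool.Agent.Lib.MP_ccf8bc_lc.BC.Stmts

/-!
Presentation of an abstract elementary class by list-ary functions.
-/

set_option maxHeartbeats 400000

namespace Pool.Agent.Lib.MP_ccf8bc_lc.BC

open FirstOrder FirstOrder.Language Cardinal Dat

universe u

theorem p1_thm : StP1.{u} := by
  intro L K J A N _ _ f hJ hf
  classical
  obtain ⟨G, g1, g2, g3, g4, g5⟩ := AEC.exists_system (K.str_range hf)
  have key : ∀ s : Finset N, ∃ su : J → N, Set.range su = (G s : Set N) := fun s => by
    have hne : Nonempty (G s) := K.nonempty _ (K.mem_dom _ (g3 s))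
    obtain ⟨e⟩ : Nonempty (G s ↪ J) := (Cardinal.le_def _ _).1 ((g4 s).trans hJ)
    refine ⟨Subtype.val ∘ Function.invFun e, ?_⟩
    rw [Set.range_comp, (Function.invFun_surjective e.injective).range_eq]
    simp
  choose su hsu using key
  refine ⟨fun j l => su l.toFinset j, fun l l' h => ⟨G l.toFinset, G l'.toFinset, (hsu _).symm,
    (hsu _).symm, fun x hx => g2 _ (by simpa using hx), AEC.R_of_subtype (g3 _) (g3 _)
      (g1 fun x hx => List.mem_toFinset.2 (h (List.mem_toFinset.1 hx)))⟩, fun j l hl => ?_⟩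
  have h1 : su l.toFinset j ∈ G l.toFinset := by
    have : su l.toFinset j ∈ Set.range (su l.toFinset) := ⟨j, rfl⟩
    rwa [hsu] at this
  exact g5 _ (fun x hx => hl x (by simpa using hx)) h1

theorem p2_thm : StP2.{u} := by
  intro L K J A N _ _ f sk hP hf
  choose F F' h1 _ h3 _ using fun s : Finset N => hP s.toList s.toList fun _ h => h
  have hR : ∀ s t : Finset N, s ⊆ t → K.R (F s) (F t) := fun s t hst => by
    obtain ⟨S, T, a1, a2, -, a4⟩ := hP s.toList t.toList fun x hx =>
      Finset.mem_toList.2 (hst (Finset.mem_toList.1 hx))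
    rw [show F s = S from SetLike.coe_injective ((h1 s).trans a1.symm),
      show F t = T from SetLike.coe_injective ((h1 t).trans a2.symm)]
    exact a4
  have hx : ∀ x, x ∈ F {x} := fun x => h3 _ x (by simp)
  have e1 : f.toHom.range = UU F (Set.range f) := by
    refine le_antisymm ?_ (UU_le fun s hs y hy => ?_)
    · rintro _ ⟨x, rfl⟩
      exact le_UU (s := {f x}) (by simp) (hx _)
    · have : y ∈ (F s : Set N) := hy
      rw [h1] at this
      obtain ⟨j, rfl⟩ := this
      exact hf j _ fun x hx => hs (Finset.mem_toList.1 hx)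
  have e2 : UU F Set.univ = ⊤ := eq_top_iff.2 fun x _ => le_UU (s := {x}) (by simp) (hx _)
  have h5 : K.R (UU F (Set.range f)) ⊤ := e2 ▸ UU_R hR (Set.subset_univ _)
  have h6 := AEC.str_of_range h5 f e1 fun _ => trivial
  exact K.str_comp _ _ h6 (K.str_equiv Substructure.topEquiv (K.mem_cod _ h6))

theorem Pres_R_map {L : FirstOrder.Language.{u, u}} (K : AEC L) {A N : Type u} [L.Structure A]
    [L.Structure N] (f : A ↪[L] N) (S T : L.Substructure A) :
    K.R (S.map f.toHom) (T.map f.toHom) ↔ K.R S T := by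
  constructor
  · rintro ⟨h, hs⟩
    have h0 : S ≤ T := fun x hx => by
      obtain ⟨y, hy, e⟩ := h (⟨x, hx, rfl⟩ : f.toHom x ∈ S.map f.toHom)
      rwa [← f.injective e]
    have m1 : K.Mem S := K.mem_cod _ (K.str_equiv (f.substructureEquivMap S).symm (K.mem_dom _ hs))
    have m2 : K.Mem T := K.mem_cod _ (K.str_equiv (f.substructureEquivMap T).symm (K.mem_cod _ hs))
    refine ⟨h0, K.coherence _ _ (K.str_equiv (f.substructureEquivMap T) m2) ?_⟩
    have h1 := K.str_comp _ _ (K.str_equiv (f.substructureEquivMap S) m1) hs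
    exact h1
  · rintro ⟨h, hs⟩
    have m1 := K.str_equiv (f.substructureEquivMap S) (K.mem_dom _ hs)
    have m2 := K.str_equiv (f.substructureEquivMap T) (K.mem_cod _ hs)
    have h1 := K.str_comp _ _ (K.str_equiv (f.substructureEquivMap S).symm (K.mem_cod _ m1))
      (K.str_comp _ _ hs m2)
    refine ⟨Substructure.monotone_map h, ?_⟩
    convert h1 using 1
    ext x
    obtain ⟨y, rfl⟩ := (f.substructureEquivMap S).surjective x
    simp

theorem p3_thm : StP3.{u} := by
  intro L K J A N _ _ f skA skN h l l'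
  have r1 : ∀ l, Set.range (fun j => skN j (l.map f)) = f '' Set.range fun j => skA j l :=
    fun l => by
      rw [← Set.range_comp]
      exact congrArg _ (funext fun j => h j l)
  constructor
  · rintro ⟨S, T, a1, a2, a3, a4⟩
    rw [r1] at a1 a2
    have b : ∀ (W : L.Substructure N) (s : Set A), (W : Set N) = f '' s →
        ((W.comap f.toHom : L.Substructure A) : Set A) = s ∧ (W.comap f.toHom).map f.toHom = W :=
      fun W s hW => by
        have c : ((W.comap f.toHom : L.Substructure A) : Set A) = s := by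
          ext x
          have : x ∈ ((W.comap f.toHom : L.Substructure A) : Set A) ↔ f x ∈ (W : Set N) := Iff.rfl
          rw [this, hW, f.injective.mem_set_image]
        refine ⟨c, SetLike.coe_injective ?_⟩
        rw [hW, ← c]
        rfl
    refine ⟨S.comap f.toHom, T.comap f.toHom, (b _ _ a1).1, (b _ _ a2).1,
      fun x hx => a3 (f x) (List.mem_map_of_mem hx), (Pres_R_map K f _ _).1 ?_⟩
    rwa [(b _ _ a1).2, (b _ _ a2).2]
  · rintro ⟨S, T, a1, a2, a3, a4⟩
    refine ⟨S.map f.toHom, T.map f.toHom, ?_, ?_, ?_, (Pres_R_map K f _ _).2 a4⟩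
    · rw [r1, ← a1]
      rfl
    · rw [r1, ← a2]
      rfl
    · intro y hy
      obtain ⟨x, hx, rfl⟩ := List.mem_map.1 hy
      exact ⟨x, a3 x hx, rfl⟩

end Pool.Agent.Lib.MP_ccf8bc_lc.BC
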