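import Mathlib
import Pool.Agent.Lib.MP_ccf8bc_lc.BC.Stmts

/-!
Coding spans and amalgams of an abstract elementary class in universal classes.
-/

namespace Pool.Agent.Lib.MP_ccf8bc_lc.BC

open FirstOrder FirstOrder.Language Cardinal Dat

universe u

variable {τ τ' : FirstOrder.Language.{u, u}}

namespace Rep

variable {L : FirstOrder.Language.{u, u}} {J U V : Type u} {a b a' b' : Type}

/-- The set `U` with the structure `S`. -/
def Car (_S : L.Structure U) : Type u := U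

instance (S : L.Structure U) : L.Structure (Car S) := S

/-- The map `g` is an embedding. -/
structure IsEmb (S : L.Structure U) (T : L.Structure V) (g : U → V) : Prop where
  inj : Function.Injective g
  fn : ∀ n (f : L.Functions n) (v : Fin n → U), g (S.funMap f v) = T.funMap f (g ∘ v)
  rl : ∀ n (r : L.Relations n) (v : Fin n → U), T.RelMap r (g ∘ v) ↔ S.RelMap r v

/-- The embedding given by `IsEmb`. -/
def IsEmb.emb {S : L.Structure U} {T : L.Structure V} {g : U → V} (h : IsEmb S T g) :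
    Car S ↪[L] Car T :=
  ⟨⟨g, h.inj⟩, fun f v => h.fn _ f v, fun r v => h.rl _ r v⟩

theorem isEmb {S : L.Structure U} {T : L.Structure V} (f : Car S ↪[L] Car T) : IsEmb S T f :=
  ⟨f.injective, fun _ s v => f.map_fun s v, fun _ r v => f.map_rel r v⟩

theorem lift_list (h : U → V) (l : List V) (hl : ∀ x ∈ l, x ∈ Set.range h) :
    ∃ l₀ : List U, l = l₀.map h := by
  induction l with
  | nil => exact ⟨[], rfl⟩
  | cons x l ih =>
    obtain ⟨y, rfl⟩ := hl x (by simp)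
    obtain ⟨l₀, rfl⟩ := ih fun z hz => hl z (by simp [hz])
    exact ⟨y :: l₀, rfl⟩

/-- The unary function of a block of symbols. -/
def gm (F : Unit ⊕ J ⊕ J → List U → U) (x : U) : U := F (Sum.inl ()) [x]

/-- The presentation of a block of symbols. -/
def sk (F : Unit ⊕ J ⊕ J → List U → U) (j : J) : List U → U := F (Sum.inr (Sum.inl j))

/-- The witnesses of a block of symbols. -/
def wt (F : Unit ⊕ J ⊕ J → List U → U) (j : J) : List U → U := F (Sum.inr (Sum.inr j))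

/-- `F` codes a strong embedding from `S` to `T`. -/
structure Code (K : AEC L) (S T : L.Structure U) (F : Unit ⊕ J ⊕ J → List U → U) : Prop where
  emb : IsEmb S T (gm F)
  ws : ∀ j l, sk F j (l.map (gm F)) = gm F (wt F j l)
  pres : Pres K (N := Car T) (sk F)

variable {K : AEC L}

theorem Code.str (h2 : StP2.{u}) {S T : L.Structure U} {F : Unit ⊕ J ⊕ J → List U → U}
    (h : Code K S T F) : K.Str h.emb.emb :=
  h2 L K J _ _ _ _ h.pres fun j l hl => by
    obtain ⟨l₀, rfl⟩ := lift_list (gm F) l hl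
    exact ⟨wt F j l₀, (h.ws j l₀).symm⟩

theorem exists_code (h1 : StP1.{u}) (hJ : K.LS ≤ #J) {S T : L.Structure U} (f : Car S ↪[L] Car T)
    (hf : K.Str f) : ∃ F : Unit ⊕ J ⊕ J → List U → U, Code K S T F ∧ ∀ x, gm F x = f x := by
  obtain ⟨s, hs, hr⟩ := h1 L K J _ _ f hJ hf
  obtain ⟨x₀⟩ := K.nonempty _ (K.mem_dom f hf)
  have : ∀ j (l : List (Car S)), ∃ y, f y = s j (l.map f) := fun j l => hr j _ fun x hx => by
    obtain ⟨y, -, rfl⟩ := List.mem_map.1 hx
    exact ⟨y, rfl⟩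
  choose w hw using this
  exact ⟨Sum.elim (fun _ l => f (l.headD x₀)) (Sum.elim s w),
    ⟨isEmb f, fun j l => (hw j l).symm, hs⟩, fun _ => rfl⟩

/-- The map `h` respects two structures and a block of symbols. -/
structure Mor (S T : L.Structure U) (F : Unit ⊕ J ⊕ J → List U → U) (S' T' : L.Structure V)
    (F' : Unit ⊕ J ⊕ J → List V → V) (h : U → V) : Prop where
  e1 : IsEmb S S' h
  e2 : IsEmb T T' h
  fn : ∀ s l, F' s (l.map h) = h (F s l)

section

variable {S T : L.Structure U} {F : Unit ⊕ J ⊕ J → List U → U} {S' T' : L.Structure V}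
  {F' : Unit ⊕ J ⊕ J → List V → V} {h : U → V}

theorem Mor.gm (m : Mor S T F S' T' F' h) (x : U) : gm F' (h x) = h (gm F x) := m.fn _ [x]

theorem Mor.comp (m : Mor S T F S' T' F' h) {ι : Type} (v : ι → U) :
    Rep.gm F' ∘ h ∘ v = h ∘ Rep.gm F ∘ v := funext fun i => m.gm (v i)

theorem Mor.map (m : Mor S T F S' T' F' h) (l : List U) :
    (l.map h).map (Rep.gm F') = (l.map (Rep.gm F)).map h := by
  rw [List.map_map, List.map_map]
  exact congrArg (List.map · l) (funext m.gm)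

theorem Mor.fn_iff (m : Mor S T F S' T' F' h) {n : ℕ} (f : L.Functions n) (v : Fin n → U) :
    Rep.gm F' (S'.funMap f (h ∘ v)) = T'.funMap f (Rep.gm F' ∘ h ∘ v) ↔
      Rep.gm F (S.funMap f v) = T.funMap f (Rep.gm F ∘ v) := by
  rw [← m.e1.fn, m.gm, m.comp, ← m.e2.fn, m.e1.inj.eq_iff]

theorem Mor.rl_iff (m : Mor S T F S' T' F' h) {n : ℕ} (r : L.Relations n) (v : Fin n → U) :
    (T'.RelMap r (Rep.gm F' ∘ h ∘ v) ↔ S'.RelMap r (h ∘ v)) ↔
      (T.RelMap r (Rep.gm F ∘ v) ↔ S.RelMap r v) := by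
  rw [m.comp, m.e2.rl, m.e1.rl]

theorem Mor.ws_iff (m : Mor S T F S' T' F' h) (j : J) (l : List U) :
    sk F' j ((l.map h).map (Rep.gm F')) = Rep.gm F' (wt F' j (l.map h)) ↔
      sk F j (l.map (Rep.gm F)) = Rep.gm F (wt F j l) := by
  rw [m.map, sk, wt, m.fn, m.fn, m.gm, m.e1.inj.eq_iff]
  rfl

theorem Mor.pres_iff (h3 : StP3.{u}) (m : Mor S T F S' T' F' h) (l l' : List U) :
    PresAt K (N := Car T') (sk F') (l.map h) (l'.map h) ↔ PresAt K (N := Car T) (sk F) l l' :=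
  h3 L K J _ _ m.e2.emb (sk F) (sk F') (fun _ l => m.fn _ l) l l'

theorem Code.back (h3 : StP3.{u}) (m : Mor S T F S' T' F' h) (c : Code K S' T' F') :
    Code K S T F :=
  ⟨⟨fun x y e => m.e1.inj (c.emb.inj (by rw [m.gm, m.gm, e])),
    fun _ f v => (m.fn_iff f v).1 (c.emb.fn _ f _), fun _ r v => (m.rl_iff r v).1 (c.emb.rl _ r _)⟩,
    fun j l => (m.ws_iff j l).1 (c.ws j _),
    fun l l' e => (m.pres_iff h3 l l').1 (c.pres _ _ (List.map_subset h e))⟩

theorem Code.loc (h3 : StP3.{u})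
    (H : ∀ l : List V, ∃ (U : Type u) (S T : L.Structure U) (F : Unit ⊕ J ⊕ J → List U → U)
      (h : U → V), Mor S T F S' T' F' h ∧ Code K S T F ∧ ∀ x ∈ l, x ∈ Set.range h) :
    Code K S' T' F' := by
  refine ⟨⟨fun x y e => ?_, fun n f v => ?_, fun n r v => ?_⟩, fun j l => ?_, fun l l' e => ?_⟩
  · obtain ⟨U, S, T, F, h, m, c, r⟩ := H [x, y]
    obtain ⟨x, rfl⟩ := r x (by simp)
    obtain ⟨y, rfl⟩ := r y (by simp)
    rw [m.gm, m.gm] at e
    rw [c.emb.inj (m.e1.inj e)]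
  · obtain ⟨U, S, T, F, h, m, c, r⟩ := H (List.ofFn v)
    choose w hw using fun i => r (v i) (List.mem_ofFn.2 ⟨i, rfl⟩)
    obtain rfl : v = h ∘ w := funext fun i => (hw i).symm
    exact (m.fn_iff f w).2 (c.emb.fn _ f w)
  · obtain ⟨U, S, T, F, h, m, c, r'⟩ := H (List.ofFn v)
    choose w hw using fun i => r' (v i) (List.mem_ofFn.2 ⟨i, rfl⟩)
    obtain rfl : v = h ∘ w := funext fun i => (hw i).symm
    exact (m.rl_iff r w).2 (c.emb.rl _ r w)
  · obtain ⟨U, S, T, F, h, m, c, r⟩ := H l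
    obtain ⟨l, rfl⟩ := lift_list h l r
    exact (m.ws_iff j l).2 (c.ws j l)
  · obtain ⟨U, S, T, F, h, m, c, r⟩ := H l'
    obtain ⟨k, rfl⟩ := lift_list h l fun x hx => r x (e hx)
    obtain ⟨k', rfl⟩ := lift_list h l' r
    refine (m.pres_iff h3 k k').2 (c.pres _ _ fun x hx => ?_)
    obtain ⟨y, hy, e'⟩ := List.mem_map.1 (e (List.mem_map_of_mem hx))
    exact m.e1.inj e' ▸ hy

theorem Mor.str (h2 : StP2.{u}) (m : Mor S T F S' T' F' h) (c : Code K S' T' F') :
    K.Str m.e2.emb :=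
  h2 L K J _ _ _ _ c.pres fun j l hl => by
    obtain ⟨l₀, rfl⟩ := lift_list h l hl
    exact ⟨_, (m.fn _ l₀).symm⟩

end

/-- The language with `a` copies of `L` and `b` blocks of symbols of every arity. -/
def Lam (L : FirstOrder.Language.{u, u}) (J : Type u) (a b : Type) : FirstOrder.Language.{u, u} :=
  ⟨fun n => (a × L.Functions n) ⊕ (b × (Unit ⊕ J ⊕ J)), fun n => a × L.Relations n⟩

/-- Renaming of copies and blocks. -/
def lam (L : FirstOrder.Language.{u, u}) (J : Type u) (α : a → a') (β : b → b') :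
    Lam L J a b →ᴸ Lam L J a' b' :=
  ⟨fun _ => Sum.map (Prod.map α id) (Prod.map β id), fun _ => Prod.map α id⟩

/-- The `i`-th copy. -/
def st (W : (Lam L J a b).Structure U) (i : a) : L.Structure U :=
  ⟨fun f v => W.funMap (Sum.inl (i, f)) v, fun r v => W.RelMap (i, r) v⟩

/-- The `k`-th block. -/
def ff (W : (Lam L J a b).Structure U) (k : b) (s : Unit ⊕ J ⊕ J) (l : List U) : U :=
  W.funMap (n := l.length) (Sum.inr (k, s)) l.get

/-- The structure with given copies and blocks. -/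
def mk (S : a → L.Structure U) (F : b → Unit ⊕ J ⊕ J → List U → U) :
    (Lam L J a b).Structure U :=
  ⟨fun f v => Sum.elim (fun x => (S x.1).funMap x.2 v) (fun x => F x.1 x.2 (List.ofFn v)) f,
    fun r v => (S r.1).RelMap r.2 v⟩

theorem ff_mk (S : a → L.Structure U) (F : b → Unit ⊕ J ⊕ J → List U → U) :
    ff (mk S F) = F := by
  funext k s l
  exact congrArg (F k s) (List.ofFn_get l)

theorem ff_ofFn (W : (Lam L J a b).Structure U) (k : b) (s : Unit ⊕ J ⊕ J) {n : ℕ}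
    (v : Fin n → U) : ff W k s (List.ofFn v) = W.funMap (n := n) (Sum.inr (k, s)) v := by
  have key : ∀ (l : List U) (n : ℕ) (v : Fin n → U) (h : n = l.length),
      (∀ i, l.get (i.cast h) = v i) → ff W k s l = W.funMap (n := n) (Sum.inr (k, s)) v := by
    rintro l n v rfl e
    exact congrArg _ (funext e)
  exact key _ n v List.length_ofFn.symm fun i => by simp

theorem mor [W : (Lam L J a b).Structure U] [W' : (Lam L J a b).Structure V]
    (h : U ↪[Lam L J a b] V) (i i' : a) (k : b) :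
    Mor (st W i) (st W i') (ff W k) (st W' i) (st W' i') (ff W' k) h := by
  have e : ∀ i, IsEmb (st W i) (st W' i) h := fun i =>
    ⟨h.injective, fun _ f v => h.map_fun (Sum.inl (i, f)) v, fun _ r v => h.map_rel (i, r) v⟩
  refine ⟨e i, e i', fun s l => ?_⟩
  conv_lhs => rw [← List.ofFn_get l, List.map_ofFn, ff_ofFn]
  exact (h.map_fun (n := l.length) (Sum.inr (k, s)) l.get).symm

theorem st_exp {α : a → a'} {β : b → b'} [W : (Lam L J a b).Structure U]
    [W' : (Lam L J a' b').Structure U] (h : (lam L J α β).IsExpansionOn U) (i : a) :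
    st W i = st W' (α i) := by
  unfold st
  congr 1
  · funext n f v
    exact (h.map_onFunction (Sum.inl (i, f)) v).symm
  · funext n r v
    exact (h.map_onRelation (i, r) v).symm

theorem ff_exp {α : a → a'} {β : b → b'} [W : (Lam L J a b).Structure U]
    [W' : (Lam L J a' b').Structure U] (h : (lam L J α β).IsExpansionOn U) (k : b) :
    ff W k = ff W' (β k) := by
  funext s l
  exact (h.map_onFunction (n := l.length) (Sum.inr (k, s)) l.get).symm

/-- The universal class of one coded strong embedding. -/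
def cls (h3 : StP3.{u}) (K : AEC L) (J : Type u) (i i' : a) (k : b) : Univ (Lam L J a b) where
  Mem _ W := Code K (st W i) (st W i') (ff W k)
  of_emb h c := c.back h3 (mor h i i' k)
  of_fg M W H := by
    classical
    exact Code.loc h3 fun l => ⟨_, _, _, _, _,
      mor (Substructure.closure (Lam L J a b) (l.toFinset : Set M)).subtype i i' k, H l.toFinset,
      fun x hx => ⟨⟨x, Substructure.subset_closure (by simpa using hx)⟩, rfl⟩⟩

/-- The universal class of a commuting square. -/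
def sq (L : FirstOrder.Language.{u, u}) (J : Type u) (i : a) (k₀ k₁ k₂ k₃ : b) :
    Univ (Lam L J a b) where
  Mem _ W := ∀ x, gm (ff W k₂) (gm (ff W k₀) x) = gm (ff W k₃) (gm (ff W k₁) x)
  of_emb h c x := h.injective (by
    rw [← (mor h i i k₂).gm, ← (mor h i i k₀).gm, c, (mor h i i k₁).gm, (mor h i i k₃).gm])
  of_fg M W H x := by
    let h := (Substructure.closure (Lam L J a b) (({x} : Finset M) : Set M)).subtype
    have e := congrArg h (H {x} ⟨x, Substructure.subset_closure (by simp)⟩)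
    rw [← (mor h i i k₂).gm, ← (mor h i i k₀).gm, ← (mor h i i k₃).gm, ← (mor h i i k₁).gm] at e
    exact e

/-- Intersection of universal classes. -/
def inter (C D : Univ τ) : Univ τ where
  Mem M _ := C.Mem M ∧ D.Mem M
  of_emb h c := ⟨C.of_emb h c.1, D.of_emb h c.2⟩
  of_fg M _ H := ⟨C.of_fg M fun s => (H s).1, D.of_fg M fun s => (H s).2⟩

theorem move {N : Type u} [L.Structure N] (h : #N = #U) :
    ∃ S : L.Structure U, Nonempty (N ≃[L] Car S) := by
  obtain ⟨e⟩ := Cardinal.eq.1 h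
  exact ⟨e.inducedStructure, ⟨e.inducedStructureEquiv⟩⟩

theorem str_move {M N P : Type u} [L.Structure M] [L.Structure N] [L.Structure P]
    {f : M ↪[L] N} (hf : K.Str f) (e : N ≃[L] P) : K.Str (e.toEmbedding.comp f) :=
  K.str_comp _ _ hf (K.str_equiv e (K.mem_cod f hf))

end Rep

open BC.Rep in
theorem rep (h1 : StP1.{u}) (h2 : StP2.{u}) (h3 : StP3.{u}) {L : FirstOrder.Language.{u, u}}
    (K : AEC L) : ∃ (τ τ' : FirstOrder.Language.{u, u}) (φ : τ →ᴸ τ') (C₀ : Univ τ) (C₁ : Univ τ'),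
      ∀ c, ℵ₀ ≤ c → (K.AP c ↔ EmbSp φ C₀ C₁ c) := by
  let J := K.LS.out
  have hJ : K.LS ≤ #J := (Cardinal.mk_out _).ge
  refine ⟨Lam L J (Fin 3) (Fin 2), Lam L J (Fin 4) (Fin 4), lam L J ![0, 1, 2] ![0, 1],
    inter (cls h3 K J 0 1 0) (cls h3 K J 0 2 1),
    inter (inter (inter (cls h3 K J 0 1 0) (cls h3 K J 0 2 1))
      (inter (cls h3 K J 1 3 2) (cls h3 K J 2 3 3))) (sq L J 0 0 1 2 3), fun c _ =>
    ⟨fun hAP M W ⟨c1, c2⟩ hc => ?_, fun hE M₀ M₁ M₂ S₀ _ _ g₁ g₂ s₁ s₂ n₀ n₁ n₂ => ?_⟩⟩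
  · obtain ⟨N, _, f₁, f₂, hN, t₁, t₂, e⟩ :=
      hAP _ _ _ _ _ (Code.str h2 c1) (Code.str h2 c2) hc hc hc
    obtain ⟨S, ⟨m⟩⟩ := move (U := M) (L := L) (hN.trans hc.symm)
    obtain ⟨F₁, d₁, q₁⟩ := exists_code h1 hJ _ (str_move t₁ m)
    obtain ⟨F₂, d₂, q₂⟩ := exists_code h1 hJ _ (str_move t₂ m)
    refine ⟨M, W, mk ![st W 0, st W 1, st W 2, S] ![ff W 0, ff W 1, F₁, F₂], ?_, ?_, rfl,
      ⟨Embedding.refl _ _⟩⟩
    · refine @LHom.IsExpansionOn.mk _ _ _ _ _ (_) ?_ ?_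
      · rintro n (⟨i, f⟩ | ⟨k, s⟩) v
        · fin_cases i <;> rfl
        · fin_cases k <;> exact ff_ofFn W _ s v
      · rintro n ⟨i, r⟩ v
        fin_cases i <;> rfl
    · refine ⟨⟨⟨?_, ?_⟩, ?_, ?_⟩, fun x => ?_⟩
      · change Code K _ _ (ff _ _)
        rw [ff_mk]; exact c1
      · change Code K _ _ (ff _ _)
        rw [ff_mk]; exact c2
      · change Code K _ _ (ff _ _)
        rw [ff_mk]; exact d₁
      · change Code K _ _ (ff _ _)
        rw [ff_mk]; exact d₂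
      · rw [ff_mk]
        exact (q₁ _).trans ((congrArg m (DFunLike.congr_fun e x)).trans (q₂ _).symm)
  · obtain ⟨S₁, ⟨m₁⟩⟩ := move (U := Car S₀) (L := L) (n₁.trans n₀.symm)
    obtain ⟨S₂, ⟨m₂⟩⟩ := move (U := Car S₀) (L := L) (n₂.trans n₀.symm)
    obtain ⟨F₁, d₁, q₁⟩ := exists_code (U := M₀) (S := S₀) (T := S₁) h1 hJ _ (str_move s₁ m₁)
    obtain ⟨F₂, d₂, q₂⟩ := exists_code (U := M₀) (S := S₀) (T := S₂) h1 hJ _ (str_move s₂ m₂)
    obtain ⟨U, W, W', hx, ⟨⟨⟨c1, c2⟩, c3, c4⟩, c5⟩, hU, ⟨h⟩⟩ :=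
      @hE M₀ (mk ![S₀, S₁, S₂] ![F₁, F₂])
        ⟨by change Code K _ _ (ff _ _); rw [ff_mk]; exact d₁,
          by change Code K _ _ (ff _ _); rw [ff_mk]; exact d₂⟩ n₀
    have p₁ := @mor _ _ _ _ _ _ (mk ![S₀, S₁, S₂] ![F₁, F₂]) _ h 0 1 0
    have p₂ := @mor _ _ _ _ _ _ (mk ![S₀, S₁, S₂] ![F₁, F₂]) _ h 0 2 1
    rw [ff_mk, st_exp hx, st_exp hx, ff_exp hx] at p₁ p₂
    refine ⟨Car (st W' 3), inferInstance,
      (c3.emb.emb.comp p₁.e2.emb).comp m₁.toEmbedding,
      (c4.emb.emb.comp p₂.e2.emb).comp m₂.toEmbedding, hU.trans n₀,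
      K.str_comp _ _ (K.str_equiv m₁ (K.mem_cod _ s₁))
        (K.str_comp _ _ (p₁.str h2 c1) (Code.str h2 c3)),
      K.str_comp _ _ (K.str_equiv m₂ (K.mem_cod _ s₂))
        (K.str_comp _ _ (p₂.str h2 c2) (Code.str h2 c4)), Embedding.ext fun x => ?_⟩
    have e₁ : gm (ff W' 0) (h x) = h (m₁ (g₁ x)) := (p₁.gm x).trans (congrArg h (q₁ x))
    have e₂ : gm (ff W' 1) (h x) = h (m₂ (g₂ x)) := (p₂.gm x).trans (congrArg h (q₂ x))
    exact (congrArg (gm (ff W' 2)) e₁).symm.trans ((c5 _).trans (congrArg (gm (ff W' 3)) e₂))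

end Pool.Agent.Lib.MP_ccf8bc_lc.BC
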