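import Mathlib
import Pool.Agent.Lib.MP_ccf8bc_lc.BC.Stmts

/-!
The complement of an embedding spectrum is second-order definable.
-/

namespace Pool.Agent.Lib.MP_ccf8bc_lc.BC

open FirstOrder FirstOrder.Language FirstOrder.Language.Structure Cardinal Dat

universe u

variable {τ τ' : FirstOrder.Language.{u, u}}

/-- Both languages, one more unary function and countably many constants. -/
def SigmaL (τ τ' : FirstOrder.Language.{u, u}) : FirstOrder.Language.{u, u} where
  Functions n := τ.Functions n ⊕ τ'.Functions n ⊕ ULift.{u} (Option ℕ)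
  Relations n := τ.Relations n ⊕ τ'.Relations n

/-- The inclusion of the first language. -/
def sigmaA (τ τ' : FirstOrder.Language.{u, u}) : τ →ᴸ SigmaL τ τ' :=
  ⟨fun _ f => Sum.inl f, fun _ r => Sum.inl r⟩

/-- The inclusion of the second language. -/
def sigmaB (τ τ' : FirstOrder.Language.{u, u}) : τ' →ᴸ SigmaL τ τ' :=
  ⟨fun _ f => Sum.inr (Sum.inl f), fun _ r => Sum.inr r⟩

/-- The first reduct. -/
def SigmaRA (_τ _τ' : FirstOrder.Language.{u, u}) (W : Type u) : Type u := W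

/-- The second reduct. -/
def SigmaRB (_τ _τ' : FirstOrder.Language.{u, u}) (W : Type u) : Type u := W

instance sigmaInstA (W : Type u) [(SigmaL τ τ').Structure W] : τ.Structure (SigmaRA τ τ' W) :=
  (sigmaA τ τ').reduct W

instance sigmaInstB (W : Type u) [(SigmaL τ τ').Structure W] : τ'.Structure (SigmaRB τ τ' W) :=
  (sigmaB τ τ').reduct W

section

variable (τ τ') {M N : Type u} [(SigmaL τ τ').Structure M] [(SigmaL τ τ').Structure N]

/-- The unary function. -/
def sigmaH (x : M) : M :=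
  funMap (L := SigmaL τ τ') (n := 1) (Sum.inr (Sum.inr ⟨none⟩)) fun _ => x

/-- The constants. -/
def sigmaC (M : Type u) [(SigmaL τ τ').Structure M] (k : ℕ) : SigmaRA τ τ' M :=
  funMap (L := SigmaL τ τ') (M := M) (n := 0) (Sum.inr (Sum.inr ⟨some k⟩)) Fin.elim0

variable {τ τ'}

/-- An embedding is an embedding of the first reducts. -/
def sigmaEA (e : M ↪[SigmaL τ τ'] N) : SigmaRA τ τ' M ↪[τ] SigmaRA τ τ' N where
  toFun := e
  inj' := e.injective
  map_fun' f x := e.map_fun ((sigmaA τ τ').onFunction f) x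
  map_rel' r x := e.map_rel ((sigmaA τ τ').onRelation r) x

/-- An embedding is an embedding of the second reducts. -/
def sigmaEB (e : M ↪[SigmaL τ τ'] N) : SigmaRB τ τ' M ↪[τ'] SigmaRB τ τ' N where
  toFun := e
  inj' := e.injective
  map_fun' f x := e.map_fun ((sigmaB τ τ').onFunction f) x
  map_rel' r x := e.map_rel ((sigmaB τ τ').onRelation r) x

theorem sigmaH_map (e : M ↪[SigmaL τ τ'] N) (x : M) :
    e (sigmaH τ τ' x) = sigmaH τ τ' (e x) := e.map_fun _ _

theorem sigmaH_comp (e : M ↪[SigmaL τ τ'] N) {n : ℕ} (v : Fin n → M) :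
    e ∘ (sigmaH τ τ' ∘ v) = sigmaH τ τ' ∘ (e ∘ v) := funext fun i => sigmaH_map e (v i)

theorem sigmaC_map (e : M ↪[SigmaL τ τ'] N) (k : ℕ) :
    sigmaEA e (sigmaC τ τ' M k) = sigmaC τ τ' N k :=
  (e.map_fun _ _).trans (congrArg _ (Subsingleton.elim _ _))

theorem sigmaC_iff (C₀ : Univ τ) (e : M ↪[SigmaL τ τ'] N) :
    C₀.Mem (Substructure.closure τ (Set.range (sigmaC τ τ' N))) ↔
      C₀.Mem (Substructure.closure τ (Set.range (sigmaC τ τ' M))) := by
  rw [← C₀.closure_image (sigmaEA e), ← Set.range_comp,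
    show sigmaEA e ∘ sigmaC τ τ' M = sigmaC τ τ' N from funext (sigmaC_map e)]

/-- The unary function respects the symbols on the tuple `v`. -/
def SigmaAt (φ : τ →ᴸ τ') {n : ℕ} (v : Fin n → M) : Prop :=
  (∀ i j, sigmaH τ τ' (v i) = sigmaH τ τ' (v j) → v i = v j) ∧
  (∀ f : τ.Functions n, sigmaH τ τ' (funMap ((sigmaA τ τ').onFunction f) v) =
    funMap ((sigmaB τ τ').onFunction (φ.onFunction f)) (sigmaH τ τ' ∘ v)) ∧
  ∀ r : τ.Relations n, RelMap ((sigmaB τ τ').onRelation (φ.onRelation r)) (sigmaH τ τ' ∘ v) ↔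
    RelMap ((sigmaA τ τ').onRelation r) v

theorem sigmaAt_map (φ : τ →ᴸ τ') (e : M ↪[SigmaL τ τ'] N) {n : ℕ} (v : Fin n → M) :
    SigmaAt φ (e ∘ v) ↔ SigmaAt φ v := by
  refine and_congr (forall_congr' fun i => forall_congr' fun j => ?_)
    (and_congr (forall_congr' fun f => ?_) (forall_congr' fun r => ?_))
  · rw [Function.comp_apply, Function.comp_apply, ← sigmaH_map, ← sigmaH_map,
      e.injective.eq_iff, e.injective.eq_iff]
  · rw [← sigmaH_comp, ← e.map_fun, ← e.map_fun, ← sigmaH_map, e.injective.eq_iff]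
  · rw [← sigmaH_comp, e.map_rel, e.map_rel]

end

/-- The class that codes the embedding problem. -/
def sigmaU (φ : τ →ᴸ τ') (C₀ : Univ τ) (C₁ : Univ τ') : Univ (SigmaL τ τ') where
  Mem W _ := C₀.Mem (Substructure.closure τ (Set.range (sigmaC τ τ' W))) →
    C₁.Mem (SigmaRB τ τ' W) ∧ ∀ (n : ℕ) (v : Fin n → W), SigmaAt φ v
  of_emb e h h0 :=
    let ⟨h1, h2⟩ := h ((sigmaC_iff C₀ e).2 h0)
    ⟨C₁.of_emb (sigmaEB e) h1, fun n v => (sigmaAt_map φ e v).1 (h2 n _)⟩
  of_fg M _ h h0 := by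
    classical
    have key := fun s : Finset M => h s ((sigmaC_iff C₀ (Substructure.subtype _)).1 h0)
    refine ⟨C₁.of_fg _ fun s : Finset M => ?_, fun n v => ?_⟩
    · let e := sigmaEB (Substructure.closure (SigmaL τ τ') (s : Set M)).subtype
      have h1 : C₁.Mem e.toHom.range := C₁.of_emb e.equivRange.symm.toEmbedding (key s).1
      refine C₁.mono (Substructure.closure_le.2 fun x hx => ?_) h1
      exact ⟨⟨x, Substructure.subset_closure hx⟩, rfl⟩
    · let s : Finset M := Finset.univ.image v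
      let v' : Fin n → Substructure.closure (SigmaL τ τ') (s : Set M) := fun i =>
        ⟨v i, Substructure.subset_closure (Finset.mem_image_of_mem v (Finset.mem_univ i))⟩
      exact (sigmaAt_map φ (Substructure.subtype _) v').2 ((key s).2 n v')

/-- A structure from its four components. -/
@[reducible] def sigmaMk (M : Type u) [τ.Structure M] (S : τ'.Structure M) (h : M → M)
    (g : ℕ → M) : (SigmaL τ τ').Structure M where
  funMap {n} f v := match f with
    | Sum.inl f => funMap f v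
    | Sum.inr (Sum.inl f) => S.funMap f v
    | Sum.inr (Sum.inr ⟨none⟩) => if hn : 0 < n then h (v ⟨0, hn⟩) else g 0
    | Sum.inr (Sum.inr ⟨some k⟩) => g k
  RelMap r v := match r with
    | Sum.inl r => RelMap r v
    | Sum.inr r => S.RelMap r v

/-- The first reduct of an expansion is the given structure. -/
def sigmaId (M : Type u) [τ.Structure M] [(SigmaL τ τ').Structure M]
    [(sigmaA τ τ').IsExpansionOn M] : M ≃[τ] SigmaRA τ τ' M where
  toEquiv := _root_.Equiv.refl M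
  map_fun' f x := ((sigmaA τ τ').map_onFunction f x).symm
  map_rel' r x := iff_of_eq ((sigmaA τ τ').map_onRelation r x)

theorem sigma_emb_of_exp (φ : τ →ᴸ τ') (C₀ : Univ τ) (C₁ : Univ τ') {c : Cardinal.{u}}
    (h : ExpSp (sigmaA τ τ') (sigmaU φ C₀ C₁) c) : EmbSp φ C₀ C₁ c := by
  intro M _ h0 hc
  obtain ⟨S, hS, hM⟩ := h M hc
  obtain ⟨h1, h2⟩ := hM (C₀.of_emb (Substructure.subtype _)
    (C₀.of_emb (sigmaId (τ' := τ') M).symm.toEmbedding h0))
  let : τ.Structure (SigmaRB τ τ' M) := φ.reduct _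
  refine ⟨SigmaRB τ τ' M, inferInstance, inferInstance, φ.isExpansionOn_reduct _, h1, rfl,
    ⟨⟨⟨sigmaH τ τ', fun x y e => (h2 2 ![x, y]).1 0 1 e⟩, fun {n} f v => ?_, fun {n} r v => ?_⟩⟩⟩
  · rw [← (sigmaA τ τ').map_onFunction f v]
    exact (h2 n v).2.1 f
  · rw [← (sigmaA τ τ').map_onRelation r v]
    exact (h2 n v).2.2 r

theorem sigma_exp_of_emb (φ : τ →ᴸ τ') (C₀ : Univ τ) (C₁ : Univ τ') {c : Cardinal.{u}}
    (hc : ℵ₀ ≤ c) (h : EmbSp φ C₀ C₁ c) : ExpSp (sigmaA τ τ') (sigmaU φ C₀ C₁) c := by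
  intro M _ hM
  have : Infinite M := Cardinal.infinite_iff.2 (hM ▸ hc)
  obtain ⟨x0⟩ : Nonempty M := inferInstance
  by_cases h0 : C₀.Mem M
  · obtain ⟨U, _, _, hφ, h1, hU, ⟨e⟩⟩ := h M h0 hM
    obtain ⟨b⟩ := Cardinal.eq.1 hU.symm
    let S := sigmaMk (τ := τ) (τ' := τ') M
      ⟨fun f v => b.symm (funMap f (b ∘ v)), fun r v => RelMap r (b ∘ v)⟩
      (fun x => b.symm (e x)) fun _ => x0
    have hb : ∀ {n : ℕ} (v : Fin n → M), b ∘ (sigmaH τ τ' ∘ v) = e ∘ v := fun v =>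
      funext fun i => b.apply_symm_apply _
    refine ⟨S, ⟨fun _ _ => rfl, fun _ _ => rfl⟩, fun _ => ⟨C₁.of_emb (N := U)
      ⟨b.toEmbedding, fun f v => b.apply_symm_apply _, fun r v => Iff.rfl⟩ h1,
      fun n v => ⟨fun i j hij => e.injective (b.symm.injective hij), fun f => ?_, fun r => ?_⟩⟩⟩
    · change b.symm (e (funMap f v)) = b.symm (funMap (φ.onFunction f) (b ∘ (sigmaH τ τ' ∘ v)))
      rw [hb, φ.map_onFunction, e.map_fun]
    · change RelMap (φ.onRelation r) (b ∘ (sigmaH τ τ' ∘ v)) ↔ RelMap r v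
      rw [hb, φ.map_onRelation, e.map_rel]
  · obtain ⟨s, hs⟩ := not_forall.1 (mt (C₀.of_fg M) h0)
    obtain ⟨g, hg⟩ := Set.countable_iff_exists_subset_range.1 s.countable_toSet
    let S := sigmaMk (τ := τ) (τ' := τ') M ⟨fun _ _ => x0, fun _ _ => False⟩ id g
    have hE : (sigmaA τ τ').IsExpansionOn M := ⟨fun _ _ => rfl, fun _ _ => rfl⟩
    refine ⟨S, hE, fun h1 => absurd ?_ hs⟩
    rw [← C₀.closure_image (sigmaId (τ' := τ') M).toEmbedding]
    refine C₀.mono (Substructure.closure_mono ?_) h1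
    rintro _ ⟨x, hx, rfl⟩
    exact hg hx

theorem sigma_of_emb (φ : τ →ᴸ τ') (C₀ : Univ τ) (C₁ : Univ τ') :
    Sigma12 {c | ℵ₀ ≤ c ∧ ¬ EmbSp φ C₀ C₁ c} :=
  ⟨τ, SigmaL τ τ', sigmaA τ τ', sigmaU φ C₀ C₁, fun _ => and_congr_right fun hc =>
    not_congr ⟨sigma_exp_of_emb φ C₀ C₁ hc, sigma_emb_of_exp φ C₀ C₁⟩⟩

end Pool.Agent.Lib.MP_ccf8bc_lc.BC
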