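import Mathlib
import Pool.Agent.Lib.MP_ccf8bc_lc.BC.Defs2
import Pool.Agent.Lib.MP_ccf8bc_lc.BC.NSlim

/-!
Soft cardinals are weakly compact or exotic when there is no measurable cardinal above `#I`.
-/

set_option maxHeartbeats 400000

namespace Pool.Agent.Lib.MP_ccf8bc_lc.BC

open FirstOrder FirstOrder.Language Cardinal Dat

universe u

/-- A family of at most `m` functions on `α` witnesses non-softness. -/
def Soft_W (I α : Type u) (m : Cardinal.{u}) : Prop :=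
  ∃ (J : Type u) (f : J → α → I), #J ≤ m ∧
    ∀ U : Ultrafilter α, (∀ a, {a} ∉ U) → ∃ j, ∀ i, {x | f j x = i} ∉ U

theorem Soft_mono {I α β : Type u} {m m' : Cardinal.{u}} (h : #α ≤ #β) (hm : m ≤ m')
    (hW : Soft_W I β m) : Soft_W I α m' := by
  obtain ⟨e⟩ := (Cardinal.le_def _ _).1 h
  obtain ⟨J, f, h1, h2⟩ := hW
  refine ⟨J, fun j x => f j (e x), h1.trans hm, fun U hU => h2 (U.map e) fun b hb => ?_⟩
  obtain ⟨x, hx⟩ := U.nonempty_of_mem hb
  exact hU x (Filter.mem_of_superset (f := (U : Filter α)) hb fun y hy =>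
    e.injective (hy.trans hx.symm))

theorem soft_cpt (I : Type u) [Infinite I] (hU : ∀ κ, #I < κ → ¬ Measurable' κ)
    (m : Cardinal.{u}) (h0 : ℵ₀ ≤ m) (hn : ¬ NonSoft I m) :
    ∃ κ, #I < κ ∧ κ ≤ m ∧ m < 2 ^ κ ∧ Cpt κ m := by
  have hne : ({κ : Cardinal.{u} | ¬ Soft_W I κ.out m}).Nonempty ∧
      m ∈ {κ : Cardinal.{u} | ¬ Soft_W I κ.out m} := by
    have : ¬ Soft_W I m.out m := fun h => hn fun α hα => Soft_mono (by simp [hα]) le_rfl h
    exact ⟨⟨m, this⟩, this⟩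
  have h1 : ¬ Soft_W I (sInf {κ : Cardinal.{u} | ¬ Soft_W I κ.out m}).out m := csInf_mem hne.1
  have h2 : ∀ α : Type u, #α < sInf {κ : Cardinal.{u} | ¬ Soft_W I κ.out m} → Soft_W I α m :=
    fun α h => Soft_mono (by simp) le_rfl (not_not.1 (notMem_of_lt_csInf' h))
  have h3 := csInf_le' hne.2
  generalize sInf {κ : Cardinal.{u} | ¬ Soft_W I κ.out m} = κ at h1 h2 h3
  have h4 : #I < κ := by
    by_contra h
    exact h1 (Soft_mono (by simpa using h) le_rfl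
      (show Soft_W I I m from ⟨PUnit, fun _ => id, by simpa using one_le_aleph0.trans h0,
        fun U hU => ⟨⟨⟩, hU⟩⟩))
  refine ⟨κ, h4, h3, not_le.1 fun h => h1 ?_, fun α J β f hα hJ hf => ?_⟩
  · exact Soft_mono (by simpa using (Cardinal.cantor κ).le) h
      (nonSoft_pow I hU κ (h4.trans (Cardinal.cantor κ)) (2 ^ κ : Cardinal.{u}).out (by simp))
  · choose K g hK hg using fun j => h2 _ (hf j)
    have h5 : ¬ Soft_W I α m := fun h => h1 (Soft_mono (by simp [hα]) le_rfl h)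
    unfold Soft_W at h5
    push Not at h5
    obtain ⟨U, hnp, h6⟩ := h5 (Σ j, K j) (fun p x => g p.1 p.2 ⟨f p.1 x, _, rfl⟩) (by
      rw [Cardinal.mk_sigma]
      exact (Cardinal.sum_le_mk_mul_iSup _).trans (Cardinal.mul_le_of_le h0 hJ (ciSup_le' hK)))
    refine ⟨U, hnp, fun j => ?_⟩
    by_contra h7
    obtain ⟨k, hk⟩ := hg j (U.map fun x => ⟨f j x, _, rfl⟩) fun b hb => h7 ⟨b,
      Filter.mem_of_superset (f := (U : Filter α)) hb fun x hx => congrArg Subtype.val hx⟩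
    obtain ⟨i, hi⟩ := h6 ⟨j, k⟩
    exact hk i hi

theorem nonSoft_of (I : Type u) [Infinite I] (hU : ∀ κ, #I < κ → ¬ Measurable' κ)
    (m : Cardinal.{u}) (h0 : ℵ₀ ≤ m) (hw : #I < m → ¬ WeaklyCompact m) (he : ¬ Exotic m) :
    NonSoft I m := by
  rcases le_or_gt m #I with h | h
  · exact nonSoft_le I m h0 h
  by_contra hn
  obtain ⟨κ, h1, h2⟩ := soft_cpt I hU m h0 hn
  refine he ⟨fun h3 => hn (nonSoft_lim I hU m h h3 (hw h)), ?_, κ,
    (Cardinal.aleph0_le_mk I).trans_lt h1, h2⟩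
  rintro l rfl
  exact hn (nonSoft_pow I hU l h)

end Pool.Agent.Lib.MP_ccf8bc_lc.BC
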