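import Mathlib
import Pool.Agent.Lib.MP_ccf8bc_lc.BC.Stmts

/-!
Failure of amalgamation over a full structure whose base is not solvable.
-/

set_option maxHeartbeats 400000

namespace Pool.Agent.Lib.MP_ccf8bc_lc.BC

open FirstOrder FirstOrder.Language Cardinal Dat

universe u

variable {τ τ' : FirstOrder.Language.{u, u}}

/-- An element of the closure of a range lies in the closure of a finite part. -/
theorem Sound_fin {L : FirstOrder.Language.{u, u}} {M A : Type u} [L.Structure A] (G : M → A)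
    {z : A} (hz : z ∈ Substructure.closure L (Set.range G)) :
    ∃ T : Set M, T.Finite ∧ z ∈ Substructure.closure L (G '' T) := by
  refine Substructure.closure_induction
    (p := fun z => ∃ T : Set M, T.Finite ∧ z ∈ Substructure.closure L (G '' T)) hz ?_ ?_
  · rintro _ ⟨x, rfl⟩
    exact ⟨{x}, Set.finite_singleton x, Substructure.subset_closure ⟨x, rfl, rfl⟩⟩
  · intro n f v hv
    choose T hT hT' using hv
    refine ⟨⋃ i, T i, Set.finite_iUnion hT, Substructure.fun_mem _ f v fun i => ?_⟩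
    exact Substructure.closure_mono (Set.image_mono (Set.subset_iUnion T i)) (hT' i)

/-- A flag whose domain contains the whole full structure makes the base solvable. -/
theorem Sound_total {Γ : Par τ τ'} {M P : Type u} {X : Dat τ τ' M} {Z : Dat τ τ' P} {G : M → P}
    (h : IsFull Γ X) (hG : Str Γ X Z G) (hP : #P = #M) (t : P) (ht : ∀ x, Z.r2 .D (G x) t) :
    False := by
  obtain ⟨m₀⟩ := X.nonempty
  have hdom : ∀ (l : List M), ∀ x ∈ l, G x ∈ Z.dom (l.map G) t := fun l x hx =>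
    ⟨List.mem_map_of_mem hx, mt (hG.emb.r2 _ _ _).1 (h.nsp x), ht x⟩
  have hv := fun l : List M => (hG.good (m₀ :: l) (h.good _)).v1 t
    ⟨G m₀, hdom _ _ List.mem_cons_self⟩
  let U := Z.clT t (Set.range G)
  let _ : τ.Structure U := Γ.φ.reduct U
  have hU : ∀ x, (G x : Z.At t) ∈ U := fun x => Substructure.subset_closure ⟨x, rfl⟩
  have hof : ∀ {n} (v : Fin n → M) (i : Fin n),
      G (v i) ∈ Z.dom ((m₀ :: List.ofFn v).map G) t := fun v i =>
    hdom _ _ (List.mem_cons_of_mem _ (List.mem_ofFn.2 ⟨i, rfl⟩))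
  have e1 : ∀ {n} (v : Fin n → M), List.ofFn (fun i => G (v i)) = (List.ofFn v).map G :=
    fun v => List.map_ofFn.symm
  let j : X.Base ↪[τ] U :=
    { toFun := fun x => ⟨G x, hU x⟩
      inj' := fun x y hxy => hG.emb.inj (congrArg Subtype.val hxy)
      map_fun' := fun {n} f v => Subtype.ext (by
        have h1 := (hv (List.ofFn v)).2.1.1 n f (fun i => G (v i)) (hof v)
        rw [e1 (n := n) v, hG.emb.F, ← e1 (n := n) v] at h1
        exact h1.symm)
      map_rel' := fun {n} r v => by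
        have h1 := (hv (List.ofFn v)).2.1.2 n r (fun i => G (v i)) (hof v)
        rw [e1 (n := n) v, hG.emb.R, ← e1 (n := n) v] at h1
        exact h1 }
  refine h.uns ⟨U, inferInstance, inferInstance, Γ.φ.isExpansionOn_reduct U, ?_, ?_, ⟨j⟩⟩
  · refine Γ.C₁.of_fg U fun s => ?_
    rw [← Γ.C₁.closure_image U.subtype]
    choose T hT hT' using fun z : U => Sound_fin (L := τ') (A := Z.At t) G z.2
    have hfin : (⋃ z ∈ (s : Set U), T z).Finite := s.finite_toSet.biUnion fun z _ => hT z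
    refine Γ.C₁.mono ?_ (hv hfin.toFinset.toList).2.2
    refine (Substructure.closure_le).2 ?_
    rintro _ ⟨z, hz, rfl⟩
    refine Substructure.closure_mono (L := τ') (M := Z.At t) ?_ (hT' z)
    rintro _ ⟨x, hx, rfl⟩
    refine hdom _ x (List.mem_cons_of_mem _ ?_)
    rw [Finset.mem_toList, Set.Finite.mem_toFinset]
    exact Set.mem_biUnion hz hx
  · exact le_antisymm ((Cardinal.mk_subtype_le _).trans hP.le) (Cardinal.mk_le_of_injective j.inj')

/-- Finitely many sets closed under both projections cover only if one is everything. -/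
theorem Sound_cover {M P : Type u} [Nonempty M] (p : Bool → M → M)
    (hp : ∀ a a', ∃ z, p false z = a ∧ p true z = a') (D : P → M → Prop)
    (hD : ∀ e x b, D e x → D e (p b x)) {E : Set P} (hE : E.Finite) :
    (∀ x, ∃ e ∈ E, D e x) → ∃ e, ∀ x, D e x := by
  induction E, hE using Set.Finite.induction_on with
  | empty =>
    intro hc
    obtain ⟨e, he, -⟩ := hc (Classical.arbitrary M)
    exact he.elim
  | @insert e E _ _ ih =>
    intro hc
    by_cases he : ∀ x, D e x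
    · exact ⟨e, he⟩
    · obtain ⟨x₁, hx₁⟩ := not_forall.1 he
      refine ih fun y => ?_
      obtain ⟨z, h1, h2⟩ := hp x₁ y
      obtain ⟨e', he', h3⟩ := hc z
      rcases he' with rfl | he'
      · exact absurd (h1 ▸ hD _ z false h3) hx₁
      · exact ⟨e', he', h2 ▸ hD _ z true h3⟩

theorem not_apd (Γ : Par τ τ') (hP : StPt Γ) (hC : StCol Γ) {M : Type u} [Infinite M]
    {X : Dat τ τ' M} (h : IsFull Γ X) : ¬ APD Γ #M := by
  intro hA
  have hX : Mem Γ X := ⟨h.tree, Or.inr h.good⟩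
  by_cases hn : ∃ (N : Type u) (Y : Dat τ τ' N) (g : M → N),
      Str Γ X Y g ∧ #N = #M ∧ ∃ σ, Y.r2 .T σ σ
  · obtain ⟨N, Y, g, hs, hN, σ, hσ⟩ := hn
    obtain ⟨Y₁, hs₁, hF₁, hR₁, hc₁⟩ := hC M N X Y g hs True
    obtain ⟨Y₂, hs₂, hF₂, hR₂, hc₂⟩ := hC M N X Y g hs False
    obtain ⟨P, Z, f₁, f₂, hP', h₁, h₂, hf⟩ := hA M N N X Y₁ Y₂ g g hs₁ hs₂ rfl hN hN
    have hG : Str Γ X Z (f₁ ∘ g) := hs₁.comp h₁
    have r₁ : ∀ s, s ≠ RS.Col → ∀ x y, Z.r2 s (f₁ x) (f₁ y) ↔ Y.r2 s x y := fun s hs' x y => by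
      rw [h₁.emb.r2, Dat.r2, hR₁ s hs', Dat.r2]
    have r₂ : ∀ s, s ≠ RS.Col → ∀ x y, Z.r2 s (f₂ x) (f₂ y) ↔ Y.r2 s x y := fun s hs' x y => by
      rw [h₂.emb.r2, Dat.r2, hR₂ s hs', Dat.r2]
    have q₁ : ∀ s x y, Z.f2 s (f₁ x) (f₁ y) = f₁ (Y.f2 s x y) := fun s x y => by
      rw [h₁.emb.f2, Dat.f2, hF₁, Dat.f2]
    have q₂ : ∀ s x y, Z.f2 s (f₂ x) (f₂ y) = f₂ (Y.f2 s x y) := fun s x y => by
      rw [h₂.emb.f2, Dat.f2, hF₂, Dat.f2]
    have t₁ : Z.r2 .T (f₁ σ) (f₁ σ) := (r₁ _ (by simp) _ _).2 hσ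
    have t₂ : Z.r2 .T (f₂ σ) (f₂ σ) := (r₂ _ (by simp) _ _).2 hσ
    obtain ⟨e, he⟩ := Sound_cover (fun b x => X.f2 (.p b) x x) h.pair
      (fun e x => Z.r2 .D (f₁ (g x)) e)
      (fun e x b hx => by
        have hd : f₁ (g x) ∈ Z.dom ([x].map (f₁ ∘ g)) e :=
          ⟨List.mem_map_of_mem (f := f₁ ∘ g) List.mem_cons_self,
            mt (hG.emb.r2 _ x x).1 (h.nsp x), hx⟩
        have h3 := ((hG.good [x] (h.good _)).v1 e ⟨_, hd⟩).1 _ hd b
        have h4 : Z.f2 (.p b) (f₁ (g x)) (f₁ (g x)) = f₁ (g (X.f2 (.p b) x x)) :=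
          hG.emb.f2 (.p b) x x
        rwa [h4] at h3)
      (h₁.cod.1.fin t₁ t₂)
      (fun x => by
        have hx : g x ∈ [x].map g := List.mem_map_of_mem List.mem_cons_self
        obtain ⟨k, hk⟩ := or_self_iff.1 ((hs.good [x] (h.good _)).v2 hx hx σ hσ)
        have hnr : Y.f2 (.l k) σ (g x) ∉ Set.range g := by
          rintro ⟨m, hm⟩
          rw [← hm, hs.emb.r2] at hk
          exact (h.good [x, m]).k0.2.1 x (by simp) m (by simp) hk
        have h3 := (h₁.cod.1.v3_iff _ _ _).1 ((hG.good [x] (h.good _)).v3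
          (List.mem_map_of_mem (f := f₁ ∘ g) List.mem_cons_self) (f₁ σ) (f₂ σ)) t₁ t₂
        rcases h3 with ⟨e, he, hd⟩ | h3
        · exact ⟨e, he, hd⟩
        · have h4 : Z.f2 (.l k) (f₂ σ) ((f₁ ∘ g) x) = f₂ (Y.f2 (.l k) σ (g x)) := by
            rw [Function.comp_apply, hf, q₂]
          rcases h3 k with ⟨k', hk'⟩ | h5
          · exfalso
            rw [h4, Function.comp_apply, q₁] at hk'
            by_cases hr : Y.f2 (.l k') σ (g x) ∈ Set.range g
            · obtain ⟨m, hm⟩ := hr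
              rw [← hm, hf] at hk'
              exact hnr ⟨m, h₂.emb.inj hk'⟩
            · have h6 := (h₁.emb.r2 _ _ _).2 ((hc₁ _ hr).2 trivial)
              rw [hk', h₂.emb.r2] at h6
              exact (hc₂ _ hnr).1 h6
          · rw [h4] at h5
            refine ⟨_, h5, ?_⟩
            rw [hf, r₂ _ (by simp)]
            exact hk)
    exact Sound_total h hG hP' e he
  · obtain ⟨X₁, hs₁, hp₁, hc₁⟩ := hP M X hX h.good h.nsp True
    obtain ⟨X₂, hs₂, hp₂, hc₂⟩ := hP M X hX h.good h.nsp False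
    have hO : #(Option M) = #M := by
      rw [Cardinal.mk_option, Cardinal.add_one_eq (Cardinal.aleph0_le_mk M)]
    obtain ⟨P, Z, f₁, f₂, hP', h₁, h₂, -⟩ := hA M _ _ X X₁ X₂ some some hs₁ hs₂ rfl hO hO
    have hQ : ∀ l, Q Γ Z l := h₁.cod.2.resolve_left fun hσ => hn ⟨P, Z, _, hs₁.comp h₁, hP', hσ⟩
    have he : f₁ none = f₂ none := (hQ [f₁ none, f₂ none]).k0.2.2.1 _ (by simp) _ (by simp)
      ((h₁.emb.r2 _ _ _).2 hp₁) ((h₂.emb.r2 _ _ _).2 hp₂)
    have h6 := (h₁.emb.r2 _ _ _).2 (hc₁.2 trivial)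
    rw [he, h₂.emb.r2] at h6
    exact hc₂.1 h6

end Pool.Agent.Lib.MP_ccf8bc_lc.BC
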