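import Mathlib
import Pool.Agent.Lib.MP_ccf8bc_lc.BC.Basic

/-!
Embedding spectra are closed under intersections.
-/

set_option maxHeartbeats 400000

namespace Pool.Agent.Lib.MP_ccf8bc_lc.BC

open FirstOrder FirstOrder.Language FirstOrder.Language.Structure Cardinal

universe u

section

variable {L L' : FirstOrder.Language.{u, u}}

/-- The reduct of a structure, as a type. -/
def Union_Red (_ι : L →ᴸ L') (M : Type u) : Type u := M

instance (ι : L →ᴸ L') (M : Type u) [L'.Structure M] : L.Structure (Union_Red ι M) := ι.reduct M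

/-- The reduct of an embedding. -/
def Union_emb (ι : L →ᴸ L') {M N : Type u} [L'.Structure M] [L'.Structure N] (e : M ↪[L'] N) :
    Union_Red ι M ↪[L] Union_Red ι N where
  toFun := e
  inj' := e.injective
  map_fun' f v := e.map_fun (ι.onFunction f) v
  map_rel' r v := e.map_rel (ι.onRelation r) v

theorem Union_fg (ι : L →ᴸ L') (C : Univ L) (M : Type u) [L'.Structure M]
    (h : ∀ s : Finset M, C.Mem (Union_Red ι (Substructure.closure L' (s : Set M)))) :
    C.Mem (Union_Red ι M) := by
  refine C.of_fg _ fun (s : Finset M) => C.of_emb ?_ (h s)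
  have key : ∀ x : Substructure.closure L (M := Union_Red ι M) (s : Set M),
      x.1 ∈ (Substructure.closure L' (M := M) (s : Set M) : Set M) := fun x =>
    Substructure.closure_induction (L := L) (M := Union_Red ι M)
      (p := fun y => y ∈ (Substructure.closure L' (M := M) (s : Set M) : Set M)) x.2
      (fun y hy => Substructure.subset_closure (L := L') (M := M) hy)
      fun f v hv => Substructure.fun_mem (Substructure.closure L' (M := M) (s : Set M))
        (ι.onFunction f) v hv
  exact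
    { toFun := fun x => ⟨x.1, key x⟩
      inj' := fun x y h => Subtype.ext (Subtype.mk.inj h)
      map_fun' := fun f v => rfl
      map_rel' := fun r v => Iff.rfl }

end

variable {B : Type u}

/-- The sum of a family of languages, with one propositional symbol for each index. -/
def Union_SL (τ : B → FirstOrder.Language.{u, u}) : FirstOrder.Language.{u, u} :=
  ⟨fun n => Σ b, (τ b).Functions n, fun n => (Σ b, (τ b).Relations n) ⊕ {_b : B // n = 0}⟩

variable {τ τ' : B → FirstOrder.Language.{u, u}}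

/-- The inclusion of a summand. -/
def Union_i (τ : B → FirstOrder.Language.{u, u}) (b : B) : τ b →ᴸ Union_SL τ :=
  ⟨fun _ f => ⟨b, f⟩, fun _ r => Sum.inl ⟨b, r⟩⟩

/-- A structure from its components. -/
@[reducible] def Union_mk {M : Type u} (S : ∀ b, (τ b).Structure M) (P : B → Prop) :
    (Union_SL τ).Structure M where
  funMap f v := (S f.1).funMap f.2 v
  RelMap r v := Sum.elim (fun r => (S r.1).RelMap r.2 v) (fun b => P b.1) r

/-- A propositional symbol. -/
def Union_s (τ : B → FirstOrder.Language.{u, u}) (b : B) : (Union_SL τ).Relations 0 :=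
  Sum.inr ⟨b, rfl⟩

/-- The value of a propositional symbol. -/
def Union_p (τ : B → FirstOrder.Language.{u, u}) (M : Type u) [(Union_SL τ).Structure M] (b : B) :
    Prop :=
  RelMap (Union_s τ b) (Fin.elim0 : Fin 0 → M)

theorem Union_p_emb {M N : Type u} [(Union_SL τ).Structure M] [(Union_SL τ).Structure N]
    (e : M ↪[Union_SL τ] N) (b : B) : Union_p τ N b ↔ Union_p τ M b := by
  rw [Union_p, Union_p, ← e.map_rel]
  exact Iff.of_eq (congrArg _ (Subsingleton.elim _ _))

/-- The class of structures with at most one true symbol `b`, whose `b`-th part is in `C b`. -/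
def Union_C₀ (C : ∀ b, Univ (τ b)) : Univ (Union_SL τ) where
  Mem M := (∀ b b', Union_p τ M b → Union_p τ M b' → b = b') ∧
    ∀ b, Union_p τ M b → (C b).Mem (Union_Red (Union_i τ b) M)
  of_emb e h := ⟨fun b b' h1 h2 => h.1 b b' ((Union_p_emb e b).2 h1) ((Union_p_emb e b').2 h2),
    fun b h1 => (C b).of_emb (Union_emb _ e) (h.2 b ((Union_p_emb e b).2 h1))⟩
  of_fg M _ h := ⟨fun b b' h1 h2 => (h ∅).1 b b' ((Union_p_emb (Substructure.subtype _) b).1 h1)
    ((Union_p_emb (Substructure.subtype _) b').1 h2), fun b h1 => Union_fg _ _ _ fun s =>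
      (h s).2 b ((Union_p_emb (Substructure.subtype _) b).1 h1)⟩

/-- Two language maps give the same reduct. -/
def Union_Ag {L L' : FirstOrder.Language.{u, u}} (ι ι' : L →ᴸ L') : Univ L' where
  Mem M := (∀ n (f : L.Functions n) (v : Fin n → M),
      funMap (ι.onFunction f) v = funMap (ι'.onFunction f) v) ∧
    ∀ n (r : L.Relations n) (v : Fin n → M), RelMap (ι.onRelation r) v ↔ RelMap (ι'.onRelation r) v
  of_emb e h := ⟨fun n f v => e.injective (by rw [e.map_fun, e.map_fun, h.1]),
    fun n r v => by rw [← e.map_rel, ← e.map_rel (ι'.onRelation r), h.2]⟩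
  of_fg M _ h := by
    classical
    have key : ∀ {n} (v : Fin n → M) (i : Fin n),
        v i ∈ Substructure.closure L' ((Finset.univ.image v : Finset M) : Set M) :=
      fun v i => Substructure.subset_closure (by simp)
    exact ⟨fun n f v => congrArg Subtype.val ((h _).1 n f fun i => ⟨v i, key v i⟩),
      fun n r v => (h _).2 n r fun i => ⟨v i, key v i⟩⟩

/-- The class of expansions in `C`, in the sum of the two languages. -/
def Union_Ex {L L' : FirstOrder.Language.{u, u}} (φ : L →ᴸ L') (C : Univ L') :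
    Univ (L.sum L') where
  Mem M := (Union_Ag LHom.sumInl ((LHom.sumInr : L' →ᴸ L.sum L').comp φ)).Mem M ∧
    C.Mem (Union_Red (LHom.sumInr : L' →ᴸ L.sum L') M)
  of_emb e h := ⟨Univ.of_emb _ e h.1, C.of_emb (Union_emb _ e) h.2⟩
  of_fg M _ h := ⟨Univ.of_fg _ M fun s => (h s).1, Union_fg _ _ _ fun s => (h s).2⟩

/-- The map between the sums. -/
def Union_chi (τ τ' : B → FirstOrder.Language.{u, u}) :
    Union_SL τ →ᴸ Union_SL fun b => (τ b).sum (τ' b) :=
  ⟨fun _ f => ⟨f.1, Sum.inl f.2⟩, fun _ r => Sum.map (fun r => ⟨r.1, Sum.inl r.2⟩) id r⟩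

theorem Union_ext {L : FirstOrder.Language.{u, u}} {M U : Type u} [L.Structure M] [Nonempty U]
    (h : M → U) (hh : Function.Injective h) : ∃ S : L.Structure U,
      (∀ n (f : L.Functions n) (v : Fin n → M), h (funMap f v) = S.funMap f (h ∘ v)) ∧
      ∀ n (r : L.Relations n) (v : Fin n → M), S.RelMap r (h ∘ v) ↔ RelMap r v := by
  have hi : ∀ n, Function.Injective fun v : Fin n → M => h ∘ v := fun n => hh.comp_left
  refine ⟨⟨fun {n} f => Function.extend (fun v : Fin n → M => h ∘ v) (fun v => h (funMap f v))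
    fun _ => Classical.arbitrary U, fun {n} r w => ∃ v, h ∘ v = w ∧ RelMap r v⟩,
    fun n f v => ((hi n).extend_apply (fun v => h (funMap f v)) (fun _ => Classical.arbitrary U)
      v).symm, fun n r v => ⟨?_, fun h1 => ⟨v, rfl, h1⟩⟩⟩
  rintro ⟨v', h1, h2⟩
  rwa [← hi n h1]

theorem emb_inter (φ : ∀ b, τ b →ᴸ τ' b) (C₀ : ∀ b, Univ (τ b)) (C₁ : ∀ b, Univ (τ' b)) :
    ∃ (σ σ' : FirstOrder.Language.{u, u}) (χ : σ →ᴸ σ') (E₀ : Univ σ) (E₁ : Univ σ'),
      ∀ c, ℵ₀ ≤ c → (EmbSp χ E₀ E₁ c ↔ ∀ b, EmbSp (φ b) (C₀ b) (C₁ b) c) := by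
  classical
  refine ⟨_, _, Union_chi τ τ', Union_C₀ C₀, Union_C₀ fun b => Union_Ex (φ b) (C₁ b),
    fun c hc => ⟨fun h b M S h0 hM => ?_, fun h M S h0 hM => ?_⟩⟩
  · have : Infinite M := Cardinal.infinite_iff.2 (hM ▸ hc)
    have : Inhabited M := Classical.inhabited_of_nonempty inferInstance
    have key : ∀ T : ∀ b, (τ b).Structure M, T b = S → @Solv _ _ (φ b) (C₁ b) M S := by
      rintro T rfl
      let := Union_mk T (· = b)
      obtain ⟨U, _, _, a1, a2, a3, ⟨e⟩⟩ := h M ⟨fun b₁ b₂ (h1 : b₁ = b) (h2 : b₂ = b) =>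
        h1.trans h2.symm, fun b' (h1 : b' = b) => by
          subst h1
          exact h0⟩ hM
      have a4 : Union_p (fun b => (τ b).sum (τ' b)) U b :=
        (Iff.of_eq (a1.map_onRelation (Union_s τ b) _)).2 ((Union_p_emb e b).2 rfl)
      have a5 := a2.2 b a4
      refine ⟨U, (Union_i τ b).reduct U,
        (LHom.sumInr : τ' b →ᴸ (τ b).sum (τ' b)).reduct (Union_Red (Union_i _ b) U),
        @LHom.IsExpansionOn.mk _ _ _ _ (_) (_) (fun {n} f v => ?_) fun {n} r v => ?_, a5.2, a3,
        ⟨Union_emb (Union_i τ b) e⟩⟩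
      · exact (a5.1.1 n f v).symm.trans (a1.map_onFunction (⟨b, f⟩ : (Union_SL τ).Functions n) v)
      · exact propext ((a5.1.2 n r v).symm.trans
          (Iff.of_eq (a1.map_onRelation (Sum.inl ⟨b, r⟩ : (Union_SL τ).Relations n) v)))
    exact key (Function.update (fun _ => Inhabited.trivialStructure _) b S) (Function.update_self ..)
  · have : Infinite M := Cardinal.infinite_iff.2 (hM ▸ hc)
    have key : ∀ (U : Type u) (g : M → U) (T : ∀ b, (τ b).Structure U)
        (T' : ∀ b, (τ' b).Structure U), #U = #M → Function.Injective g →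
        (∀ b n (f : (τ b).Functions n) (v : Fin n → M),
          g (funMap ((Union_i τ b).onFunction f) v) = (T b).funMap f (g ∘ v)) →
        (∀ b n (r : (τ b).Relations n) (v : Fin n → M),
          (T b).RelMap r (g ∘ v) ↔ RelMap ((Union_i τ b).onRelation r) v) →
        (∀ b, Union_p τ M b → (φ b).IsExpansionOn U ∧ (C₁ b).Mem U) →
        Solv (Union_chi τ τ') (Union_C₀ fun b => Union_Ex (φ b) (C₁ b)) M := by
      intro U g T T' b1 b2 b3 b4 b5
      let := Union_mk T (Union_p τ M)
      let := Union_mk (τ := fun b => (τ b).sum (τ' b)) (M := U) (fun b => inferInstance)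
        (Union_p τ M)
      refine ⟨U, inferInstance, inferInstance, ⟨fun _ _ => rfl, ?_⟩, ⟨h0.1, fun b hb =>
        ⟨⟨fun n f v => ((b5 b hb).1.map_onFunction f v).symm,
          fun n r v => Iff.of_eq ((b5 b hb).1.map_onRelation r v).symm⟩, (b5 b hb).2⟩⟩, b1,
        ⟨⟨⟨g, b2⟩, fun f v => b3 f.1 _ f.2 v, ?_⟩⟩⟩
      · rintro n (r | r) v <;> rfl
      · rintro n (r | ⟨b, rfl⟩) v
        · exact b4 r.1 _ r.2 v
        · exact Iff.of_eq (congrArg (RelMap (Union_s τ b))
            (Subsingleton.elim (Fin.elim0 : Fin 0 → M) v))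
    have : Inhabited M := Classical.inhabited_of_nonempty inferInstance
    by_cases hb : ∃ b, Union_p τ M b
    · obtain ⟨b, hb⟩ := hb
      obtain ⟨U, S₁, S₂, a1, a2, a3, ⟨e⟩⟩ := h b (Union_Red (Union_i τ b) M) (h0.2 b hb) hM
      have : Inhabited U := ⟨e (default : M)⟩
      have ei := e.injective
      have ef := fun n (f : (τ b).Functions n) v => e.map_fun f v
      have er := fun n (r : (τ b).Relations n) v => e.map_rel r v
      generalize (e : Union_Red (Union_i τ b) M → U) = g at ei ef er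
      choose T t1 t2 using fun b' => Union_ext (L := τ b') (M := Union_Red (Union_i τ b') M)
        (U := U) g ei
      have key2 : ∀ (T : ∀ b, (τ b).Structure U) (T' : ∀ b, (τ' b).Structure U), T b = S₁ →
          T' b = S₂ → ∀ b', Union_p τ M b' → (φ b').IsExpansionOn U ∧ (C₁ b').Mem U := by
        intro T T' e1 e2 b' hb'
        obtain rfl := h0.1 _ _ hb hb'
        rw [e1, e2]
        exact ⟨a1, a2⟩
      refine key U g (Function.update T b S₁)
        (Function.update (fun _ => Inhabited.trivialStructure _) b S₂) a3 ei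
        (fun b' n f v => ?_) (fun b' n r v => ?_)
        (key2 _ _ (Function.update_self ..) (Function.update_self ..))
      · by_cases h1 : b' = b
        · subst h1
          rw [Function.update_self]
          exact ef n f v
        · rw [Function.update_of_ne h1]
          exact t1 b' n f v
      · by_cases h1 : b' = b
        · subst h1
          rw [Function.update_self]
          exact er n r v
        · rw [Function.update_of_ne h1]
          exact t2 b' n r v
    · exact key M id (fun b => (Union_i τ b).reduct M) (fun _ => Inhabited.trivialStructure _) rfl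
        Function.injective_id (fun _ _ _ _ => rfl) (fun _ _ _ _ => Iff.rfl)
        fun b h1 => absurd ⟨b, h1⟩ hb

theorem emb_inter₂ {τ₁ τ₁' τ₂ τ₂' : FirstOrder.Language.{u, u}} (φ : τ₁ →ᴸ τ₁') (C₀ : Univ τ₁)
    (C₁ : Univ τ₁') (ψ : τ₂ →ᴸ τ₂') (D₀ : Univ τ₂) (D₁ : Univ τ₂') :
    ∃ (σ σ' : FirstOrder.Language.{u, u}) (χ : σ →ᴸ σ') (E₀ : Univ σ) (E₁ : Univ σ'),
      ∀ c, ℵ₀ ≤ c → (EmbSp χ E₀ E₁ c ↔ EmbSp φ C₀ C₁ c ∧ EmbSp ψ D₀ D₁ c) := by
  let T : ULift.{u} Bool → Σ τ τ' : FirstOrder.Language.{u, u}, Par τ τ' := fun b =>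
    cond b.down ⟨τ₂, τ₂', ψ, D₀, D₁⟩ ⟨τ₁, τ₁', φ, C₀, C₁⟩
  obtain ⟨σ, σ', χ, E₀, E₁, h⟩ := emb_inter (fun b => (T b).2.2.φ) (fun b => (T b).2.2.C₀)
    fun b => (T b).2.2.C₁
  refine ⟨σ, σ', χ, E₀, E₁, fun c hc => (h c hc).trans ⟨fun h1 => ⟨h1 ⟨false⟩, h1 ⟨true⟩⟩, ?_⟩⟩
  rintro h1 ⟨_ | _⟩
  · exact h1.1
  · exact h1.2

end Pool.Agent.Lib.MP_ccf8bc_lc.BC
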