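import Mathlib
import Pool.Agent.Lib.MP_ccf8bc_lc.BC.Amal
import Pool.Agent.Lib.MP_ccf8bc_lc.BC.Class
import Pool.Agent.Lib.MP_ccf8bc_lc.BC.Flag
import Pool.Agent.Lib.MP_ccf8bc_lc.BC.Full
import Pool.Agent.Lib.MP_ccf8bc_lc.BC.Sound
import Pool.Agent.Lib.MP_ccf8bc_lc.BC.Pres
import Pool.Agent.Lib.MP_ccf8bc_lc.BC.Rep
import Pool.Agent.Lib.MP_ccf8bc_lc.BC.Sigma
import Pool.Agent.Lib.MP_ccf8bc_lc.BC.Max
import Pool.Agent.Lib.MP_ccf8bc_lc.BC.NSpow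
import Pool.Agent.Lib.MP_ccf8bc_lc.BC.NSlim
import Pool.Agent.Lib.MP_ccf8bc_lc.BC.Limit
import Pool.Agent.Lib.MP_ccf8bc_lc.BC.Part
import Pool.Agent.Lib.MP_ccf8bc_lc.BC.EM
import Pool.Agent.Lib.MP_ccf8bc_lc.BC.Compact
import Pool.Agent.Lib.MP_ccf8bc_lc.BC.Soft
import Pool.Agent.Lib.MP_ccf8bc_lc.BC.Union
import Pool.Agent.Lib.MP_ccf8bc_lc.Example

/-!
Assembly: embedding spectra are amalgamation spectra; transfer and realisation theorems.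
-/

set_option maxHeartbeats 400000

namespace Pool.Agent.Lib.MP_ccf8bc_lc.BC

open FirstOrder FirstOrder.Language Cardinal Dat

universe u

variable {τ τ' : FirstOrder.Language.{u, u}}

theorem apd (Γ : Par τ τ') {ν : Cardinal.{u}} (hinf : ℵ₀ ≤ ν) (hS : EmbSp Γ.φ Γ.C₀ Γ.C₁ ν) :
    APD Γ ν := by
  intro M₀ M₁ M₂ X₀ X₁ X₂ g₁ g₂ h₁ h₂ c₀ c₁ c₂
  have fin : ∀ {N : Type u} {Y : Dat τ τ' N} {f : M₁ → N}, Str Γ X₁ Y f → #N ≤ ν → #N = ν :=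
    fun h h' => le_antisymm h' (c₁ ▸ Cardinal.mk_le_of_injective h.emb.inj)
  rcases h₁.dom.2 with hT | hK
  · obtain ⟨N, Y, f₁, f₂, hN, s₁, s₂, hc⟩ := amal h₁ h₂ hT
    exact ⟨N, Y, f₁, f₂, fin s₁ (hN.trans (Cardinal.add_le_of_le hinf c₁.le c₂.le)), s₁, s₂, hc⟩
  have ext : ∀ (M : Type u) (X : Dat τ τ' M), Mem Γ X → #M = ν →
      ∃ (N : Type u) (Y : Dat τ τ' N) (f : M → N), #N = ν ∧ Str Γ X Y f ∧ ∃ σ, Y.r2 .T σ σ := by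
    intro M X hX hM
    rcases hX.2 with hT | hK
    · exact ⟨M, X, id, hM, Str.refl hX, hT⟩
    · have : Infinite M := Cardinal.infinite_iff.2 (hM ▸ hinf)
      obtain ⟨M', X', a, r, h1, s, t, -⟩ := flag_ext Γ X hX hK (hM ▸ hS)
      exact ⟨M', X', a, h1.trans hM, s, r, t⟩
  have : Infinite M₀ := Cardinal.infinite_iff.2 (c₀ ▸ hinf)
  obtain ⟨M', X', a, r, -, -, t, H⟩ := flag_ext Γ X₀ h₁.dom hK (c₀ ▸ hS)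
  obtain ⟨N₁, Y₁, f₁, d₁, s₁, t₁⟩ := ext M₁ X₁ h₁.cod c₁
  obtain ⟨N₂, Y₂, f₂, d₂, s₂, t₂⟩ := ext M₂ X₂ h₂.cod c₂
  obtain ⟨P₁, Z₁, i₁, k₁, n₁, a₁, b₁, e₁⟩ := H N₁ Y₁ _ (h₁.comp s₁) t₁
  obtain ⟨P₂, Z₂, i₂, k₂, n₂, a₂, b₂, e₂⟩ := H N₂ Y₂ _ (h₂.comp s₂) t₂
  obtain ⟨N, Y, p₁, p₂, hN, u₁, u₂, hc⟩ := amal b₁ b₂ ⟨_, t⟩
  refine ⟨N, Y, _, _, fin ((s₁.comp a₁).comp u₁) (hN.trans (Cardinal.add_le_of_le hinf
    (n₁.trans (Cardinal.add_le_of_le hinf d₁.le c₀.le))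
    (n₂.trans (Cardinal.add_le_of_le hinf d₂.le c₀.le)))), (s₁.comp a₁).comp u₁,
    (s₂.comp a₂).comp u₂, fun x => ?_⟩
  have := hc (a x)
  rw [e₁, e₂] at this
  exact this

/-- Every embedding spectrum is an amalgamation spectrum. -/
theorem general (φ : τ →ᴸ τ') (C₀ : Univ τ) (C₁ : Univ τ') :
    ∃ (L : FirstOrder.Language.{u, u}) (K : AEC L),
      ∀ c, ℵ₀ ≤ c → (K.AP c ↔ EmbSp φ C₀ C₁ c) := by
  obtain ⟨L, K, hK⟩ := exists_AEC ⟨φ, C₀, C₁⟩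
  refine ⟨L, K, fun c hc => (hK c).trans ⟨fun h M _ h0 hM => ?_, apd ⟨φ, C₀, C₁⟩ hc⟩⟩
  by_contra h1
  have : Infinite M := Cardinal.infinite_iff.2 (hM ▸ hc)
  obtain ⟨X, hX⟩ := exists_full ⟨φ, C₀, C₁⟩ M h0 h1
  exact not_apd _ (pt_thm _) (col_thm _) hX (hM ▸ h)

/-- A failure at a weakly compact cardinal persists in all larger cardinals. -/
theorem wc_transfer (φ : τ →ᴸ τ') (C₀ : Univ τ) (C₁ : Univ τ') {κ ν : Cardinal.{u}}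
    (hκ : WeaklyCompact κ) (h1 : τ.card < κ) (h2 : τ'.card < κ) (hν : κ ≤ ν)
    (h : EmbSp φ C₀ C₁ ν) : EmbSp φ C₀ C₁ κ := by
  intro M _ h0 hM
  subst hM
  have : Infinite M := Cardinal.infinite_iff.2 hκ.1.le
  refine solv_of_solvW φ C₁ M h2.le (compact limit_thm inacc_thm φ C₁ M hκ h1 h2 fun A hA => ?_)
  obtain ⟨P, _, p1, p2, ⟨e⟩⟩ := em limit_thm inacc_thm part_thm C₀ M h0 hκ h1 A hA ν hν
  obtain ⟨U, _, _, q1, q2, -, ⟨e'⟩⟩ := h P p1 p2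
  exact ⟨U, _, _, q1, q2, ⟨e'.comp e⟩⟩

/-- Realising a pair that is separated by a second-order definable class and, on exotic
cardinals, by an embedding spectrum. -/
theorem realise_sigma (X Y F : Set Cardinal.{u}) (hF : Sigma12 F) (hY : Y ⊆ F) (hX : Disjoint X F)
    (θ : Cardinal.{u}) (hθ : ℵ₀ ≤ θ) (hU : ∀ κ, θ < κ → ¬ Measurable' κ)
    (hB : ∀ m ∈ Y, θ < m → ¬ WeaklyCompact m) (χ : τ →ᴸ τ') (D₀ : Univ τ) (D₁ : Univ τ')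
    (hD : ∀ n ∈ X, ℵ₀ ≤ n → EmbSp χ D₀ D₁ n) (hE : ∀ m ∈ Y, Exotic m → ¬ EmbSp χ D₀ D₁ m) :
    ∃ (L : FirstOrder.Language.{u, u}) (K : AEC L), (∀ n ∈ X, K.AP n) ∧ ∀ m ∈ Y, ¬ K.AP m := by
  obtain ⟨I, rfl⟩ : ∃ I : Type u, #I = θ := ⟨θ.out, Cardinal.mk_out θ⟩
  have : Infinite I := Cardinal.infinite_iff.2 hθ
  obtain ⟨τ₁, τ₁', φ, C, hC⟩ := hF
  obtain ⟨σ, σ', ψ, C₀, C₁, h1, h2⟩ := max_sep φ C I
  obtain ⟨ρ, ρ', ω, E₀, E₁, h5⟩ := emb_inter₂ ψ C₀ C₁ χ D₀ D₁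
  obtain ⟨L, K, hK⟩ := general ω E₀ E₁
  refine ⟨L, K, fun n hn => ?_, fun m hm => ?_⟩
  · rcases lt_or_ge n ℵ₀ with h | h
    · exact K.AP_of_finite h
    · exact (hK n h).2 ((h5 n h).2 ⟨h1 n (by_contra fun h' =>
        Set.disjoint_left.1 hX hn ((hC n).2 ⟨h, h'⟩)), hD n hn h⟩)
  · obtain ⟨h3, h4⟩ := (hC m).1 (hY hm)
    intro h
    have h6 := (h5 m h3).1 ((hK m h3).1 h)
    exact h2 m h3 (nonSoft_of I hU m h3 (hB m hm) fun h7 => hE m hm h7 h6.2) h4 h6.1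

end Pool.Agent.Lib.MP_ccf8bc_lc.BC
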